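import Pool.Agent.Lib.MP_fa2e84_al.Cok

/-! The homological part: a module `E` with two vanishing Tor modules gives the example. -/

set_option linter.unusedSectionVars false

namespace Pool.Agent.Lib.MP_fa2e84_al

open TensorProduct CategoryTheory RingTheory.Sequence Pointwise

variable {A : Type} [CommRing A] {J : Type} [Fintype J] [DecidableEq J]

/-- A short exact sequence. -/
structure Ses {Y' Y Y'' : Type} [AddCommGroup Y'] [AddCommGroup Y] [AddCommGroup Y'']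
    [Module A Y'] [Module A Y] [Module A Y''] (f : Y' →ₗ[A] Y) (g : Y →ₗ[A] Y'') : Prop where
  inj : Function.Injective f
  ex : Function.Exact f g
  surj : Function.Surjective g

/-- The data making a complex of length at most six acyclic with a deep cokernel. -/
structure Deep (deg : J → ℕ) (D : Matrix J J A) (y1 y2 : A) (ys : List A) : Prop where
  hg : Hg deg D
  dd : D * D = 0
  top : ∀ a, deg a ≤ 6
  len : ys.length = 6
  reg : IsWeaklyRegular A (y1 :: y2 :: ys)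
  htp : ∀ y ∈ y1 :: y2 :: ys, Htp deg D y

section deep

variable {deg : J → ℕ} {D : Matrix J J A} {y1 y2 : A} {ys : List A}

theorem reg_flat {xs : List A} (h : IsWeaklyRegular A xs) (G : Type) [AddCommGroup G]
    [Module A G] [Module.Flat A G] : IsWeaklyRegular G xs :=
  ((TensorProduct.lid A G).isWeaklyRegular_congr xs).1 h.isWeaklyRegular_rTensor

variable (G : Type) [AddCommGroup G] [Module A G] [Module.Flat A G]

theorem Deep.ex (h : Deep deg D y1 y2 ys) (n : ℕ) : Ex deg D (n + 1) G :=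
  acyc h.hg h.dd _ G (reg_flat h.reg G) h.htp n fun a => by
    have := h.top a; have := h.len; simp only [List.length_cons]; omega

variable {G}

theorem Deep.r1 (h : Deep deg D y1 y2 ys) {v : J → G} (hv : Bd deg D 0 (y1 • v)) :
    Bd deg D 0 v := by
  have hr := reg_flat h.reg G
  rw [isWeaklyRegular_cons_iff] at hr
  refine bd_of_smul h.hg h.dd hr.1 (acyc h.hg h.dd _ _ hr.2
    (fun y hy => h.htp y (List.mem_cons_of_mem _ hy)) 0 fun a => ?_) hv
  have := h.top a; have := h.len; simp only [List.length_cons]; omega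

theorem Deep.r2 (h : Deep deg D y1 y2 ys) {v v' : J → G} (hv : Dg deg 0 v)
    (hb : Bd deg D 0 (y2 • v - y1 • v')) : ∃ u : J → G, Dg deg 0 u ∧ Bd deg D 0 (v - y1 • u) := by
  have hr := reg_flat h.reg G
  rw [isWeaklyRegular_cons_iff, isWeaklyRegular_cons_iff] at hr
  let q : G →ₗ[A] QuotSMulTop y1 G := Submodule.mkQ (y1 • (⊤ : Submodule A G))
  have hq : Function.Exact (LinearMap.lsmul A G y1) q := exact_smul y1
  have h1 := hb.map q
  have h2 : q ∘ (y1 • v') = 0 := comp_comp_zero hq v'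
  rw [comp_sub', h2, sub_zero, comp_smul'] at h1
  obtain ⟨w, hw, hwv⟩ := bd_of_smul h.hg h.dd hr.2.1 (acyc h.hg h.dd _ _ hr.2.2
    (fun y hy => h.htp y (List.mem_cons_of_mem _ (List.mem_cons_of_mem _ hy))) 0 fun a => by
      have := h.top a; have := h.len; omega) h1
  obtain ⟨w', hw', rfl⟩ := exists_lift (Submodule.mkQ_surjective _ : Function.Surjective q) hw
  obtain ⟨u, hu, hfu⟩ := exists_pre (f := LinearMap.lsmul A G y1) hr.1 hq
    (hv.sub (hw'.act h.hg)) (by rw [comp_sub', ← act_map, hwv, sub_self])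
  refine ⟨u, hu, w', hw', ?_⟩
  have : y1 • u = v - act D w' := hfu
  rw [this]; abel

theorem smul_reg1 (h : IsWeaklyRegular A (y1 :: y2 :: ys)) {g : G} (hg : y1 • g = 0) : g = 0 := by
  have hr := reg_flat h G
  rw [isWeaklyRegular_cons_iff] at hr
  exact hr.1 (by simpa using hg)

theorem smul_reg2 (h : IsWeaklyRegular A (y1 :: y2 :: ys)) {g g' : G} (hg : y2 • g = y1 • g') :
    ∃ m, g = y1 • m := by
  have hr := reg_flat h G
  rw [isWeaklyRegular_cons_iff, isWeaklyRegular_cons_iff] at hr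
  let q : G →ₗ[A] QuotSMulTop y1 G := Submodule.mkQ (y1 • (⊤ : Submodule A G))
  have hq : Function.Exact (LinearMap.lsmul A G y1) q := exact_smul y1
  have h1 : y2 • q g = y2 • 0 := by
    rw [← map_smul, hg, smul_zero]; exact hq.apply_apply_eq_zero g'
  obtain ⟨m, hm⟩ := (hq g).1 (hr.2.1 h1)
  exact ⟨m, hm.symm⟩

variable {Z4 G3 Z3 G2 Z2 : Type} [AddCommGroup Z4] [AddCommGroup G3] [AddCommGroup Z3]
  [AddCommGroup G2] [AddCommGroup Z2] [Module A Z4] [Module A G3] [Module A Z3] [Module A G2]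
  [Module A Z2] [Module.Flat A G3] [Module.Flat A G2] {f3 : Z4 →ₗ[A] G3} {g3 : G3 →ₗ[A] Z3}
  {f2 : Z3 →ₗ[A] G2} {g2 : G2 →ₗ[A] Z2}

theorem syz_reg1 (h : IsWeaklyRegular A (y1 :: y2 :: ys)) (s3 : Ses f3 g3) {z : Z4}
    (hz : y1 • z = 0) : z = 0 :=
  s3.inj (by rw [map_zero]; exact smul_reg1 h (by rw [← map_smul, hz, map_zero]))

theorem syz_reg2 (h : IsWeaklyRegular A (y1 :: y2 :: ys)) (s3 : Ses f3 g3) (s2 : Ses f2 g2)
    {z z' : Z4} (hz : y2 • z = y1 • z') : ∃ m, z = y1 • m := by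
  obtain ⟨m, hm⟩ := smul_reg2 h (g := f3 z) (g' := f3 z') (by rw [← map_smul, hz, map_smul])
  have h1 : g3 m = 0 := syz_reg1 h s2 (by
    rw [← map_smul, ← hm]; exact s3.ex.apply_apply_eq_zero z)
  obtain ⟨k, rfl⟩ := (s3.ex m).1 h1
  exact ⟨k, s3.inj (by rw [hm, map_smul])⟩

theorem Deep.r1_syz (h : Deep deg D y1 y2 ys) (s3 : Ses f3 g3) (e3 : Ex deg D 1 Z3)
    {v : J → Z4} (hv : Bd deg D 0 (y1 • v)) : Bd deg D 0 v :=
  chase1 h.hg h.dd s3.inj s3.ex s3.surj e3 (h.r1 (by rw [← comp_smul']; exact hv.map f3))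

theorem Deep.r2_syz (h : Deep deg D y1 y2 ys) (s3 : Ses f3 g3) (s2 : Ses f2 g2)
    (e3 : Ex deg D 1 Z3) (e2 : Ex deg D 1 Z2) {v v' : J → Z4} (hv : Dg deg 0 v)
    (hb : Bd deg D 0 (y2 • v - y1 • v')) :
    ∃ u : J → Z4, Dg deg 0 u ∧ Bd deg D 0 (v - y1 • u) := by
  have h1 := hb.map f3
  rw [comp_sub', comp_smul', comp_smul'] at h1
  obtain ⟨u, hu, h2⟩ := h.r2 (hv.map f3) h1
  have h3 := (h2.map g3).smul (-1 : A)
  rw [comp_sub', comp_comp_zero s3.ex, comp_smul', zero_sub, smul_neg, neg_one_smul,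
    neg_neg] at h3
  obtain ⟨w, hw, hwu⟩ := h.r1_syz s2 e2 h3
  obtain ⟨w', hw', rfl⟩ := exists_lift s3.surj hw
  obtain ⟨k, hk, hfk⟩ := exists_pre s3.inj s3.ex (hu.sub (hw'.act h.hg))
    (by rw [comp_sub', ← act_map, hwu, sub_self])
  refine ⟨k, hk, chase1 h.hg h.dd s3.inj s3.ex s3.surj e3 ?_⟩
  rw [comp_sub', comp_smul', hfk]
  have h4 := h2.add (Bd.smul ⟨w', hw', rfl⟩ y1)
  have h5 : ⇑f3 ∘ v - y1 • (u - act D w') = ⇑f3 ∘ v - y1 • u + y1 • act D w' := by
    rw [smul_sub]; abel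
  rwa [h5]

theorem Deep.ex_of_r2 (h : Deep deg D y1 y2 ys) (s3 : Ses f3 g3) (s2 : Ses f2 g2)
    (e3 : Ex deg D 1 Z3)
    (r2 : ∀ v v' : J → Z4, Dg deg 0 v → Dg deg 0 v' → Bd deg D 0 (y2 • v - y1 • v') →
      ∃ u : J → Z4, Dg deg 0 u ∧ Bd deg D 0 (v - y1 • u)) : Ex deg D 1 Z2 := by
  intro v hv hc
  obtain ⟨g, hg, rfl⟩ := exists_lift s2.surj hv
  obtain ⟨w, hw, hfw⟩ := exists_pre s2.inj s2.ex (hg.act h.hg) (by rw [← act_map, hc])
  refine chase2 s2.ex (h.ex G2 0) hg hfw ?_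
  obtain ⟨p, hp, rfl⟩ := exists_lift s3.surj hw
  have key : ∀ y ∈ y1 :: y2 :: ys, ∃ k : J → Z4, Dg deg 0 k ∧ Bd deg D 0 (y • p - f3 ∘ k) := by
    intro y hy
    obtain ⟨v', hv', h1⟩ := (h.htp y hy).bd h.hg hv hc
    obtain ⟨g', hg', rfl⟩ := exists_lift s2.surj hv'
    obtain ⟨u, hu, hfu⟩ := exists_pre s2.inj s2.ex ((hg.smul y).sub (hg'.act h.hg))
      (by rw [comp_sub', ← act_map, h1, comp_smul', sub_self])
    have h2 : act D u = y • (g3 ∘ p) := comp_inj s2.inj (by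
      rw [← act_map, hfu, act_sub, act_act h.dd, sub_zero, act_smul, comp_smul', hfw])
    obtain ⟨u', hu', rfl⟩ := exists_lift s3.surj hu
    obtain ⟨k, hk, hfk⟩ := exists_pre s3.inj s3.ex ((hp.smul y).sub (hu'.act h.hg))
      (by rw [comp_sub', ← act_map, h2, comp_smul', sub_self])
    refine ⟨k, hk, u', hu', ?_⟩
    rw [hfk]; abel
  obtain ⟨k1, hk1, h1⟩ := key y1 List.mem_cons_self
  obtain ⟨k2, hk2, h2⟩ := key y2 (List.mem_cons_of_mem _ List.mem_cons_self)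
  obtain ⟨k, hk, h3⟩ := r2 k1 k2 hk1 hk2 (chase1 h.hg h.dd s3.inj s3.ex s3.surj e3 (by
    have h4 := (h2.smul y1).sub (h1.smul y2)
    have h5 : ⇑f3 ∘ (y2 • k1 - y1 • k2) =
        y1 • (y2 • p - ⇑f3 ∘ k2) - y2 • (y1 • p - ⇑f3 ∘ k1) := by
      rw [comp_sub', comp_smul', comp_smul', smul_sub, smul_sub, smul_comm y1 y2]; abel
    rwa [h5]))
  have h6 := h1.add (h3.map f3)
  have h7 : y1 • p - ⇑f3 ∘ k1 + ⇑f3 ∘ (k1 - y1 • k) = y1 • (p - f3 ∘ k) := by
    rw [comp_sub', comp_smul', smul_sub]; abel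
  rw [h7] at h6
  have h8 := (h.r1 h6).map g3
  rwa [comp_sub', comp_comp_zero s3.ex, sub_zero] at h8

end deep

theorem exists_syz (Y : Type) [AddCommGroup Y] [Module A Y] [Module.Finite A Y] :
    ∃ (n : ℕ) (g : (Fin n → A) →ₗ[A] Y), Ses (LinearMap.ker g).subtype g := by
  obtain ⟨n, g, hg⟩ := Module.Finite.exists_fin' A Y
  exact ⟨n, g, (LinearMap.ker g).injective_subtype, g.exact_subtype_ker_map, hg⟩

theorem isLocalRing_tsze [IsLocalRing A] (Y : Type) [AddCommGroup Y] [Module A Y]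
    [Module Aᵐᵒᵖ Y] [IsCentralScalar A Y] : IsLocalRing (TrivSqZeroExt A Y) := by
  refine IsLocalRing.of_isUnit_or_isUnit_one_sub_self fun x => ?_
  simp only [TrivSqZeroExt.isUnit_iff_isUnit_fst, TrivSqZeroExt.fst_sub, TrivSqZeroExt.fst_one]
  exact IsLocalRing.isUnit_or_isUnit_one_sub_self x.fst

theorem main_aux {deg : J → ℕ} {D : Matrix J J A} (hdeg : ∀ a, deg a ≤ 3) {y1 y2 : A}
    {ys : List A} (dF : Deep deg D y1 y2 ys) (dX : Deep (deg2 deg) (sq D) y1 y2 ys)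
    {R G3 Z3 G2 Z2 : Type} [CommRing R] [Algebra A R] [AddCommGroup G3] [AddCommGroup Z3]
    [AddCommGroup G2] [AddCommGroup Z2] [Module A G3] [Module A Z3] [Module A G2]
    [Module A Z2] [Module.Flat A G3] [Module.Flat A G2] {f3 : R →ₗ[A] G3} {g3 : G3 →ₗ[A] Z3}
    {f2 : Z3 →ₗ[A] G2} {g2 : G2 →ₗ[A] Z2} (s3 : Ses f3 g3) (s2 : Ses f2 g2)
    (eF : ∀ n, Ex deg D (n + 1) Z3) (e3 : Ex (deg2 deg) (sq D) 1 Z3)
    (e2 : Ex (deg2 deg) (sq D) 1 Z2) (hn : ¬ Ex deg D 1 Z2) :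
    HasProjectiveDimensionLE (ModuleCat.of R (Cok deg (D.map (algebraMap A R)))) 3 ∧
      Module.IsReflexive R (Cok deg (D.map (algebraMap A R)) ⊗[R]
        Cok deg (D.map (algebraMap A R))) ∧
      ¬ Module.IsReflexive R (Cok deg (D.map (algebraMap A R))) := by
  have hD := dF.hg
  have hDD := dF.dd
  have hreg := dF.reg
  have r1 : ∀ r : R, algebraMap A R y1 * r = 0 → r = 0 := fun r hr =>
    syz_reg1 hreg s3 (by rwa [Algebra.smul_def])
  refine ⟨?_, ?_, ?_⟩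
  · refine pd_cok (hD.map _) (by rw [← Matrix.map_mul, hDD]; ext a b; simp) (fun i => ?_) 3 hdeg
    rw [ex_algebraMap]
    exact ex_sub hD hDD s3.inj s3.ex s3.surj (eF (i + 1)) (dF.ex _ _)
  · obtain ⟨e⟩ := nonempty_tensor_equiv (hD.map (algebraMap A R))
    have : Module.IsReflexive R (Cok (deg2 deg) (sq (D.map (algebraMap A R)))) := by
      rw [sq_map]
      refine cok_refl (hD.sq.map _) ((dX.htp y1 List.mem_cons_self).map _)
        ((dX.htp y2 (List.mem_cons_of_mem _ List.mem_cons_self)).map _) r1 ?_ ?_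
      · intro v _ hv
        rw [algebraMap_smul, bd_algebraMap] at hv
        rw [bd_algebraMap]
        exact dX.r1_syz s3 e3 hv
      · intro v v' hv _ hb
        rw [algebraMap_smul, algebraMap_smul, bd_algebraMap] at hb
        obtain ⟨u, hu, h⟩ := dX.r2_syz s3 s2 e3 e2 hv hb
        exact ⟨u, hu, by rwa [algebraMap_smul, bd_algebraMap]⟩
    exact Module.equiv e
  · intro hr
    apply hn
    refine dF.ex_of_r2 s3 s2 (eF 0) fun v v' hv hv' hb => ?_
    obtain ⟨u, hu, h⟩ := r2_of_cok_refl hr r1 (y2 := algebraMap A R y2) (fun r r' hrr => by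
      obtain ⟨m, hm⟩ := syz_reg2 hreg s3 s2 (z := r) (z' := r')
        (by rwa [Algebra.smul_def, Algebra.smul_def])
      exact ⟨m, by rwa [Algebra.smul_def] at hm⟩) v v' hv hv'
      (by rwa [algebraMap_smul, algebraMap_smul, bd_algebraMap])
    exact ⟨u, hu, by rwa [algebraMap_smul, bd_algebraMap] at h⟩

theorem main [IsNoetherianRing A] [IsLocalRing A] (h2 : (2 : A) = 0) {deg : J → ℕ}
    {D : Matrix J J A} (hD : Hg deg D) (hDD : D * D = 0) (hdeg : ∀ a, deg a ≤ 3) {y1 y2 : A}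
    {ys : List A} (hlen : ys.length = 6) (hreg : IsWeaklyRegular A (y1 :: y2 :: ys))
    (hh : ∀ y ∈ y1 :: y2 :: ys, ∃ x, y = x * x ∧ Htp deg D x)
    (E : Type) [AddCommGroup E] [Module A E] [Module.Finite A E]
    (h3 : Ex (deg2 deg) (sq D) 3 E) (h4 : Ex (deg2 deg) (sq D) 4 E) (hn : ¬ Ex deg D 3 E) :
    ∃ (R : Type) (_ : CommRing R) (_ : IsNoetherianRing R) (_ : IsLocalRing R)
      (M : Type) (_ : AddCommGroup M) (_ : Module R M), Module.Finite R M ∧
      HasProjectiveDimensionLE (ModuleCat.of R M) 3 ∧ Module.IsReflexive R (M ⊗[R] M) ∧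
      ¬ Module.IsReflexive R M := by
  have dF : Deep deg D y1 y2 ys := ⟨hD, hDD, fun a => by have := hdeg a; omega, hlen, hreg,
    fun y hy => by obtain ⟨x, rfl, hx⟩ := hh y hy; exact hx.mul x⟩
  have dX : Deep (deg2 deg) (sq D) y1 y2 ys := ⟨hD.sq, sq_sq h2 hDD, fun a => by
    have := hdeg a.1; have := hdeg a.2; simp only [deg2]; omega, hlen, hreg,
    fun y hy => by obtain ⟨x, rfl, hx⟩ := hh y hy; exact hx.sq h2⟩
  obtain ⟨n0, g0, s0⟩ := exists_syz (A := A) E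
  obtain ⟨n1, g1, s1⟩ := exists_syz (A := A) (LinearMap.ker g0)
  obtain ⟨n2, g2, s2⟩ := exists_syz (A := A) (LinearMap.ker g1)
  obtain ⟨n3, g3, s3⟩ := exists_syz (A := A) (LinearMap.ker g2)
  let R := TrivSqZeroExt A (LinearMap.ker g3)
  let f : R →ₗ[A] A × (Fin n3 → A) := LinearMap.prod (TrivSqZeroExt.fstHom A A _).toLinearMap
    ((LinearMap.ker g3).subtype.comp (TrivSqZeroExt.sndHom A _))
  have s3' : Ses f (g3.comp (LinearMap.snd A A (Fin n3 → A))) := by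
    refine ⟨?_, ?_, ?_⟩
    · intro x y hxy
      have h1 := congrArg Prod.fst hxy
      have h2 := congrArg Prod.snd hxy
      exact TrivSqZeroExt.ext h1 (Subtype.ext h2)
    · rintro ⟨a, v⟩
      constructor
      · intro hv
        exact ⟨(a, ⟨v, hv⟩), rfl⟩
      · rintro ⟨x, hx⟩
        rw [← hx]; exact x.snd.2
    · intro z
      obtain ⟨v, hv⟩ := s3.surj z
      exact ⟨(0, v), hv⟩
  have hfin : Module.Finite A R := Module.Finite.of_injective f s3'.inj
  have step : ∀ {K : Type} [Fintype K] [DecidableEq K] {dg : K → ℕ} {D' : Matrix K K A},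
      Deep dg D' y1 y2 ys → (∀ n, Ex dg D' (n + 3) E → Ex dg D' (n + 1) (LinearMap.ker g1)) ∧
        (∀ n, Ex dg D' (n + 4) E → Ex dg D' (n + 1) (LinearMap.ker g2)) := by
    intro K _ _ dg D' d
    have a1 : ∀ n, Ex dg D' (n + 3) E → Ex dg D' (n + 1) (LinearMap.ker g1) := fun n hn =>
      ex_sub d.hg d.dd s1.inj s1.ex s1.surj
        (ex_sub d.hg d.dd s0.inj s0.ex s0.surj hn (d.ex _ _)) (d.ex _ _)
    exact ⟨a1, fun n hn => ex_sub d.hg d.dd s2.inj s2.ex s2.surj (a1 (n + 1) hn) (d.ex _ _)⟩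
  have eF : ∀ n, Ex deg D (n + 1) (LinearMap.ker g2) := fun n =>
    (step dF).2 n (ex_top fun a => by have := hdeg a; omega)
  have hst : IsScalarTower A R R := IsScalarTower.right (R := A) (A := R)
  refine ⟨R, inferInstance, IsNoetherianRing.of_finite A R, isLocalRing_tsze _,
    Cok deg (D.map (algebraMap A R)), inferInstance, inferInstance, inferInstance,
    main_aux hdeg dF dX s3' s2 eF ((step dX).2 0 h4) ((step dX).1 0 h3) fun e2 => hn ?_⟩
  exact ex_quot hD s0.inj s0.ex s0.surj hDD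
    (ex_quot hD s1.inj s1.ex s1.surj hDD e2 (dF.ex _ _)) (dF.ex _ _)

end Pool.Agent.Lib.MP_fa2e84_al
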