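import Pool.Agent.Lib.MP_fa2e84_al.Real
import Pool.Agent.Lib.MP_fa2e84_al.Main

/-! From three matrices with dual functionals to the example. -/

set_option linter.unusedSectionVars false
set_option synthInstance.maxSize 2048

namespace Pool.Agent.Lib.MP_fa2e84_al

open Sum TensorProduct CategoryTheory RingTheory.Sequence

section block

variable {A I3 I2 I1 I0 : Type} [CommRing A] [Fintype I3] [Fintype I2] [Fintype I1] [Fintype I0]
  [DecidableEq I3] [DecidableEq I2] [DecidableEq I1] [DecidableEq I0]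

/-- Homotopy for multiplication by `x`, written in blocks. -/
def BH (p : Matrix I2 I3 A) (q : Matrix I1 I2 A) (r : Matrix I0 I1 A) (x : A) : Prop :=
  ∃ (s3 : Matrix I3 I2 A) (s2 : Matrix I2 I1 A) (s1 : Matrix I1 I0 A),
    s3 * p = x • (1 : Matrix I3 I3 A) ∧ p * s3 + s2 * q = x • (1 : Matrix I2 I2 A) ∧
      q * s2 + s1 * r = x • (1 : Matrix I1 I1 A)

theorem tot_tot {p : Matrix I2 I3 A} {q : Matrix I1 I2 A} {r : Matrix I0 I1 A} (hqp : q * p = 0)
    (hrq : r * q = 0) : tot p q r * tot p q r = 0 := by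
  have h1 := fun i l => congrFun (congrFun hqp i) l
  have h2 := fun i l => congrFun (congrFun hrq i) l
  simp only [Matrix.mul_apply, Matrix.zero_apply] at h1 h2
  ext (a | a | a | a) (b | b | b | b) <;> simp [Matrix.mul_apply, tot, h1, h2]

theorem BH.htp {p : Matrix I2 I3 A} {q : Matrix I1 I2 A} {r : Matrix I0 I1 A} {x : A}
    (hrq : r * q = 0) (h : BH p q r x) : Htp degI (tot p q r) x := by
  obtain ⟨s3, s2, s1, h3, h2, h1⟩ := h
  have h0 : (r * s1 - x • (1 : Matrix I0 I0 A)) * r = 0 := by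
    have : s1 * r = x • (1 : Matrix I1 I1 A) - q * s2 := by rw [← h1]; abel
    rw [Matrix.sub_mul, Matrix.mul_assoc, this, Matrix.mul_sub, ← Matrix.mul_assoc, hrq]
    simp
  refine ⟨Matrix.of fun a b => match a, b with
      | inl l, inr (inl j) => s3 l j
      | inr (inl j), inr (inr (inl i)) => s2 j i
      | inr (inr (inl i)), inr (inr (inr y)) => s1 i y
      | _, _ => 0,
    Matrix.of fun a b => match a, b with
      | inr (inr (inr y)), inr (inr (inr y')) => (r * s1 - x • (1 : Matrix I0 I0 A)) y y'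
      | _, _ => 0, ?_, ?_, ?_, ?_⟩
  · have k3 := fun i l => congrFun (congrFun h3 i) l
    have k2 := fun i l => congrFun (congrFun h2 i) l
    have k1 := fun i l => congrFun (congrFun h1 i) l
    simp only [Matrix.mul_apply, Matrix.add_apply, Matrix.smul_apply, Matrix.one_apply]
      at k1 k2 k3
    ext (a | a | a | a) (b | b | b | b) <;>
      simp [Matrix.mul_apply, tot, k1, k2, k3, Matrix.one_apply]
  · generalize r * s1 - x • (1 : Matrix I0 I0 A) = e at h0
    have k0 := fun i l => congrFun (congrFun h0 i) l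
    simp only [Matrix.mul_apply, Matrix.zero_apply] at k0
    ext (a | a | a | a) (b | b | b | b) <;> simp [Matrix.mul_apply, tot, k0]
  · ext (a | a | a | a) (b | b | b | b) <;> simp [Matrix.mul_apply, tot]
  · rintro (a | a | a | a) (b | b | b | b) h <;> first | rfl | exact absurd rfl h

theorem degI_le (a : I3 ⊕ I2 ⊕ I1 ⊕ I0) : degI a ≤ 3 := by
  rcases a with a | a | a | a <;> simp [degI]

end block

theorem exists_theta {Jt I1 : Type} [Fintype Jt] [Fintype I1] {M : ℕ}
    (hc : 2 * Fintype.card I1 < Fintype.card Jt ^ 2)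
    (hM : 4 * Fintype.card I1 ^ 2 * Fintype.card Jt ^ 2 ≤ M) :
    ∃ θ : Bool × I1 × UU (U1T I1 Jt M) I1 Jt → Jt × Jt × U1T I1 Jt M, Function.Injective θ := by
  have h : Fintype.card (Bool × I1 × UU (U1T I1 Jt M) I1 Jt) ≤
      Fintype.card (Jt × Jt × U1T I1 Jt M) := by
    have hu : M ≤ Fintype.card (U1T I1 Jt M) := by
      simp only [Fintype.card_sum, Fintype.card_fin]; omega
    simp only [Fintype.card_prod, Fintype.card_bool, Fintype.card_sum (α := U1T I1 Jt M)]
    generalize Fintype.card (U1T I1 Jt M) = u at *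
    generalize Fintype.card I1 = b at *
    generalize Fintype.card Jt = n at *
    have h1 : (2 * b + 1) * u ≤ n ^ 2 * u := Nat.mul_le_mul_right u hc
    nlinarith
  obtain ⟨e⟩ := Function.Embedding.nonempty_of_card_le h
  exact ⟨e, e.injective⟩

/-- The statement that the example exists. -/
def Goal : Prop :=
  ∃ (R : Type) (_ : CommRing R) (_ : IsNoetherianRing R) (_ : IsLocalRing R)
    (M : Type) (_ : AddCommGroup M) (_ : Module R M), Module.Finite R M ∧
    HasProjectiveDimensionLE (ModuleCat.of R M) 3 ∧ Module.IsReflexive R (M ⊗[R] M) ∧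
    ¬ Module.IsReflexive R M

theorem goal_of_good {A k V : Type} [CommRing A] [IsNoetherianRing A] [IsLocalRing A] [Field k]
    [AddCommGroup V] [Module k V] (h2 : (2 : A) = 0) {Jt I1 I0 U1 : Type} [Fintype Jt]
    [Fintype I1] [Fintype I0] [Fintype U1] [DecidableEq Jt] [DecidableEq I1] [DecidableEq I0]
    [DecidableEq U1] {T : EData A k V (UU U1 I1 Jt)} {p : Matrix (Jt × Bool) Bool A}
    {q : Matrix I1 (Jt × Bool) A} {r : Matrix I0 I1 A} {emb : (Jt × Bool) × U1 → I0}
    {θ : Bool × I1 × UU U1 I1 Jt → Jt × Jt × U1} (g : Good T p q r emb θ)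
    (hqp : q * p = 0) (hrq : r * q = 0) (hp : ∀ j l, T.res (p j l) = 0)
    (hq : ∀ i j, T.res (q i j) = 0) (hr : ∀ x i, T.res (r x i) = 0)
    (x : Fin 8 → A) (hx : ∀ ρ, BH p q r (x ρ))
    (hreg : IsWeaklyRegular A (List.ofFn fun ρ => x ρ * x ρ)) : Goal := by
  have hDD := tot_tot hqp hrq
  have hres : ∀ a b, T.res (tot p q r a b) = 0 := by
    rintro (a | a | a | a) (b | b | b | b) <;> simp [tot, hp, hq, hr]
  have hres2 : ∀ a b, T.res (sq (tot p q r) a b) = 0 := by
    intro a b
    rw [sq_apply, map_add]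
    split_ifs <;> simp [hres]
  have hh : ∀ y ∈ List.ofFn fun ρ => x ρ * x ρ, ∃ z, y = z * z ∧ Htp degI (tot p q r) z := by
    intro y hy
    obtain ⟨ρ, rfl⟩ := List.mem_ofFn.1 hy
    exact ⟨x ρ, rfl, (hx ρ).htp hrq⟩
  have hX : ∀ n, Ex (deg2 degI) (sq (tot p q r)) (n + 1) A := fun n =>
    acyc (hg_tot p q r).sq (sq_sq h2 hDD) _ A hreg (fun y hy => by
      obtain ⟨z, rfl, hz⟩ := hh y hy; exact hz.sq h2) n fun a => by
      have := degI_le a.1; have := degI_le a.2
      simp only [deg2, List.length_ofFn]; omega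
  have := EMod.finite (T := T)
  rw [List.ofFn_succ, List.ofFn_succ] at hreg hh
  exact main h2 (hg_tot p q r) hDD degI_le (List.length_ofFn) hreg hh (EMod T)
    (g.ex3 (sq_sq h2 hDD) hres2 (hX 2)) (g.ex4 (sq_sq h2 hDD) hres2 (hX 3))
    (not_ex_emod T hres degI_le (a0 := inl true) rfl)

/-- Matrices with these index sets and dual functionals give the example. -/
def Works (k : Type) [Field k] (I3 I2 I1 I0 : Type) [Fintype I3] [Fintype I2] [Fintype I1]
    [Fintype I0] [DecidableEq I3] [DecidableEq I2] [DecidableEq I1] [DecidableEq I0] : Prop :=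
  ∀ (A V : Type) [CommRing A] [IsNoetherianRing A] [IsLocalRing A] [AddCommGroup V] [Module k V]
    (_ : (2 : A) = 0) (res : A →+* k) (_ : Function.Surjective res) (der : A →+ V)
    (_ : ∀ a b, der (a * b) = res a • der b + res b • der a)
    (p : Matrix I2 I3 A) (q : Matrix I1 I2 A) (r : Matrix I0 I1 A)
    (_ : q * p = 0) (_ : r * q = 0) (_ : ∀ j l, res (p j l) = 0) (_ : ∀ i j, res (q i j) = 0)
    (_ : ∀ x i, res (r x i) = 0)
    (_ : Duals k (fun j l => der (p j l)) (fun i j => der (q i j)) (fun x i => der (r x i)))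
    (x : Fin 8 → A) (_ : ∀ ρ, BH p q r (x ρ))
    (_ : IsWeaklyRegular A (List.ofFn fun ρ => x ρ * x ρ)), Goal

theorem assemble (k : Type) [Field k] [CharP k 2]
    {Jt I1 : Type} [Fintype Jt] [Fintype I1] [DecidableEq Jt] [DecidableEq I1] {M : ℕ}
    (j0 : Jt × Bool) (hc : 2 * Fintype.card I1 < Fintype.card Jt ^ 2)
    (hM : 4 * Fintype.card I1 ^ 2 * Fintype.card Jt ^ 2 ≤ M) :
    Works k Bool (Jt × Bool) I1 (I0T I1 M j0) := by
  intro A V _ _ _ _ _ h2 res hs der leib p q r hqp hrq hp hq hr d x hx hreg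
  obtain ⟨θ, hθ⟩ := exists_theta hc hM
  let T : EData A k V (UU (U1T I1 Jt M) I1 Jt) :=
    ⟨res, hs, der, leib, fun μ => phiB d μ + phiP d θ μ + phiX d μ⟩
  exact goal_of_good h2 (good_of_duals T p q r d θ hθ fun _ => rfl) hqp hrq hp hq hr x hx hreg

theorem exists_works (k : Type) [Field k] [CharP k 2]
    {Jt I1 : Type} [Fintype Jt] [Fintype I1] [DecidableEq Jt] [DecidableEq I1]
    (hc : 2 * Fintype.card I1 < Fintype.card Jt ^ 2) (n : ℕ) :
    ∃ (I0 : Type) (_ : Fintype I0) (_ : DecidableEq I0), n ≤ Fintype.card I0 ∧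
      Works k Bool (Jt × Bool) I1 I0 := by
  have hJ : 0 < Fintype.card Jt := by
    by_contra h
    have : Fintype.card Jt = 0 := by omega
    rw [this] at hc; simp at hc
  obtain ⟨j⟩ := Fintype.card_pos_iff.1 hJ
  refine ⟨I0T I1 (4 * Fintype.card I1 ^ 2 * Fintype.card Jt ^ 2 + n) (j, true), inferInstance,
    inferInstance, ?_, assemble k _ hc (Nat.le_add_right _ _)⟩
  have := Fintype.card_le_of_injective
    (fun i : Fin (4 * Fintype.card I1 ^ 2 * Fintype.card Jt ^ 2 + n) =>
      (inl ((j, true), inr (inr i)) :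
        I0T I1 (4 * Fintype.card I1 ^ 2 * Fintype.card Jt ^ 2 + n) (j, true)))
    (fun a b h => by simpa using h)
  rw [Fintype.card_fin] at this
  exact le_trans (Nat.le_add_left _ _) this

end Pool.Agent.Lib.MP_fa2e84_al
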