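import Mathlib

/-! Complexes given by one matrix on a graded index type, with coefficients in a module. -/

namespace Pool.Agent.Lib.MP_fa2e84_al

open RingTheory.Sequence Pointwise

variable {A : Type} [CommRing A] {J : Type} [Fintype J]

/-- The matrix `D` acting on vectors with entries in a module. -/
def act (D : Matrix J J A) {Y : Type} [AddCommGroup Y] [Module A Y] (v : J → Y) : J → Y :=
  fun a => ∑ b, D a b • v b

/-- The vector `v` is concentrated in degree `n`. -/
def Dg (deg : J → ℕ) (n : ℕ) {Y : Type} [Zero Y] (v : J → Y) : Prop :=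
  ∀ a, deg a ≠ n → v a = 0

/-- The degree `n` part of a vector. -/
def pj (deg : J → ℕ) (n : ℕ) {Y : Type} [Zero Y] (v : J → Y) : J → Y :=
  fun a => if deg a = n then v a else 0

/-- `D` lowers the degree by one. -/
def Hg (deg : J → ℕ) (D : Matrix J J A) : Prop :=
  ∀ a b, D a b ≠ 0 → deg b = deg a + 1

/-- `v` is a boundary of a vector of degree `n + 1`. -/
def Bd (deg : J → ℕ) (D : Matrix J J A) (n : ℕ) {Y : Type} [AddCommGroup Y] [Module A Y]
    (v : J → Y) : Prop :=
  ∃ w : J → Y, Dg deg (n + 1) w ∧ act D w = v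

/-- Exactness in degree `n` with coefficients in `Y`. -/
def Ex (deg : J → ℕ) (D : Matrix J J A) (n : ℕ) (Y : Type) [AddCommGroup Y] [Module A Y] :
    Prop :=
  ∀ v : J → Y, Dg deg n v → act D v = 0 → Bd deg D n v

section basic

variable {deg : J → ℕ} {D : Matrix J J A} {Y Y' : Type} [AddCommGroup Y] [Module A Y]
  [AddCommGroup Y'] [Module A Y']

theorem act_add (D : Matrix J J A) (v w : J → Y) : act D (v + w) = act D v + act D w := by
  funext a; simp [act, Finset.sum_add_distrib]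

theorem act_sub (D : Matrix J J A) (v w : J → Y) : act D (v - w) = act D v - act D w := by
  funext a; simp [act, smul_sub, Finset.sum_sub_distrib]

theorem act_smul (D : Matrix J J A) (c : A) (v : J → Y) : act D (c • v) = c • act D v := by
  funext a; simp [act, Finset.smul_sum, smul_comm c]

theorem act_zero (D : Matrix J J A) : act D (0 : J → Y) = 0 := by
  funext a; simp [act]

theorem act_map (D : Matrix J J A) (f : Y →ₗ[A] Y') (v : J → Y) :
    act D (f ∘ v) = f ∘ act D v := by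
  funext a; simp [act]

theorem act_mul (D D' : Matrix J J A) (v : J → Y) : act (D * D') v = act D (act D' v) := by
  funext a
  simp only [act, Matrix.mul_apply, Finset.sum_smul, Finset.smul_sum, mul_smul]
  exact Finset.sum_comm

theorem act_madd (D D' : Matrix J J A) (v : J → Y) : act (D + D') v = act D v + act D' v := by
  funext a; simp [act, add_smul, Finset.sum_add_distrib]

theorem act_mzero (v : J → Y) : act (0 : Matrix J J A) v = 0 := by
  funext a; simp [act]

theorem act_scalar [DecidableEq J] (c : A) (v : J → Y) :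
    act (c • (1 : Matrix J J A)) v = c • v := by
  funext a; simp [act, Matrix.one_apply]

theorem act_act (hD : D * D = 0) (v : J → Y) : act D (act D v) = 0 := by
  rw [← act_mul, hD, act_mzero]

omit [Fintype J] in
theorem dg_pj {Y : Type} [Zero Y] (n : ℕ) (v : J → Y) : Dg deg n (pj deg n v) := by
  intro a ha; simp [pj, ha]

omit [Fintype J] in
theorem pj_eq {Y : Type} [Zero Y] {n : ℕ} {v : J → Y} (h : Dg deg n v) : pj deg n v = v := by
  funext a; by_cases ha : deg a = n
  · simp [pj, ha]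
  · simp [pj, ha, h a ha]

omit [Fintype J] in
theorem Dg.add {n : ℕ} {v w : J → Y} (hv : Dg deg n v) (hw : Dg deg n w) : Dg deg n (v + w) := by
  intro a ha; simp [hv a ha, hw a ha]

omit [Fintype J] in
theorem Dg.sub {n : ℕ} {v w : J → Y} (hv : Dg deg n v) (hw : Dg deg n w) : Dg deg n (v - w) := by
  intro a ha; simp [hv a ha, hw a ha]

omit [Fintype J] in
theorem Dg.smul {n : ℕ} {v : J → Y} (hv : Dg deg n v) (c : A) : Dg deg n (c • v) := by
  intro a ha; simp [hv a ha]

omit [Fintype J] in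
theorem Dg.map {n : ℕ} {v : J → Y} (hv : Dg deg n v) (f : Y →ₗ[A] Y') : Dg deg n (f ∘ v) := by
  intro a ha; simp [hv a ha]

omit [Fintype J] in
theorem dg_zero {Y : Type} [Zero Y] (n : ℕ) : Dg deg n (0 : J → Y) := fun _ _ => rfl

theorem act_pj (hD : Hg deg D) (n : ℕ) (w : J → Y) :
    act D (pj deg (n + 1) w) = pj deg n (act D w) := by
  funext a
  by_cases ha : deg a = n
  · simp only [act, pj, ha, if_true]
    refine Finset.sum_congr rfl fun b _ => ?_
    by_cases hb : D a b = 0
    · simp [hb]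
    · rw [if_pos (by rw [hD a b hb, ha])]
  · simp only [act, pj, ha, if_false]
    refine Finset.sum_eq_zero fun b _ => ?_
    by_cases hb : D a b = 0
    · simp [hb]
    · rw [if_neg (by rw [hD a b hb]; omega), smul_zero]

theorem act_dg_zero (hD : Hg deg D) {w : J → Y} (hw : Dg deg 0 w) : act D w = 0 := by
  funext a
  refine Finset.sum_eq_zero fun b _ => ?_
  by_cases hb : D a b = 0
  · simp [hb]
  · rw [hw b (by rw [hD a b hb]; omega), smul_zero]

theorem Dg.act (hD : Hg deg D) {n : ℕ} {w : J → Y} (hw : Dg deg (n + 1) w) :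
    Dg deg n (act D w) := by
  rw [← pj_eq hw, act_pj hD]; exact dg_pj n _

theorem bd_of_eq (hD : Hg deg D) {n : ℕ} {v w : J → Y} (hv : Dg deg n v) (h : act D w = v) :
    Bd deg D n v :=
  ⟨pj deg (n + 1) w, dg_pj _ _, by rw [act_pj hD, h, pj_eq hv]⟩

theorem Bd.dg (hD : Hg deg D) {n : ℕ} {v : J → Y} (h : Bd deg D n v) : Dg deg n v := by
  obtain ⟨w, hw, rfl⟩ := h; exact hw.act hD

theorem Bd.add {n : ℕ} {v w : J → Y} (hv : Bd deg D n v) (hw : Bd deg D n w) :
    Bd deg D n (v + w) := by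
  obtain ⟨a, ha, rfl⟩ := hv; obtain ⟨b, hb, rfl⟩ := hw
  exact ⟨a + b, ha.add hb, act_add _ _ _⟩

theorem Bd.sub {n : ℕ} {v w : J → Y} (hv : Bd deg D n v) (hw : Bd deg D n w) :
    Bd deg D n (v - w) := by
  obtain ⟨a, ha, rfl⟩ := hv; obtain ⟨b, hb, rfl⟩ := hw
  exact ⟨a - b, ha.sub hb, act_sub _ _ _⟩

theorem Bd.smul {n : ℕ} {v : J → Y} (hv : Bd deg D n v) (c : A) : Bd deg D n (c • v) := by
  obtain ⟨a, ha, rfl⟩ := hv
  exact ⟨c • a, ha.smul c, act_smul _ _ _⟩

theorem Bd.map {n : ℕ} {v : J → Y} (hv : Bd deg D n v) (f : Y →ₗ[A] Y') :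
    Bd deg D n (f ∘ v) := by
  obtain ⟨a, ha, rfl⟩ := hv
  exact ⟨f ∘ a, ha.map f, act_map _ _ _⟩

theorem bd_zero (n : ℕ) : Bd deg D n (0 : J → Y) := ⟨0, dg_zero _, act_zero _⟩

omit [Fintype J] in
theorem exists_lift {g : Y →ₗ[A] Y'} (hg : Function.Surjective g) {n : ℕ} {v : J → Y'}
    (hv : Dg deg n v) : ∃ u : J → Y, Dg deg n u ∧ g ∘ u = v := by
  choose s hs using hg
  refine ⟨pj deg n (s ∘ v), dg_pj _ _, ?_⟩
  funext a
  by_cases ha : deg a = n
  · simp [pj, ha, hs]
  · simp [pj, ha, hv a ha]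

omit [Fintype J] in
theorem exists_pre {Y'' : Type} [AddCommGroup Y''] [Module A Y''] {f : Y' →ₗ[A] Y}
    {g : Y →ₗ[A] Y''} (hf : Function.Injective f) (hfg : Function.Exact f g) {n : ℕ}
    {v : J → Y} (hv : Dg deg n v) (h : g ∘ v = 0) : ∃ u : J → Y', Dg deg n u ∧ f ∘ u = v := by
  have h1 : ∀ a, ∃ y, f y = v a := fun a => (hfg (v a)).1 (congrFun h a)
  choose u hu using h1
  refine ⟨u, fun a ha => hf ?_, funext hu⟩
  rw [hu, hv a ha, map_zero]

omit [Fintype J] in
theorem comp_inj {f : Y' →ₗ[A] Y} (hf : Function.Injective f) {u v : J → Y'}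
    (h : f ∘ u = f ∘ v) : u = v :=
  funext fun a => hf (congrFun h a)

omit [Fintype J] in
theorem comp_sub' (f : Y' →ₗ[A] Y) (u v : J → Y') : f ∘ (u - v) = f ∘ u - f ∘ v := by
  funext a; simp

omit [Fintype J] in
theorem comp_add' (f : Y' →ₗ[A] Y) (u v : J → Y') : f ∘ (u + v) = f ∘ u + f ∘ v := by
  funext a; simp

omit [Fintype J] in
theorem comp_smul' (f : Y' →ₗ[A] Y) (c : A) (u : J → Y') : f ∘ (c • u) = c • (f ∘ u) := by
  funext a; simp

omit [Fintype J] in
theorem comp_comp_zero {Y'' : Type} [AddCommGroup Y''] [Module A Y''] {f : Y' →ₗ[A] Y}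
    {g : Y →ₗ[A] Y''} (hfg : Function.Exact f g) (u : J → Y') : g ∘ (f ∘ u) = 0 := by
  funext a; exact hfg.apply_apply_eq_zero (u a)

/-- The connecting map argument. -/
theorem chase1 (hD : Hg deg D) (hDD : D * D = 0) {Y'' : Type} [AddCommGroup Y''] [Module A Y'']
    {f : Y' →ₗ[A] Y} {g : Y →ₗ[A] Y''} (hf : Function.Injective f) (hfg : Function.Exact f g)
    (hg : Function.Surjective g) {n : ℕ} (hex : Ex deg D (n + 1) Y'') {v : J → Y'}
    (h : Bd deg D n (f ∘ v)) : Bd deg D n v := by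
  obtain ⟨w, hw, hwv⟩ := h
  obtain ⟨u'', hu'', hu⟩ := hex (g ∘ w) (hw.map g) (by
    rw [act_map, hwv]; exact comp_comp_zero hfg v)
  obtain ⟨u, hud, rfl⟩ := exists_lift hg hu''
  obtain ⟨w', hw', hfw⟩ := exists_pre hf hfg (hw.sub (hud.act hD)) (by
    rw [comp_sub', ← act_map, hu, sub_self])
  refine ⟨w', hw', comp_inj hf ?_⟩
  rw [← act_map, hfw, act_sub, act_act hDD, sub_zero, hwv]

theorem ex_sub (hD : Hg deg D) (hDD : D * D = 0) {Y'' : Type} [AddCommGroup Y''] [Module A Y'']
    {f : Y' →ₗ[A] Y} {g : Y →ₗ[A] Y''} (hf : Function.Injective f) (hfg : Function.Exact f g)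
    (hg : Function.Surjective g) {n : ℕ} (hex : Ex deg D (n + 1) Y'') (hY : Ex deg D n Y) :
    Ex deg D n Y' := fun v hv h =>
  chase1 hD hDD hf hfg hg hex (hY _ (hv.map f) (by rw [act_map, h]; funext a; simp))

/-- A cycle of the quotient whose connecting image bounds is a boundary. -/
theorem chase2 {Y'' : Type} [AddCommGroup Y''] [Module A Y'']
    {f : Y' →ₗ[A] Y} {g : Y →ₗ[A] Y''} (hfg : Function.Exact f g)
    {n : ℕ} (hY : Ex deg D (n + 1) Y) {u : J → Y} (hu : Dg deg (n + 1) u) {w : J → Y'}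
    (hw : f ∘ w = act D u) (hb : Bd deg D n w) : Bd deg D (n + 1) (g ∘ u) := by
  obtain ⟨w', hw', rfl⟩ := hb
  have h1 := (hY (u - f ∘ w') (hu.sub (hw'.map f)) (by
    rw [act_sub, act_map, hw, sub_self])).map g
  rwa [comp_sub', comp_comp_zero hfg, sub_zero] at h1

theorem ex_quot (hD : Hg deg D) {Y'' : Type} [AddCommGroup Y''] [Module A Y'']
    {f : Y' →ₗ[A] Y} {g : Y →ₗ[A] Y''} (hf : Function.Injective f) (hfg : Function.Exact f g)
    (hg : Function.Surjective g) (hDD : D * D = 0) {n : ℕ} (hY' : Ex deg D n Y')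
    (hY : Ex deg D (n + 1) Y) : Ex deg D (n + 1) Y'' := by
  intro v hv h
  obtain ⟨u, hu, rfl⟩ := exists_lift hg hv
  obtain ⟨w, hw, hfw⟩ := exists_pre hf hfg (hu.act hD) (by rw [← act_map, h])
  refine chase2 hfg hY hu hfw (hY' w hw (comp_inj hf ?_))
  rw [← act_map, hfw, act_act hDD]; funext a; simp

theorem ex_top {n : ℕ} (h : ∀ a, deg a < n) : Ex deg D n Y := by
  intro v hv _
  have : v = 0 := funext fun a => hv a (h a).ne
  rw [this]; exact bd_zero n

end basic

/-- Multiplication by `x` is homotopic to a map that only sees degree zero. -/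
def Htp [DecidableEq J] (deg : J → ℕ) (D : Matrix J J A) (x : A) : Prop :=
  ∃ s e : Matrix J J A, D * s + s * D = x • (1 : Matrix J J A) + e ∧ e * D = 0 ∧ D * e = 0 ∧
    ∀ a b, e a b ≠ 0 → deg b = 0

section htp

variable [DecidableEq J] {deg : J → ℕ} {D : Matrix J J A} {Y : Type} [AddCommGroup Y]
  [Module A Y]

theorem Htp.bd (hD : Hg deg D) {x : A} (h : Htp deg D x) {n : ℕ} {v : J → Y}
    (hv : Dg deg (n + 1) v) (hc : act D v = 0) : Bd deg D (n + 1) (x • v) := by
  obtain ⟨s, e, hs, -, -, he⟩ := h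
  refine bd_of_eq hD (hv.smul x) (w := act s v) ?_
  have h1 := congrArg (fun m => act m v) hs
  simp only [act_madd, act_mul, hc, act_zero, add_zero, act_scalar] at h1
  rw [h1]
  have : act e v = 0 := by
    funext a
    refine Finset.sum_eq_zero fun b _ => ?_
    by_cases hb : e a b = 0
    · simp [hb]
    · rw [hv b (by rw [he a b hb]; omega), smul_zero]
  rw [this, add_zero]

theorem Htp.mul {x : A} (h : Htp deg D x) (y : A) : Htp deg D (y * x) := by
  obtain ⟨s, e, hs, h1, h2, he⟩ := h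
  refine ⟨y • s, y • e, ?_, by simp [h1], by simp [h2], fun a b hab => he a b ?_⟩
  · rw [Matrix.mul_smul, Matrix.smul_mul, ← smul_add, hs, smul_add, smul_smul]
  · intro h0; apply hab; simp [h0]

theorem exact_smul (x : A) :
    Function.Exact (LinearMap.lsmul A Y x) (Submodule.mkQ (x • (⊤ : Submodule A Y))) := by
  intro y
  simp only [Submodule.mkQ_apply, Submodule.Quotient.mk_eq_zero, Set.mem_range,
    LinearMap.lsmul_apply, Submodule.mem_smul_pointwise_iff_exists]
  simp

omit [DecidableEq J] in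
theorem bd_of_smul (hD : Hg deg D) (hDD : D * D = 0) {x : A} (hx : IsSMulRegular Y x) {n : ℕ}
    (hex : Ex deg D (n + 1) (QuotSMulTop x Y)) {v : J → Y} (h : Bd deg D n (x • v)) :
    Bd deg D n v :=
  chase1 hD hDD (f := LinearMap.lsmul A Y x) hx (exact_smul x) (Submodule.mkQ_surjective _) hex h

/-- Acyclicity lemma. -/
theorem acyc (hD : Hg deg D) (hDD : D * D = 0) (xs : List A) :
    ∀ (Y : Type) [AddCommGroup Y] [Module A Y], IsWeaklyRegular Y xs →
      (∀ x ∈ xs, Htp deg D x) → ∀ n : ℕ, (∀ a, deg a < n + 1 + xs.length) →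
      Ex deg D (n + 1) Y := by
  induction xs with
  | nil => intro Y _ _ _ _ n hn; exact ex_top hn
  | cons x xs ih =>
    intro Y _ _ hreg hh n hn v hv hc
    rw [isWeaklyRegular_cons_iff] at hreg
    refine bd_of_smul hD hDD hreg.1 (ih _ hreg.2 (fun y hy => hh y (List.mem_cons_of_mem _ hy))
      (n + 1) fun a => ?_) ((hh x List.mem_cons_self).bd hD hv hc)
    have := hn a
    simp only [List.length_cons] at this
    omega

end htp

end Pool.Agent.Lib.MP_fa2e84_al
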