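import Pool.Agent.Lib.MP_fa2e84_al.Tensor

/-! The cokernel module: its tensor square and its projective dimension. -/

set_option linter.unusedSectionVars false

namespace Pool.Agent.Lib.MP_fa2e84_al

open TensorProduct CategoryTheory

variable {R : Type} [CommRing R] {J : Type} [Fintype J] [DecidableEq J]

/-- Outer product of two vectors. -/
def tens : (J → R) →ₗ[R] (J → R) →ₗ[R] (J × J → R) :=
  LinearMap.mk₂ R (fun v v' a => v a.1 * v' a.2)
    (fun _ _ _ => by funext a; simp [add_mul])
    (fun _ _ _ => by funext a; simp [mul_assoc])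
    (fun _ _ _ => by funext a; simp [mul_add])
    (fun _ _ _ => by funext a; simp [mul_left_comm])

theorem tens_apply (v v' : J → R) (a : J × J) : tens v v' a = v a.1 * v' a.2 := rfl

theorem act_tens (D : Matrix J J R) (v v' : J → R) :
    act (sq D) (tens v v') = tens (act D v) v' + tens v (act D v') := by
  funext ⟨a, a'⟩
  simp only [act, sq_apply, tens_apply, Pi.add_apply, smul_eq_mul, add_mul,
    Finset.sum_add_distrib, Fintype.sum_prod_type, ite_mul, zero_mul, Finset.sum_ite_eq,
    Finset.mem_univ, if_true, Finset.sum_mul, Finset.mul_sum]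
  congr 1
  · exact Finset.sum_congr rfl fun b _ => by ring
  · rw [Finset.sum_comm]
    simp only [Finset.sum_ite_eq, Finset.mem_univ, if_true]
    exact Finset.sum_congr rfl fun b _ => by ring

theorem pj_tens (deg : J → ℕ) (v v' : J → R) :
    pj (deg2 deg) 0 (tens v v') = tens (pj deg 0 v) (pj deg 0 v') := by
  funext ⟨a, a'⟩
  by_cases h : deg a = 0 <;> by_cases h' : deg a' = 0 <;> simp [pj, deg2, tens_apply, h, h']

theorem tens_mem_left {deg : J → ℕ} {D : Matrix J J R} (hD : Hg deg D) {v : J → R}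
    (hv : v ∈ Wk deg D) (v' : J → R) : tens v v' ∈ Wk (deg2 deg) (sq D) := by
  obtain ⟨w, -, hw⟩ := mem_Wk.1 hv
  rw [mem_Wk]
  refine bd_of_eq hD.sq (dg_pj _ _) (w := tens w (pj deg 0 v')) ?_
  rw [act_tens, act_dg_zero hD (dg_pj 0 v'), map_zero, add_zero, hw, pj_tens]

theorem tens_mem_right {deg : J → ℕ} {D : Matrix J J R} (hD : Hg deg D) {v' : J → R}
    (hv : v' ∈ Wk deg D) (v : J → R) : tens v v' ∈ Wk (deg2 deg) (sq D) := by
  obtain ⟨w, -, hw⟩ := mem_Wk.1 hv
  rw [mem_Wk]
  refine bd_of_eq hD.sq (dg_pj _ _) (w := tens (pj deg 0 v) w) ?_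
  rw [act_tens, act_dg_zero hD (dg_pj 0 v), map_zero, LinearMap.zero_apply, zero_add, hw, pj_tens]

theorem eq_sum_tens (v : J × J → R) :
    v = ∑ a : J × J, v a • tens (Pi.single a.1 1 : J → R) (Pi.single a.2 1 : J → R) := by
  funext ⟨b, b'⟩
  simp only [Finset.sum_apply, Pi.smul_apply, tens_apply, Pi.single_apply, smul_eq_mul]
  rw [Finset.sum_eq_single (b, b')]
  · simp
  · rintro ⟨a, a'⟩ _ h
    by_cases h1 : b = a <;> by_cases h2 : b' = a' <;> simp_all
  · simp

theorem eq_sum_single (v : J → R) : v = ∑ a, v a • (Pi.single a 1 : J → R) := by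
  funext i; simp [Finset.sum_apply, Pi.single_apply]

theorem nonempty_tensor_equiv {deg : J → ℕ} {D : Matrix J J R} (hD : Hg deg D) :
    Nonempty (Cok (deg2 deg) (sq D) ≃ₗ[R] (Cok deg D ⊗[R] Cok deg D)) := by
  let f1 : Cok deg D ⊗[R] Cok deg D →ₗ[R] Cok (deg2 deg) (sq D) :=
    TensorProduct.lift (LinearMap.liftQ₂ (Wk deg D) (Wk deg D)
      (tens.compr₂ (Wk (deg2 deg) (sq D)).mkQ)
      (fun v hv => by
        simp only [LinearMap.mem_ker]
        refine LinearMap.ext fun v' => ?_
        simp only [LinearMap.compr₂_apply, Submodule.mkQ_apply,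
          LinearMap.zero_apply, Submodule.Quotient.mk_eq_zero]
        exact tens_mem_left hD hv _)
      (fun v hv => by
        simp only [LinearMap.mem_ker]
        refine LinearMap.ext fun v' => ?_
        simp only [LinearMap.flip_apply, LinearMap.compr₂_apply, Submodule.mkQ_apply,
          LinearMap.zero_apply, Submodule.Quotient.mk_eq_zero]
        exact tens_mem_right hD hv _))
  have hf1 : ∀ v v', f1 ((Wk deg D).mkQ v ⊗ₜ (Wk deg D).mkQ v') =
      (Wk (deg2 deg) (sq D)).mkQ (tens v v') := fun v v' => rfl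
  let g : (J × J → R) →ₗ[R] Cok deg D ⊗[R] Cok deg D :=
    ∑ a : J × J, (LinearMap.proj a).smulRight
      ((Wk deg D).mkQ (Pi.single a.1 1) ⊗ₜ (Wk deg D).mkQ (Pi.single a.2 1))
  have hg : ∀ v, g v = ∑ a : J × J, v a •
      ((Wk deg D).mkQ (Pi.single a.1 1) ⊗ₜ (Wk deg D).mkQ (Pi.single a.2 1)) := by
    intro v; simp [g, LinearMap.sum_apply]
  have hgt : ∀ v v', g (tens v v') = (Wk deg D).mkQ v ⊗ₜ (Wk deg D).mkQ v' := by
    intro v v'
    rw [hg]
    conv_rhs => rw [eq_sum_single v, eq_sum_single v']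
    simp only [map_sum, map_smul, sum_tmul, tmul_sum, Fintype.sum_prod_type, tens_apply]
    rw [Finset.sum_comm]
    refine Finset.sum_congr rfl fun a _ => Finset.sum_congr rfl fun b _ => ?_
    rw [smul_tmul_smul]
  have h0 : ∀ v, (Wk deg D).mkQ (act D v) = 0 := fun v => by
    rw [Submodule.mkQ_apply, Submodule.Quotient.mk_eq_zero]; exact act_mem_Wk hD _
  have hker : Wk (deg2 deg) (sq D) ≤ LinearMap.ker g := by
    intro v hv
    obtain ⟨w, -, hw⟩ := mem_Wk.1 hv
    have h1 : g (pj (deg2 deg) 0 v) = g v := by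
      rw [hg, hg]
      refine Finset.sum_congr rfl fun a _ => ?_
      by_cases ha : deg2 deg a = 0
      · simp [pj, ha]
      · have h3 : ∀ b, deg b ≠ 0 → (Wk deg D).mkQ (Pi.single b 1) = 0 := by
          intro b hb
          rw [← mk_pj]
          have : pj deg 0 (Pi.single b 1 : J → R) = 0 := by
            funext c
            by_cases hc : deg c = 0
            · have : c ≠ b := by rintro rfl; exact hb hc
              simp [pj, this]
            · simp [pj, hc]
          rw [this, map_zero]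
        by_cases h4 : deg a.1 = 0
        · rw [h3 a.2 (by simp only [deg2] at ha; omega)]; simp
        · rw [h3 a.1 h4]; simp
    rw [LinearMap.mem_ker, ← h1, ← hw, eq_sum_tens w]
    change g (actL (sq D) _) = 0
    rw [map_sum, map_sum]
    refine Finset.sum_eq_zero fun a _ => ?_
    rw [map_smul, map_smul]
    change _ • g (act (sq D) _) = 0
    rw [act_tens, map_add, hgt, hgt, h0, h0]; simp
  refine ⟨LinearEquiv.ofLinearMap ((Wk (deg2 deg) (sq D)).liftQ g hker) f1 ?_ ?_⟩
  · refine TensorProduct.ext' fun m m' => ?_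
    obtain ⟨v, rfl⟩ := (Wk deg D).mkQ_surjective m
    obtain ⟨v', rfl⟩ := (Wk deg D).mkQ_surjective m'
    rw [LinearMap.comp_apply, hf1, Submodule.mkQ_apply, Submodule.liftQ_apply, hgt]; rfl
  · refine LinearMap.ext fun n => ?_
    obtain ⟨v, rfl⟩ := (Wk (deg2 deg) (sq D)).mkQ_surjective n
    rw [LinearMap.comp_apply, Submodule.mkQ_apply, Submodule.liftQ_apply, hg, map_sum]
    simp only [map_smul, hf1]
    conv_rhs => rw [eq_sum_tens v]
    rw [LinearMap.id_apply, ← Submodule.mkQ_apply, map_sum]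
    simp only [map_smul]

/-- Vectors of degree `n`. -/
def DgS (R : Type) [CommRing R] (deg : J → ℕ) (n : ℕ) : Submodule R (J → R) where
  carrier := {v | Dg deg n v}
  add_mem' := Dg.add
  zero_mem' := dg_zero n
  smul_mem' := fun c _ hv => Dg.smul hv c

/-- Boundaries of degree `n`. -/
def BdS (deg : J → ℕ) (D : Matrix J J R) (n : ℕ) : Submodule R (J → R) where
  carrier := {v | Bd deg D n v}
  add_mem' := Bd.add
  zero_mem' := bd_zero n
  smul_mem' := fun c _ hv => Bd.smul hv c

theorem projective_DgS (deg : J → ℕ) (n : ℕ) : Module.Projective R (DgS R deg n) := by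
  let s : (J → R) →ₗ[R] DgS R deg n :=
    { toFun := fun v => ⟨pj deg n v, dg_pj n v⟩
      map_add' := fun v w => Subtype.ext (pj_add deg n v w)
      map_smul' := fun c v => Subtype.ext (pj_smul deg n c v) }
  refine Module.Projective.of_split (DgS R deg n).subtype s ?_
  ext1 v
  exact Subtype.ext (pj_eq v.2)

theorem pd_step {P Q T : Type} [AddCommGroup P] [AddCommGroup Q] [AddCommGroup T] [Module R P]
    [Module R Q] [Module R T] (f : P →ₗ[R] Q) (g : Q →ₗ[R] T) (hf : Function.Injective f)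
    (hfg : Function.Exact f g) (hg : Function.Surjective g) (hQ : Module.Projective R Q) {m : ℕ}
    (hP : HasProjectiveDimensionLT (ModuleCat.of R P) m) :
    HasProjectiveDimensionLT (ModuleCat.of R T) (m + 1) := by
  have hS := ModuleCat.shortComplex_shortExact
    (ModuleCat.shortComplexOfCompEqZero f g hfg.linearMap_comp_eq_zero) hfg hf hg
  have h1 : Projective (ModuleCat.of R Q) := (IsProjective.iff_projective Q).1 hQ
  exact hS.hasProjectiveDimensionLT_X₃ m hP
    (hasProjectiveDimensionLT_of_ge (ModuleCat.of R Q) 1 (m + 1) (by omega))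

theorem pd_BdS {deg : J → ℕ} {D : Matrix J J R} (hD : Hg deg D) (hDD : D * D = 0)
    (hex : ∀ i, Ex deg D (i + 1) R) (m : ℕ) : ∀ n, (∀ a, deg a ≤ n + m) →
      HasProjectiveDimensionLT (ModuleCat.of R (BdS deg D n)) m := by
  induction m with
  | zero =>
    intro n hn
    refine Limits.IsZero.hasProjectiveDimensionLT_zero ?_
    rw [ModuleCat.isZero_iff_subsingleton]
    refine subsingleton_of_forall_eq 0 ?_
    rintro ⟨v, w, hw, rfl⟩
    have : w = 0 := funext fun a => hw a (by have := hn a; omega)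
    subst this
    exact Subtype.ext (act_zero D)
  | succ m ih =>
    intro n hn
    refine pd_step (Submodule.inclusion (p := BdS deg D (n + 1)) (p' := DgS R deg (n + 1))
      fun v hv => Bd.dg hD hv)
      (((actL D).comp (DgS R deg (n + 1)).subtype).codRestrict (BdS deg D n)
        fun v => ⟨v.1, v.2, rfl⟩) (Submodule.inclusion_injective _) ?_ ?_
      (projective_DgS deg _) (ih (n + 1) fun a => by have := hn a; omega)
    · intro v
      constructor
      · intro hv
        exact ⟨⟨v.1, hex n v.1 v.2 (congrArg Subtype.val hv)⟩, rfl⟩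
      · rintro ⟨⟨_, w, hw, rfl⟩, rfl⟩
        exact Subtype.ext (act_act hDD w)
    · rintro ⟨_, w, hw, rfl⟩
      exact ⟨⟨w, hw⟩, rfl⟩

theorem pd_cok {deg : J → ℕ} {D : Matrix J J R} (hD : Hg deg D) (hDD : D * D = 0)
    (hex : ∀ i, Ex deg D (i + 1) R) (m : ℕ) (hm : ∀ a, deg a ≤ m) :
    HasProjectiveDimensionLE (ModuleCat.of R (Cok deg D)) m := by
  refine pd_step (Submodule.inclusion (p := BdS deg D 0) (p' := DgS R deg 0)
      fun v hv => Bd.dg hD hv) ((Wk deg D).mkQ.comp (DgS R deg 0).subtype)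
      (Submodule.inclusion_injective _) ?_ ?_ (projective_DgS deg _)
      (pd_BdS hD hDD hex m 0 (by simpa using hm))
  · intro v
    rw [LinearMap.comp_apply, Submodule.mkQ_apply, Submodule.Quotient.mk_eq_zero,
      Submodule.subtype_apply, mem_Wk_of_dg v.2]
    constructor
    · intro hv; exact ⟨⟨v.1, hv⟩, rfl⟩
    · rintro ⟨u, rfl⟩; exact u.2
  · intro n
    obtain ⟨v, hv, rfl⟩ := exists_rep deg D n
    exact ⟨⟨v, hv⟩, rfl⟩

end Pool.Agent.Lib.MP_fa2e84_al
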