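import Pool.Agent.Lib.MP_fa2e84_al.Assemble

/-! Descent of homotopies and regular sequences to a direct summand subring. -/

set_option linter.unusedSectionVars false

namespace Pool.Agent.Lib.MP_fa2e84_al

open RingTheory.Sequence

/-- A finite family is a weakly regular sequence, in terms of ideal membership. -/
def RegF {B : Type} [CommRing B] {n : ℕ} (x : Fin n → B) : Prop :=
  ∀ ρ f, x ρ * f ∈ Ideal.span (x '' {σ | σ < ρ}) → f ∈ Ideal.span (x '' {σ | σ < ρ})

theorem RegF.isWeaklyRegular {B : Type} [CommRing B] {n : ℕ} {x : Fin n → B} (h : RegF x) :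
    IsWeaklyRegular B (List.ofFn x) := by
  refine ⟨fun i hi => ?_⟩
  have hi' : i < n := by simpa using hi
  have e : Ideal.ofList ((List.ofFn x).take i) = Ideal.span (x '' {σ | σ < ⟨i, hi'⟩}) := by
    unfold Ideal.ofList
    congr 1
    ext r
    simp only [Set.mem_ofPred_eq, List.mem_take_iff_getElem, List.length_ofFn, List.getElem_ofFn,
      Set.mem_image, Fin.lt_def]
    constructor
    · rintro ⟨j, hj, rfl⟩
      exact ⟨⟨j, by omega⟩, by simp only; omega, rfl⟩
    · rintro ⟨j, hj, rfl⟩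
      exact ⟨j.1, by have := j.2; omega, rfl⟩
  rw [e, List.getElem_ofFn, smul_eq_mul, Ideal.mul_top, isSMulRegular_quotient_iff_mem_of_smul_mem]
  exact fun f hf => h _ f hf

section descent

variable {B S : Type} [CommRing B] [CommRing S] (ι : B →+* S) (π : S →+ B)
  (hπ : ∀ b f, π (ι b * f) = b * π f) (h1 : π 1 = 1)

include hπ h1

theorem pi_iota (b : B) : π (ι b) = b := by
  have := hπ b 1
  rwa [mul_one, h1, mul_one] at this

theorem RegF.descend {n : ℕ} {x : Fin n → B} (h : RegF fun ρ => ι (x ρ)) : RegF x := by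
  intro ρ f hf
  have h2 : ι (x ρ) * ι f ∈ Ideal.span ((fun ρ => ι (x ρ)) '' {σ | σ < ρ}) := by
    have := Ideal.mem_map_of_mem ι hf
    rwa [Ideal.map_span, map_mul, ← Set.image_comp] at this
  have h3 : ∀ g ∈ Ideal.span ((fun ρ => ι (x ρ)) '' {σ | σ < ρ}), ∀ c,
      π (g * c) ∈ Ideal.span (x '' {σ | σ < ρ}) := by
    intro g hg
    induction hg using Submodule.span_induction with
    | mem g hg =>
      obtain ⟨σ, hσ, rfl⟩ := hg
      intro c
      rw [hπ]
      exact Ideal.mul_mem_right _ _ (Ideal.subset_span ⟨σ, hσ, rfl⟩)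
    | zero => intro c; simp
    | add a b _ _ ha hb => intro c; rw [add_mul, map_add]; exact add_mem (ha c) (hb c)
    | smul a b _ hb => intro c; rw [smul_eq_mul, mul_comm a, mul_assoc]; exact hb _
  have := h3 _ (h ρ _ h2) 1
  rwa [mul_one, pi_iota ι π hπ h1] at this

omit h1 in
theorem map_pi_mul {I J K : Type} [Fintype J] (s : Matrix I J S) (p : Matrix J K B) :
    s.map π * p = (s * p.map ι).map π := by
  ext a b
  simp only [Matrix.mul_apply, Matrix.map_apply, map_sum]
  exact Finset.sum_congr rfl fun j _ => by rw [mul_comm (s a j), hπ, mul_comm]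

omit h1 in
theorem mul_map_pi {I J K : Type} [Fintype J] (p : Matrix I J B) (s : Matrix J K S) :
    p * s.map π = (p.map ι * s).map π := by
  ext a b
  simp only [Matrix.mul_apply, Matrix.map_apply, map_sum, hπ]

theorem scalar_map_pi {I : Type} [DecidableEq I] (x : B) :
    (ι x • (1 : Matrix I I S)).map π = x • (1 : Matrix I I B) := by
  ext a b
  by_cases h : a = b <;> simp [h, pi_iota ι π hπ h1]

theorem BH.descend {I3 I2 I1 I0 : Type} [Fintype I3] [Fintype I2] [Fintype I1] [Fintype I0]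
    [DecidableEq I3] [DecidableEq I2] [DecidableEq I1] [DecidableEq I0] {p : Matrix I2 I3 B}
    {q : Matrix I1 I2 B} {r : Matrix I0 I1 B} {x : B}
    (h : BH (p.map ι) (q.map ι) (r.map ι) (ι x)) : BH p q r x := by
  obtain ⟨s3, s2, s1, k3, k2, k1⟩ := h
  refine ⟨s3.map π, s2.map π, s1.map π, ?_, ?_, ?_⟩
  · rw [map_pi_mul ι π hπ, k3, scalar_map_pi ι π hπ h1]
  · rw [map_pi_mul ι π hπ, mul_map_pi ι π hπ, ← Matrix.map_add _ (map_add π), k2,
      scalar_map_pi ι π hπ h1]
  · rw [map_pi_mul ι π hπ, mul_map_pi ι π hπ, ← Matrix.map_add _ (map_add π), k1,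
      scalar_map_pi ι π hπ h1]

end descent

section bh

variable {B S I3 I2 I1 I0 : Type} [CommRing B] [CommRing S] [Fintype I3] [Fintype I2] [Fintype I1]
  [Fintype I0] [DecidableEq I3] [DecidableEq I2] [DecidableEq I1] [DecidableEq I0]
  {p : Matrix I2 I3 B} {q : Matrix I1 I2 B} {r : Matrix I0 I1 B} {x : B}

theorem scalar_map {I : Type} [DecidableEq I] (f : B →+* S) (x : B) :
    (x • (1 : Matrix I I B)).map f = f x • (1 : Matrix I I S) := by
  ext a b
  by_cases h : a = b <;> simp [h]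

theorem BH.map (h : BH p q r x) (f : B →+* S) : BH (p.map f) (q.map f) (r.map f) (f x) := by
  obtain ⟨s3, s2, s1, k3, k2, k1⟩ := h
  refine ⟨s3.map f, s2.map f, s1.map f, ?_, ?_, ?_⟩
  · rw [← Matrix.map_mul, k3, scalar_map]
  · rw [← Matrix.map_mul, ← Matrix.map_mul, ← Matrix.map_add _ (map_add f), k2, scalar_map]
  · rw [← Matrix.map_mul, ← Matrix.map_mul, ← Matrix.map_add _ (map_add f), k1, scalar_map]

theorem BH.mul (h : BH p q r x) (y : B) : BH p q r (y * x) := by
  obtain ⟨s3, s2, s1, k3, k2, k1⟩ := h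
  refine ⟨y • s3, y • s2, y • s1, ?_, ?_, ?_⟩
  · rw [Matrix.smul_mul, k3, smul_smul]
  · rw [Matrix.smul_mul, Matrix.mul_smul, ← smul_add, k2, smul_smul]
  · rw [Matrix.smul_mul, Matrix.mul_smul, ← smul_add, k1, smul_smul]

end bh

end Pool.Agent.Lib.MP_fa2e84_al
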