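import Pool.Agent.Lib.MP_fa2e84_al.PsiSq

/-! Injectivity and surjectivity of the connecting maps. -/

set_option linter.unusedSectionVars false

namespace Pool.Agent.Lib.MP_fa2e84_al

open Sum

variable {A k V : Type} [CommRing A] [Field k] [AddCommGroup V] [Module k V]
  {Jt I1 I0 U1 : Type} [Fintype Jt] [Fintype I1] [Fintype I0] [Fintype U1] [DecidableEq Jt]
  [DecidableEq I1] [DecidableEq I0] [DecidableEq U1]

/-- Index set of the bilinear forms. -/
abbrev UU (U1 I1 Jt : Type) : Type := U1 ⊕ (I1 × Jt) × (Jt × Bool)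

/-- The conditions imposed on the bilinear forms. -/
structure Good (T : EData A k V (UU U1 I1 Jt)) (p : Matrix (Jt × Bool) Bool A)
    (q : Matrix I1 (Jt × Bool) A) (r : Matrix I0 I1 A) (emb : (Jt × Bool) × U1 → I0)
    (θ : Bool × I1 × UU U1 I1 Jt → Jt × Jt × U1) : Prop where
  h1 : ∀ i0 l0, ∃ μ, ∀ i l, al T p q μ i l = if i = i0 ∧ l = l0 then 1 else 0
  h2 : ∀ j0 j0', ∃ μ, (∀ i l, al T p q μ i l = 0) ∧
    ∀ j j', Ga T μ (p j false) (p j' true) = if j = j0 ∧ j' = j0' then 1 else 0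
  hS : ∀ x0, ∃ μ j0, ∀ x, al T q r μ x j0 = if x = x0 then 1 else 0
  hK : ∀ w : UU U1 I1 Jt → Jt × Bool → k, (∀ x, ∑ μ, ∑ j, al T q r μ x j * w μ j = 0) →
    ∃ c : I1 × Jt → k, (∀ μ j, w (inl μ) j = 0) ∧
      ∀ ζ j' j, w (inr (ζ, j')) j = if j = j' then c ζ else 0
  hK' : ∀ ζ x, ∑ j, al T q r (inr (ζ, j)) x j = 0
  hC : ∀ j1 μ1 μ j, al T q r μ (emb (j1, μ1)) j = if μ = inl μ1 ∧ j = j1 then 1 else 0
  h4 : ∀ z i l, al T p q (inr z) i l = 0
  h4' : ∀ ζ j l i, ∑ j', Ga T (inr (ζ, j')) (p j l) (q i j') =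
    if j = (ζ.2, l) ∧ i = ζ.1 then 1 else 0
  h5 : ∀ μ j l x i, Ga T μ (p j l) (r x i) =
    if j = ((θ (l, i, μ)).1, false) ∧ x = emb (((θ (l, i, μ)).2.1, true), (θ (l, i, μ)).2.2)
      then 1 else 0
  hemb : Function.Injective emb
  hθ : Function.Injective θ

variable {T : EData A k V (UU U1 I1 Jt)} {p : Matrix (Jt × Bool) Bool A}
  {q : Matrix I1 (Jt × Bool) A} {r : Matrix I0 I1 A} {emb : (Jt × Bool) × U1 → I0}
  {θ : Bool × I1 × UU U1 I1 Jt → Jt × Jt × U1}

theorem dg_single {J U : Type} [DecidableEq J] [DecidableEq U] {deg : J → ℕ} {n : ℕ} (μ0 : U)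
    {c0 : J} (h : deg c0 = n) (μ : U) :
    Dg deg n ((fun μ c => if μ = μ0 ∧ c = c0 then (1 : k) else 0) μ) := by
  intro a ha
  have : a ≠ c0 := by rintro rfl; exact ha h
  simp [this]

theorem Good.s22 (h : Good T p q r emb θ) (j0 j0' : Jt × Bool) :
    Pi.single (inr (inl j0), inr (inl j0')) (1 : k) ∈
      Img T (deg2 degI) (sq (tot p q r)) 4 := by
  obtain ⟨μ0, h1, h2⟩ := h.h2 j0 j0'
  refine single_mem_of (hg_tot p q r).sq
    (fun μ c => if μ = μ0 ∧ c = (inl false, inl true) then 1 else 0) (dg_single μ0 rfl) ?_ ?_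
  · simp [psi22, h2, ite_and]
  · rintro ⟨a | a | a | a, b | b | b | b⟩ hd hne hnz <;> simp [deg2, degI] at hd <;>
      exfalso <;> apply hnz
    · simp [psi31, h1, ite_and]
    · simp only [ne_eq, Prod.mk.injEq, inr.injEq, inl.injEq] at hne
      simp [psi22, h2, ite_and]
      tauto
    · simp [psi13, h1, ite_and]

theorem Good.s31 (h : Good T p q r emb θ) (l0 : Bool) (i0 : I1) :
    Pi.single (inl l0, inr (inr (inl i0))) (1 : k) ∈
      Img T (deg2 degI) (sq (tot p q r)) 4 := by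
  obtain ⟨μ0, h1⟩ := h.h1 i0 (!l0)
  refine single_mem_of (hg_tot p q r).sq
    (fun μ c => if μ = μ0 ∧ c = (inl l0, inl (!l0)) then 1 else 0) (dg_single μ0 rfl) ?_ ?_
  · cases l0 <;> simp [psi31, h1, ite_and]
  · rintro ⟨a | a | a | a, b | b | b | b⟩ hd hne hnz <;> simp [deg2, degI] at hd
    · exfalso; apply hnz
      simp only [ne_eq, Prod.mk.injEq, inr.injEq, inl.injEq] at hne
      cases l0 <;> cases a <;> simp [psi31, h1, ite_and] <;> simp_all
    · exact h.s22 _ _
    · exfalso; apply hnz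
      cases l0 <;> cases b <;> simp [psi13, h1, ite_and]

theorem Good.surj4 (h : Good T p q r emb θ) (l) (hl : Dg (deg2 degI) 4 l) :
    l ∈ Img T (deg2 degI) (sq (tot p q r)) 4 := by
  refine mem_of_single _ _ fun c hc => ?_
  have hd : deg2 degI c = 4 := by by_contra h5; exact hc (hl c h5)
  rcases c with ⟨a | a | a | a, b | b | b | b⟩ <;> simp [deg2, degI] at hd
  · exact h.s31 _ _
  · exact h.s22 _ _
  · exact single_swap_mem (h.s31 _ _)

theorem Good.s21 (h : Good T p q r emb θ) (j0 : Jt × Bool) (i0 : I1) :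
    Pi.single (inr (inl j0), inr (inr (inl i0))) (1 : k) ∈
      Img T (deg2 degI) (sq (tot p q r)) 3 := by
  let w : UU U1 I1 Jt → (Bool ⊕ (Jt × Bool) ⊕ I1 ⊕ I0) × (Bool ⊕ (Jt × Bool) ⊕ I1 ⊕ I0) → k :=
    fun μ c => match μ with
      | inl _ => 0
      | inr z => if z.1 = (i0, j0.1) ∧ c = (inl j0.2, inr (inl z.2)) then 1 else 0
  have key : ∀ j i, Psi T (sq (tot p q r)) w (inr (inl j), inr (inr (inl i))) =
      if j = j0 ∧ i = i0 then 1 else 0 := by
    intro j i
    have := h.h4' (i0, j0.1) j j0.2 i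
    simp only [Prod.mk.eta] at this
    rw [← this]
    obtain ⟨s0, l0⟩ := j0
    cases l0 <;> simp [psi21, w, Fintype.sum_prod_type (α₁ := I1 × Jt), ite_and]
  refine single_mem_of (hg_tot p q r).sq w ?_ (by simp [key]) ?_
  · rintro (μ | z) a ha
    · rfl
    · have : a ≠ (inl j0.2, inr (inl z.2)) := by rintro rfl; exact ha rfl
      simp [w, this]
  · rintro ⟨a | a | a | a, b | b | b | b⟩ hd hne hnz <;> simp [deg2, degI] at hd <;>
      exfalso <;> apply hnz
    · have := h.hK' (i0, j0.1) b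
      by_cases ha : a = j0.2
      · simpa [psi30, w, Fintype.sum_prod_type (α₁ := I1 × Jt), ite_and, ha] using this
      · simp [psi30, w, ha]
    · simp only [ne_eq, Prod.mk.injEq, inr.injEq, inl.injEq] at hne
      rw [key, if_neg hne]
    · simp [psi12, w, h.h4]
    · simp [psi03, w]

theorem Good.s30 (h : Good T p q r emb θ) (l0 : Bool) (x0 : I0) :
    Pi.single (inl l0, inr (inr (inr x0))) (1 : k) ∈
      Img T (deg2 degI) (sq (tot p q r)) 3 := by
  obtain ⟨μ0, j0, h1⟩ := h.hS x0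
  refine single_mem_of (hg_tot p q r).sq
    (fun μ c => if μ = μ0 ∧ c = (inl l0, inr (inl j0)) then 1 else 0) (dg_single μ0 rfl) ?_ ?_
  · simp [psi30, h1, ite_and]
  · rintro ⟨a | a | a | a, b | b | b | b⟩ hd hne hnz <;> simp [deg2, degI] at hd
    · exfalso; apply hnz
      simp only [ne_eq, Prod.mk.injEq, inr.injEq, inl.injEq] at hne
      simp [psi30, h1, ite_and]
      tauto
    · exact h.s21 _ _
    · exact single_swap_mem (h.s21 _ _)
    · exfalso; apply hnz
      simp [psi03]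

theorem Good.surj3 (h : Good T p q r emb θ) (l) (hl : Dg (deg2 degI) 3 l) :
    l ∈ Img T (deg2 degI) (sq (tot p q r)) 3 := by
  refine mem_of_single _ _ fun c hc => ?_
  have hd : deg2 degI c = 3 := by by_contra h5; exact hc (hl c h5)
  rcases c with ⟨a | a | a | a, b | b | b | b⟩ <;> simp [deg2, degI] at hd
  · exact h.s30 _ _
  · exact h.s21 _ _
  · exact single_swap_mem (h.s21 _ _)
  · exact single_swap_mem (h.s30 _ _)

theorem Good.i32 (h : Good T p q r emb θ) (w) (h0 : Psi T (sq (tot p q r)) w = 0) (μ l j) :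
    w μ (inl l, inr (inl j)) = 0 := by
  have k1 := fun l => h.hK (fun μ j => w μ (inl l, inr (inl j))) fun x => by
    rw [← psi30 T p, h0]; rfl
  have k2 := fun l => h.hK (fun μ j => w μ (inr (inl j), inl l)) fun x => by
    rw [← psi03 T p, h0]; rfl
  choose c hc1 hc2 using k1
  choose c' hc1' hc2' using k2
  have key : ∀ l ζ, c l ζ = 0 := by
    intro l ζ
    have h1 := congrFun h0 (inr (inl (ζ.2, l)), inr (inr (inl ζ.1)))
    rw [psi21, Fintype.sum_sum_type, Fintype.sum_prod_type] at h1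
    simp only [hc1, hc1', hc2, h.h4, mul_zero, zero_mul, Finset.sum_const_zero, add_zero,
      zero_add, mul_ite, Finset.sum_ite_eq', Finset.mem_univ, if_true, Pi.zero_apply] at h1
    have h2 : ∀ ζ' : I1 × Jt, ∑ j', ∑ l', Ga T (inr (ζ', j')) (p (ζ.2, l) l') (q ζ.1 j') * c l' ζ' =
        if ζ' = ζ then c l ζ else 0 := by
      intro ζ'
      rw [Finset.sum_comm]
      simp only [← Finset.sum_mul, h.h4']
      obtain ⟨i, s⟩ := ζ
      obtain ⟨i', s'⟩ := ζ'
      by_cases hi : i = i'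
      · subst hi
        by_cases hs : s = s'
        · subst hs
          cases l <;> simp
        · simp [hs, Ne.symm hs]
      · simp [hi, Ne.symm hi]
    simp only [h2] at h1
    simpa using h1
  rcases μ with μ | ⟨ζ, j'⟩
  · exact hc1 l μ j
  · rw [hc2, key, ite_self]

theorem Good.inj5 (h : Good T p q r emb θ) (w) (hw : ∀ μ, Dg (deg2 degI) 5 (w μ))
    (h0 : Psi T (sq (tot p q r)) w = 0) : w = 0 := by
  funext μ c
  by_cases hd : deg2 degI c = 5
  · rcases c with ⟨a | a | a | a, b | b | b | b⟩ <;> simp [deg2, degI] at hd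
    · exact h.i32 w h0 μ a b
    · exact h.i32 (fun μ c => w μ c.swap) (by funext a; rw [psi_swap, h0]; rfl) μ b a
  · exact hw μ c hd

theorem Good.i31 (h : Good T p q r emb θ) (w) (h0 : Psi T (sq (tot p q r)) w = 0) (μ0 l0 i0) :
    w μ0 (inl l0, inr (inr (inl i0))) = 0 := by
  obtain ⟨s, s', μ', hθ⟩ : ∃ s s' μ', θ (l0, i0, μ0) = (s, s', μ') := ⟨_, _, _, rfl⟩
  have hA := congrFun h0 (inr (inl (s, false)), inr (inr (inr (emb ((s', true), μ')))))
  have hB := congrFun h0 (inr (inr (inr (emb ((s, false), μ')))), inr (inl (s', true)))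
  rw [psi20] at hA
  rw [psi02] at hB
  simp only [Ga_comm T _ (r _ _)] at hB
  simp only [h.hC, h.h5, Prod.mk.injEq, Bool.true_eq_false, and_false,
    false_and, if_false, zero_mul, Finset.sum_const_zero, add_zero, ite_and, ite_mul, one_mul,
    Finset.sum_ite_irrel, Finset.sum_ite_eq', Finset.mem_univ, if_true, Pi.zero_apply] at hB
  have e : ∀ μ l i, (((s, false) : Jt × Bool) = ((θ (l, i, μ)).1, false) ∧
      emb ((s', true), μ') = emb (((θ (l, i, μ)).2.1, true), (θ (l, i, μ)).2.2)) ↔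
      (μ = μ0 ∧ l = l0 ∧ i = i0) := by
    intro μ l i
    constructor
    · rintro ⟨h1, h2⟩
      have h3 := h.hemb h2
      simp only [Prod.mk.injEq, and_true] at h1 h3
      have h4 : θ (l, i, μ) = θ (l0, i0, μ0) := by
        rw [hθ]; exact Prod.ext h1.symm (Prod.ext h3.1.symm h3.2.symm)
      have h5 := h.hθ h4
      simp only [Prod.mk.injEq] at h5
      tauto
    · rintro ⟨rfl, rfl, rfl⟩
      simp [hθ]
  simp only [h.h5, e] at hA
  simp only [h.hC, Finset.sum_add_distrib, ite_and, ite_mul, one_mul, zero_mul,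
    Finset.sum_ite_irrel, Finset.sum_ite_eq', Finset.mem_univ, if_true, Pi.zero_apply,
    Finset.sum_const_zero] at hA
  rwa [hB, zero_add] at hA

theorem Good.inj4 (h : Good T p q r emb θ) (w) (hw : ∀ μ, Dg (deg2 degI) 4 (w μ))
    (h0 : Psi T (sq (tot p q r)) w = 0) : w = 0 := by
  have k31 := h.i31 w h0
  have k13 : ∀ μ l i, w μ (inr (inr (inl i)), inl l) = 0 :=
    h.i31 (fun μ c => w μ c.swap) (by funext a; rw [psi_swap, h0]; rfl)
  have k1 := fun j => h.hK (fun μ j' => w μ (inr (inl j), inr (inl j'))) fun x => by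
    have := congrFun h0 (inr (inl j), inr (inr (inr x)))
    simpa [psi20, k31] using this
  have k2 := fun j => h.hK (fun μ j' => w μ (inr (inl j'), inr (inl j))) fun x => by
    have := congrFun h0 (inr (inr (inr x)), inr (inl j))
    simpa [psi02, k13] using this
  choose c hc1 hc2 using k1
  choose c' hc1' hc2' using k2
  have key : ∀ j ζ, c j ζ = 0 := by
    intro j ζ
    have h1 := hc2 j ζ (j.1, !j.2) (j.1, !j.2)
    have h2 := hc2' (j.1, !j.2) ζ (j.1, !j.2) j
    have h3 : j ≠ (j.1, !j.2) := by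
      intro h4; have := congrArg Prod.snd h4; simp at this
    rw [if_pos rfl] at h1
    rw [if_neg h3] at h2
    exact h1.symm.trans h2
  funext μ a
  by_cases hd : deg2 degI a = 4
  · rcases a with ⟨a | a | a | a, b | b | b | b⟩ <;> simp [deg2, degI] at hd
    · exact k31 μ a b
    · rcases μ with μ | ⟨ζ, j'⟩
      · exact hc1 a μ b
      · rw [hc2, key, ite_self]; rfl
    · exact k13 μ b a
  · exact hw μ a hd

theorem Good.ex3 (h : Good T p q r emb θ) (hDD : sq (tot p q r) * sq (tot p q r) = 0)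
    (hres : ∀ a b, T.res (sq (tot p q r) a b) = 0) (hA : Ex (deg2 degI) (sq (tot p q r)) 3 A) :
    Ex (deg2 degI) (sq (tot p q r)) 3 (EMod T) :=
  ex_emod T (hg_tot p q r).sq hDD hres hA h.inj4 h.surj3

theorem Good.ex4 (h : Good T p q r emb θ) (hDD : sq (tot p q r) * sq (tot p q r) = 0)
    (hres : ∀ a b, T.res (sq (tot p q r) a b) = 0) (hA : Ex (deg2 degI) (sq (tot p q r)) 4 A) :
    Ex (deg2 degI) (sq (tot p q r)) 4 (EMod T) :=
  ex_emod T (hg_tot p q r).sq hDD hres hA h.inj5 h.surj4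

end Pool.Agent.Lib.MP_fa2e84_al
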