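import Pool.Agent.Lib.MP_fa2e84_al.Chase

/-! The extension `E` of a power of the maximal ideal by the residue field. -/

set_option linter.unusedSectionVars false

namespace Pool.Agent.Lib.MP_fa2e84_al

/-- A residue map, a point derivation and a family of bilinear forms. -/
structure EData (A k V U : Type) [CommRing A] [Field k] [AddCommGroup V] [Module k V] where
  res : A →+* k
  surj : Function.Surjective res
  der : A →+ V
  leib : ∀ a b, der (a * b) = res a • der b + res b • der a
  phi : U → V →ₗ[k] V →ₗ[k] k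

variable {A k V U : Type} [CommRing A] [Field k] [AddCommGroup V] [Module k V] [Fintype U]

/-- The underlying group of the extension. -/
def EMod (T : EData A k V U) : Type := (U → RingHom.ker T.res) × k

namespace EMod

variable {T : EData A k V U}

instance : AddCommGroup (EMod T) := inferInstanceAs (AddCommGroup ((U → RingHom.ker T.res) × k))

/-- First component. -/
def fst (v : EMod T) : U → RingHom.ker T.res := Prod.fst v

/-- Second component. -/
def snd (v : EMod T) : k := Prod.snd v

/-- Constructor. -/
def mk (n : U → RingHom.ker T.res) (l : k) : EMod T := (n, l)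

theorem ext' {v w : EMod T} (h1 : ∀ μ, (v.fst μ : A) = w.fst μ) (h2 : v.snd = w.snd) : v = w :=
  Prod.ext (funext fun μ => Subtype.ext (h1 μ)) h2

@[simp] theorem fst_mk (n : U → RingHom.ker T.res) (l : k) : (mk n l).fst = n := rfl
@[simp] theorem snd_mk (n : U → RingHom.ker T.res) (l : k) : (mk n l).snd = l := rfl
@[simp] theorem fst_add (v w : EMod T) : (v + w).fst = v.fst + w.fst := rfl
@[simp] theorem snd_add (v w : EMod T) : (v + w).snd = v.snd + w.snd := rfl
@[simp] theorem fst_sub (v w : EMod T) : (v - w).fst = v.fst - w.fst := rfl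
@[simp] theorem snd_sub (v w : EMod T) : (v - w).snd = v.snd - w.snd := rfl
@[simp] theorem fst_zero : (0 : EMod T).fst = 0 := rfl
@[simp] theorem snd_zero : (0 : EMod T).snd = 0 := rfl

instance : SMul A (EMod T) :=
  ⟨fun a v => mk (a • v.fst) (T.res a * v.snd + ∑ μ, T.phi μ (T.der a) (T.der (v.fst μ)))⟩

@[simp] theorem fst_smul (a : A) (v : EMod T) : (a • v).fst = a • v.fst := rfl
theorem snd_smul (a : A) (v : EMod T) :
    (a • v).snd = T.res a * v.snd + ∑ μ, T.phi μ (T.der a) (T.der (v.fst μ)) := rfl

theorem der_one : T.der 1 = 0 := by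
  have := T.leib 1 1
  simp only [mul_one, map_one, one_smul] at this
  simpa using this

theorem res_fst (v : EMod T) (μ : U) : T.res (v.fst μ) = 0 := (v.fst μ).2

instance : Module A (EMod T) where
  one_smul v := ext' (fun μ => by simp) (by simp [snd_smul, der_one])
  mul_smul a b v := ext' (fun μ => by simp [mul_smul]) (by
    simp only [snd_smul, fst_smul, Pi.smul_apply, SetLike.val_smul, smul_eq_mul, T.leib, res_fst,
      zero_smul, add_zero, map_add, map_smul, LinearMap.add_apply, LinearMap.smul_apply, map_mul,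
      Finset.sum_add_distrib, mul_add, Finset.mul_sum]
    ring)
  smul_zero a := ext' (fun μ => by simp) (by simp [snd_smul])
  smul_add a v w := ext' (fun μ => by simp) (by
    simp only [snd_smul, fst_add, snd_add, Pi.add_apply, Submodule.coe_add, map_add,
      Finset.sum_add_distrib]
    ring)
  add_smul a b v := ext' (fun μ => by simp [add_smul]) (by
    simp only [snd_smul, snd_add, map_add, LinearMap.add_apply, Finset.sum_add_distrib]
    ring)
  zero_smul v := ext' (fun μ => by simp) (by simp [snd_smul])

/-- First component as a linear map. -/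
def fstL (T : EData A k V U) : EMod T →ₗ[A] (U → RingHom.ker T.res) where
  toFun := fst
  map_add' := fst_add
  map_smul' := fst_smul

/-- One coordinate of the first component. -/
def fstC (T : EData A k V U) (μ : U) : EMod T →ₗ[A] A where
  toFun v := v.fst μ
  map_add' _ _ := rfl
  map_smul' _ _ := rfl

/-- Second component as an additive map. -/
def sndH (T : EData A k V U) : EMod T →+ k where
  toFun := snd
  map_zero' := rfl
  map_add' := snd_add

theorem finite [IsNoetherianRing A] : Module.Finite A (EMod T) := by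
  refine ⟨Submodule.fg_of_fg_map_of_fg_inf_ker (fstL T) (IsNoetherian.noetherian _) ?_⟩
  refine ⟨{mk 0 1}, le_antisymm ?_ ?_⟩
  · rw [Submodule.span_le]
    intro v hv
    simp only [Finset.coe_singleton, Set.mem_singleton_iff] at hv
    subst hv
    exact ⟨trivial, rfl⟩
  · rintro v ⟨-, hv⟩
    obtain ⟨a, ha⟩ := T.surj v.snd
    have hv' : v.fst = 0 := hv
    rw [Finset.coe_singleton, Submodule.mem_span_singleton]
    exact ⟨a, ext' (fun μ => by simp [hv']) (by simp [snd_smul, ha])⟩

end EMod

variable {J : Type} [Fintype J]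

/-- The connecting map. -/
def Psi (T : EData A k V U) (D : Matrix J J A) (w : U → J → k) : J → k :=
  fun a => ∑ μ, ∑ b, ∑ c, T.phi μ (T.der (D a b)) (T.der (D b c)) * w μ c

open EMod

theorem fst_act (T : EData A k V U) (D : Matrix J J A) (v : J → EMod T) (μ : U) :
    (fun a => ((act D v a).fst μ : A)) = act D fun b => ((v b).fst μ : A) :=
  (act_map D (fstC T μ) v).symm

theorem snd_act (T : EData A k V U) {D : Matrix J J A} (hres : ∀ a b, T.res (D a b) = 0)
    (v : J → EMod T) (a : J) :
    (act D v a).snd = ∑ μ, ∑ b, T.phi μ (T.der (D a b)) (T.der ((v b).fst μ)) := by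
  change sndH T (∑ b, D a b • v b) = _
  rw [map_sum, Finset.sum_comm]
  refine Finset.sum_congr rfl fun b _ => ?_
  change (D a b • v b).snd = _
  rw [snd_smul, hres, zero_mul, zero_add]

theorem res_act (T : EData A k V U) {D : Matrix J J A} (hres : ∀ a b, T.res (D a b) = 0)
    (w : J → A) (a : J) : T.res (act D w a) = 0 := by
  simp [act, hres]

theorem snd_act_psi (T : EData A k V U) {D : Matrix J J A} (hres : ∀ a b, T.res (D a b) = 0)
    (v : J → EMod T) (w : U → J → A) (h : ∀ μ b, ((v b).fst μ : A) = act D (w μ) b) (a : J) :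
    (act D v a).snd = Psi T D (fun μ c => T.res (w μ c)) a := by
  rw [snd_act T hres]
  refine Finset.sum_congr rfl fun μ _ => Finset.sum_congr rfl fun b _ => ?_
  rw [h]
  simp only [act, smul_eq_mul, map_sum, T.leib, hres, zero_smul, zero_add, map_smul, smul_eq_mul]
  exact Finset.sum_congr rfl fun c _ => mul_comm _ _

theorem ex_emod (T : EData A k V U) {deg : J → ℕ} {D : Matrix J J A} (hD : Hg deg D)
    (hDD : D * D = 0) (hres : ∀ a b, T.res (D a b) = 0) {n : ℕ} (hA : Ex deg D n A)
    (hinj : ∀ w : U → J → k, (∀ μ, Dg deg (n + 1) (w μ)) → Psi T D w = 0 → w = 0)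
    (hsurj : ∀ l : J → k, Dg deg n l →
      ∃ w : U → J → k, (∀ μ, Dg deg (n + 2) (w μ)) ∧ Psi T D w = l) :
    Ex deg D n (EMod T) := by
  intro v hv hc
  have h1 : ∀ μ, Bd deg D n fun b => ((v b).fst μ : A) := fun μ =>
    hA _ (fun a ha => by rw [hv a ha]; rfl) (by rw [← fst_act, hc]; rfl)
  choose w hw hwv using h1
  have h2 := hinj (fun μ c => T.res (w μ c)) (fun μ a ha => by simp [hw μ a ha]) (by
    funext a
    rw [← snd_act_psi T hres v w (fun μ b => (congrFun (hwv μ) b).symm), hc]; rfl)
  have h3 : ∀ μ c, w μ c ∈ RingHom.ker T.res := fun μ c => congrFun (congrFun h2 μ) c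
  let u : J → EMod T := fun c => mk (fun μ => ⟨w μ c, h3 μ c⟩) 0
  have hu : Dg deg (n + 1) u := fun a ha => ext' (fun μ => hw μ a ha) rfl
  have h4 : Dg deg n (v - act D u) := hv.sub (hu.act hD)
  obtain ⟨w', hw', hl⟩ := hsurj (fun a => ((v - act D u) a).snd) fun a ha =>
    congrArg snd (h4 a ha)
  choose sec hsec using T.surj
  let w'' : U → J → A := fun μ => pj deg (n + 2) fun c => sec (w' μ c)
  have h5 : (fun μ c => T.res (w'' μ c)) = w' := by
    funext μ c
    by_cases hc : deg c = n + 2
    · simp [w'', pj, hc, hsec]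
    · simp [w'', pj, hc, hw' μ c hc]
  let u' : J → EMod T := fun b => mk (fun μ => ⟨act D (w'' μ) b, res_act T hres _ _⟩) 0
  have hu' : Dg deg (n + 1) u' := fun a ha =>
    ext' (fun μ => ((dg_pj (n + 2) _).act hD) a ha) rfl
  refine ⟨u + u', hu.add hu', ?_⟩
  rw [act_add, ← eq_sub_iff_add_eq']
  funext a
  refine ext' (fun μ => ?_) ?_
  · have e1 := congrFun (fst_act T D u' μ) a
    have e2 := congrFun (fst_act T D u μ) a
    have e3 := congrFun (hwv μ) a
    have e4 := congrFun (act_act hDD (w'' μ)) a
    rw [e1, Pi.sub_apply, fst_sub, Pi.sub_apply, Submodule.coe_sub, e2, ← e3]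
    exact e4.trans (sub_self _).symm
  · rw [snd_act_psi T hres u' w'' (fun _ _ => rfl), h5, hl]

theorem not_ex_emod (T : EData A k V U) {deg : J → ℕ} {D : Matrix J J A}
    (hres : ∀ a b, T.res (D a b) = 0) {n : ℕ} (hn : ∀ a, deg a ≤ n) {a0 : J}
    (h0 : deg a0 = n) : ¬ Ex deg D n (EMod T) := by
  classical
  intro h
  let v : J → EMod T := fun a => mk 0 (if a = a0 then 1 else 0)
  obtain ⟨w, hw, hwv⟩ := h v (fun a ha => by
    have : a ≠ a0 := by rintro rfl; exact ha h0
    exact ext' (fun _ => rfl) (by simp [v, this])) (by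
    funext a
    refine ext' (fun μ => ?_) ?_
    · rw [congrFun (fst_act T D v μ) a]
      simp [act, v]
    · rw [snd_act T hres]; simp [v])
  have : w = 0 := funext fun a => hw a (by have := hn a; omega)
  rw [this, act_zero] at hwv
  have h1 := congrArg EMod.snd (congrFun hwv a0)
  simp [v] at h1

end Pool.Agent.Lib.MP_fa2e84_al
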