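import Pool.Agent.Lib.MP_fa2e84_al.Assemble

/-! The explicit complex and its homotopies, over any commutative ring. -/

set_option linter.unusedSectionVars false
set_option maxHeartbeats 400000
set_option synthInstance.maxSize 2048

namespace Pool.Agent.Lib.MP_fa2e84_al

open Sum

theorem bh_of_lin {S I3 I2 I1 I0 : Type} [CommRing S] [Fintype I3] [Fintype I2] [Fintype I1]
    [Fintype I0] [DecidableEq I3] [DecidableEq I2] [DecidableEq I1] [DecidableEq I0]
    (p : (I3 → S) →ₗ[S] (I2 → S)) (q : (I2 → S) →ₗ[S] (I1 → S)) (r : (I1 → S) →ₗ[S] (I0 → S))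
    (s3 : (I2 → S) →ₗ[S] (I3 → S)) (s2 : (I1 → S) →ₗ[S] (I2 → S)) (s1 : (I0 → S) →ₗ[S] (I1 → S))
    (x : S) (h3 : ∀ v, s3 (p v) = x • v) (h2 : ∀ v, p (s3 v) + s2 (q v) = x • v)
    (h1 : ∀ v, q (s2 v) + s1 (r v) = x • v) :
    BH (LinearMap.toMatrix' p) (LinearMap.toMatrix' q) (LinearMap.toMatrix' r) x := by
  refine ⟨LinearMap.toMatrix' s3, LinearMap.toMatrix' s2, LinearMap.toMatrix' s1, ?_, ?_, ?_⟩
  · rw [← LinearMap.toMatrix'_comp, ← LinearMap.toMatrix'_id, ← map_smul]
    exact congrArg _ (LinearMap.ext h3)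
  · rw [← LinearMap.toMatrix'_comp, ← LinearMap.toMatrix'_comp, ← map_add,
      ← LinearMap.toMatrix'_id, ← map_smul]
    exact congrArg _ (LinearMap.ext h2)
  · rw [← LinearMap.toMatrix'_comp, ← LinearMap.toMatrix'_comp, ← map_add,
      ← LinearMap.toMatrix'_id, ← map_smul]
    exact congrArg _ (LinearMap.ext h1)

/-- The parameters of the construction. -/
structure Par (S N K : Type) where
  y : N → S
  t : N → S
  a : K → Bool → Bool → S
  piv : N → K

/-- Rows of the second matrix. -/
abbrev LT (N K : Type) : Type := N × (Bool × N) × ((N × K) × Bool)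

/-- Rows of the third matrix. -/
abbrev HT (N K : Type) : Type :=
  (N × N × (Bool × N) × ((N × K) × Bool)) ⊕ (N × (Bool × N) × (Bool × N) × ((N × K) × Bool))

namespace Par

variable {S N K : Type} [CommRing S] (P : Par S N K)

/-- Determinant of a pivot block. -/
def dl (π : N) : S :=
  P.a (P.piv π) false false * P.a (P.piv π) true true -
    P.a (P.piv π) false true * P.a (P.piv π) true false

/-- Adjugate of a pivot block applied to a pair. -/
def adj (π : N) (u0 u1 : S) : Bool → S
  | false => P.a (P.piv π) true true * u0 - P.a (P.piv π) false true * u1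
  | true => P.a (P.piv π) false false * u1 - P.a (P.piv π) true false * u0

/-- The operators cutting out the image of the first matrix. -/
def E : Bool × N → ((N × K) × Bool → S) → (N × K) × Bool → S
  | (false, π), v, j => P.y π * v j - P.y j.1.1 * v ((π, j.1.2), j.2)
  | (true, π), v, j => P.dl π * v j -
      (P.a j.1.2 j.2 false * P.adj π (v ((j.1.1, P.piv π), false)) (v ((j.1.1, P.piv π), true)) false
      + P.a j.1.2 j.2 true * P.adj π (v ((j.1.1, P.piv π), false)) (v ((j.1.1, P.piv π), true)) true)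

/-- The operators relating two of the previous ones. -/
def Cm : Bool × N → Bool × N → ((N × K) × Bool → S) → (N × K) × Bool → S
  | (false, π), (false, _), v, j => P.y π * v j
  | (true, π), (true, _), v, j => P.dl π * v j
  | (false, π), (true, _), v, j => P.E (false, π) v j
  | (true, π), (false, _), v, j => P.E (true, π) v j

/-- First map. -/
def pL : (Bool → S) →ₗ[S] ((N × K) × Bool → S) where
  toFun v j := P.y j.1.1 * (P.a j.1.2 j.2 false * v false + P.a j.1.2 j.2 true * v true)
  map_add' v w := by funext j; simp only [Pi.add_apply]; ring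
  map_smul' c v := by funext j; simp only [Pi.smul_apply, smul_eq_mul, RingHom.id_apply]; ring

/-- Second map. -/
def qL : ((N × K) × Bool → S) →ₗ[S] (LT N K → S) where
  toFun v l := P.t l.1 * P.E l.2.1 v l.2.2
  map_add' v w := by
    funext ⟨σ, ⟨b, π⟩, j⟩; cases b <;> simp only [Pi.add_apply, E, adj] <;> ring
  map_smul' c v := by
    funext ⟨σ, ⟨b, π⟩, j⟩
    cases b <;> simp only [Pi.smul_apply, smul_eq_mul, RingHom.id_apply, E, adj] <;> ring

/-- Third map. -/
def eL : (LT N K → S) →ₗ[S] (HT N K → S) where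
  toFun u h := match h with
    | inl z => P.t z.2.1 * u (z.1, z.2.2) - P.t z.1 * u (z.2.1, z.2.2)
    | inr z => P.Cm z.2.1 z.2.2.1 (fun j => u (z.1, z.2.2.1, j)) z.2.2.2 -
        P.E z.2.2.1 (fun j => u (z.1, z.2.1, j)) z.2.2.2
  map_add' v w := by
    funext h
    rcases h with z | ⟨σ, ⟨b, π⟩, ⟨b', π'⟩, j⟩
    · simp only [Pi.add_apply]; ring
    · cases b <;> cases b' <;> simp only [Pi.add_apply, E, Cm, adj] <;> ring
  map_smul' c v := by
    funext h
    rcases h with z | ⟨σ, ⟨b, π⟩, ⟨b', π'⟩, j⟩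
    · simp only [Pi.smul_apply, smul_eq_mul, RingHom.id_apply]; ring
    · cases b <;> cases b' <;>
        simp only [Pi.smul_apply, smul_eq_mul, RingHom.id_apply, E, Cm, adj] <;> ring

/-- Homotopy in degree three. -/
def s3L (π : N) : ((N × K) × Bool → S) →ₗ[S] (Bool → S) where
  toFun v l := P.t π * P.adj π (v ((π, P.piv π), false)) (v ((π, P.piv π), true)) l
  map_add' v w := by funext l; cases l <;> simp only [Pi.add_apply, adj] <;> ring
  map_smul' c v := by
    funext l; cases l <;> simp only [Pi.smul_apply, smul_eq_mul, RingHom.id_apply, adj] <;> ring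

/-- Homotopy in degree two. -/
def s2L (π : N) : (LT N K → S) →ₗ[S] ((N × K) × Bool → S) where
  toFun u j := P.dl π * u (π, (false, π), j) + P.y j.1.1 * u (π, (true, π), ((π, j.1.2), j.2))
  map_add' v w := by funext j; simp only [Pi.add_apply]; ring
  map_smul' c v := by funext j; simp only [Pi.smul_apply, smul_eq_mul, RingHom.id_apply]; ring

/-- Homotopy in degree one. -/
def s1L (π : N) : (HT N K → S) →ₗ[S] (LT N K → S) where
  toFun h l := P.y π * P.dl π * h (inl (l.1, π, l.2)) +
    P.t l.1 * (P.dl π * h (inr (π, (false, π), l.2)) +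
      if l.2.1.1 then P.y l.2.2.1.1 * h (inr (π, (true, π), l.2.1, ((π, l.2.2.1.2), l.2.2.2)))
      else 0)
  map_add' v w := by
    funext l; simp only [Pi.add_apply]; split_ifs <;> ring
  map_smul' c v := by
    funext l; simp only [Pi.smul_apply, smul_eq_mul, RingHom.id_apply]; split_ifs <;> ring

theorem pL_apply (v j) : P.pL v j =
    P.y j.1.1 * (P.a j.1.2 j.2 false * v false + P.a j.1.2 j.2 true * v true) := rfl

theorem qL_apply (v l) : P.qL v l = P.t l.1 * P.E l.2.1 v l.2.2 := rfl

theorem eL_inl (u z) : P.eL u (inl z) = P.t z.2.1 * u (z.1, z.2.2) - P.t z.1 * u (z.2.1, z.2.2) :=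
  rfl

theorem eL_inr (u z) : P.eL u (inr z) =
    P.Cm z.2.1 z.2.2.1 (fun j => u (z.1, z.2.2.1, j)) z.2.2.2 -
      P.E z.2.2.1 (fun j => u (z.1, z.2.1, j)) z.2.2.2 := rfl

theorem s3L_apply (π v l) : P.s3L π v l =
    P.t π * P.adj π (v ((π, P.piv π), false)) (v ((π, P.piv π), true)) l := rfl

theorem s2L_apply (π u j) : P.s2L π u j =
    P.dl π * u (π, (false, π), j) + P.y j.1.1 * u (π, (true, π), ((π, j.1.2), j.2)) := rfl

theorem s1L_apply (π h l) : P.s1L π h l = P.y π * P.dl π * h (inl (l.1, π, l.2)) +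
    P.t l.1 * (P.dl π * h (inr (π, (false, π), l.2)) +
      if l.2.1.1 then P.y l.2.2.1.1 * h (inr (π, (true, π), l.2.1, ((π, l.2.2.1.2), l.2.2.2)))
      else 0) := rfl

theorem qp (v) : P.qL (P.pL v) = 0 := by
  funext ⟨σ, ⟨b, π⟩, j⟩
  cases b <;> simp only [qL_apply, pL_apply, E, adj, dl, Pi.zero_apply] <;> ring

theorem eq (v) : P.eL (P.qL v) = 0 := by
  funext h
  rcases h with z | ⟨σ, ⟨b, π⟩, ⟨b', π'⟩, j⟩
  · simp only [eL_inl, qL_apply, Pi.zero_apply]; ring
  · cases b <;> cases b' <;> simp only [eL_inr, qL_apply, E, Cm, adj, dl, Pi.zero_apply] <;> ring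

theorem h3 (π v) : P.s3L π (P.pL v) = (P.t π * P.y π * P.dl π) • v := by
  funext l
  cases l <;> simp only [s3L_apply, pL_apply, adj, dl, Pi.smul_apply, smul_eq_mul] <;> ring

theorem h2 (π v) : P.pL (P.s3L π v) + P.s2L π (P.qL v) = (P.t π * P.y π * P.dl π) • v := by
  funext j
  simp only [Pi.add_apply, s3L_apply, pL_apply, s2L_apply, qL_apply, E, adj, dl, Pi.smul_apply,
    smul_eq_mul]
  ring

theorem h1 (π u) : P.qL (P.s2L π u) + P.s1L π (P.eL u) = (P.t π * P.y π * P.dl π) • u := by
  funext ⟨σ, ⟨b, ρ⟩, j⟩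
  cases b <;> simp only [Pi.add_apply, s1L_apply, s2L_apply, qL_apply, eL_inl, eL_inr, E, Cm, adj,
    dl, Pi.smul_apply, smul_eq_mul, Bool.false_eq_true, if_false, if_true] <;> ring

end Par

end Pool.Agent.Lib.MP_fa2e84_al
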