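import Pool.Agent.Lib.MP_fa2e84_al.Descent

/-! Nonzero polynomials in pairwise disjoint sets of variables form a regular sequence. -/

set_option linter.unusedSectionVars false
set_option maxHeartbeats 400000

namespace Pool.Agent.Lib.MP_fa2e84_al

open MvPolynomial

variable {k Var : Type} [Field k]

theorem map_mul_eq_zero {B : Type} [CommRing B] [Algebra k B] {g : MvPolynomial Var k} (hg : g ≠ 0)
    {h : MvPolynomial Var B} (h0 : map (algebraMap k B) g * h = 0) : h = 0 := by
  classical
  ext m
  rw [coeff_zero, ← Module.forall_dual_apply_eq_zero_iff k]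
  intro lam
  let h' : MvPolynomial Var k := ∑ a ∈ h.support, monomial a (lam (coeff a h))
  have hc : ∀ a, coeff a h' = lam (coeff a h) := by
    intro a
    simp only [h', coeff_sum, coeff_monomial, Finset.sum_ite_eq', mem_support_iff]
    split_ifs with ha
    · rfl
    · rw [not_not.1 ha, map_zero]
  have h1 : g * h' = 0 := by
    ext a
    have := congrArg (fun f => lam (coeff a f)) h0
    simp only [coeff_mul, coeff_map, map_sum, coeff_zero, map_zero, ← Algebra.smul_def,
      map_smul, smul_eq_mul] at this
    simp only [coeff_mul, hc, coeff_zero, this]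
  rw [← hc, (mul_eq_zero.1 h1).resolve_left hg, coeff_zero]

theorem regF_of_colour {n : ℕ} (col : Var → Fin n) (x : Fin n → MvPolynomial Var k)
    (hx : ∀ ρ, x ρ ≠ 0) (hs : ∀ ρ, x ρ ∈ supported k {v | col v = ρ}) : RegF x := by
  classical
  intro ρ f hf
  let φ : MvPolynomial Var k →ₐ[k] MvPolynomial Var (MvPolynomial Var k) :=
    aeval fun v => if col v = ρ then X v else C (X v)
  let ψ : MvPolynomial Var (MvPolynomial Var k) →+* MvPolynomial Var k := eval X
  have hψ : ∀ g, ψ (φ g) = g := by
    intro g
    induction g using MvPolynomial.induction_on with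
    | C a => simp [φ, ψ, MvPolynomial.algebraMap_apply]
    | add p q hp hq => rw [map_add, map_add, hp, hq]
    | mul_X p v hp =>
      rw [map_mul, map_mul, hp]
      by_cases h : col v = ρ <;> simp [φ, ψ, h]
  have h1 : ∀ g ∈ supported k {v | col v = ρ}, φ g = map (algebraMap k _) g := by
    intro g hg
    induction hg using Algebra.adjoin_induction with
    | mem g hg =>
      obtain ⟨v, hv, rfl⟩ := hg
      have : col v = ρ := hv
      simp [φ, this]
    | algebraMap a => simp [φ, MvPolynomial.algebraMap_apply]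
    | add a b _ _ ha hb => rw [map_add, map_add, ha, hb]
    | mul a b _ _ ha hb => rw [map_mul, map_mul, ha, hb]
  have h2 : ∀ σ, σ ≠ ρ → ∀ g ∈ supported k {v | col v = σ}, φ g = C g := by
    intro σ hσ g hg
    induction hg using Algebra.adjoin_induction with
    | mem g hg =>
      obtain ⟨v, hv, rfl⟩ := hg
      have h3 : col v = σ := hv
      simp [φ, h3, hσ]
    | algebraMap a => simp [φ, MvPolynomial.algebraMap_apply]
    | add a b _ _ ha hb => rw [map_add, map_add, ha, hb]
    | mul a b _ _ ha hb => rw [map_mul, map_mul, ha, hb]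
  set I := Ideal.span (x '' {σ | σ < ρ}) with hI
  have h3 : ∀ g ∈ I, φ g ∈ Ideal.map (C : _ →+* MvPolynomial Var (MvPolynomial Var k)) I := by
    intro g hg
    induction hg using Submodule.span_induction with
    | mem g hg =>
      obtain ⟨σ, hσ, rfl⟩ := hg
      rw [h2 σ (ne_of_lt hσ) _ (hs σ)]
      exact Ideal.mem_map_of_mem _ (Ideal.subset_span ⟨σ, hσ, rfl⟩)
    | zero => simp
    | add a b _ _ ha hb => rw [map_add]; exact add_mem ha hb
    | smul a b _ hb => rw [smul_eq_mul, map_mul]; exact Ideal.mul_mem_left _ _ hb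
  have h4 : ∀ g, g ∈ Ideal.map (C : _ →+* MvPolynomial Var (MvPolynomial Var k)) I ↔
      map (Ideal.Quotient.mk I) g = 0 := by
    intro g
    rw [mem_map_C_iff, MvPolynomial.ext_iff]
    simp only [coeff_map, coeff_zero, Ideal.Quotient.eq_zero_iff_mem]
  have h5 := (h4 _).1 (h3 _ hf)
  rw [map_mul, map_mul, h1 _ (hs ρ), map_map] at h5
  have h6 := (h4 _).2 (map_mul_eq_zero (hx ρ) h5)
  have h7 := Ideal.mem_map_of_mem ψ h6
  rw [hψ, Ideal.map_map] at h7
  have h8 : ψ.comp C = RingHom.id _ := by
    refine RingHom.ext fun g => ?_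
    simp [ψ]
  rwa [h8, Ideal.map_id] at h7

end Pool.Agent.Lib.MP_fa2e84_al
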