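import Pool.Agent.Lib.MP_fa2e84_al.Veronese
import Pool.Agent.Lib.MP_fa2e84_al.RegVars

/-! Polynomial matrices: removing dependent rows and adding generic coefficients. -/

set_option linter.unusedSectionVars false
set_option maxHeartbeats 400000

namespace Pool.Agent.Lib.MP_fa2e84_al

open MvPolynomial

/-- A complex of polynomial matrices that is split exact away from eight independent
hypersurfaces, together with functionals detecting its entries. -/
structure Pre (k : Type) [Field k] {Var : Type} (w : Var → ℕ) (col : Var → Fin 8)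
    (I3 I2 L H : Type) [Fintype I3] [Fintype I2] [Fintype L] [Fintype H] [DecidableEq I3]
    [DecidableEq I2] [DecidableEq L] [DecidableEq H] where
  p : Matrix I2 I3 (MvPolynomial Var k)
  q : Matrix L I2 (MvPolynomial Var k)
  η : Matrix H L (MvPolynomial Var k)
  wt : H → ℕ
  dg : H → ℕ
  wt_ne : ∀ i, wt i ≠ 0
  wt_dg : ∀ i, wt i + dg i = 3
  hp : ∀ j l, IsWeightedHomogeneous w (p j l) 3
  hq : ∀ j l, IsWeightedHomogeneous w (q j l) 3
  hη : ∀ i l, IsWeightedHomogeneous w (η i l) (dg i)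
  qp : q * p = 0
  ηq : η * q = 0
  x : Fin 8 → MvPolynomial Var k
  bh : ∀ ρ, BH p q η (x ρ)
  x_ne : ∀ ρ, x ρ ≠ 0
  x_hom : ∀ ρ, ∃ n, IsWeightedHomogeneous w (x ρ) n
  x_supp : ∀ ρ, x ρ ∈ supported k {v | col v = ρ}
  ps : I2 → I3 → MvPolynomial Var k →ₗ[k] k
  ps_p : ∀ j l j' l', ps j l (p j' l') = if j' = j ∧ l' = l then 1 else 0
  ps_q : ∀ j l i j', ps j l (q i j') = 0
  χ : I2 → L → MvPolynomial Var k →ₗ[k] k
  χ_q : ∀ j0 j, ∑ i, χ j0 i (q i j) = if j = j0 then 1 else 0
  lam : L → H → MvPolynomial Var k →ₗ[k] k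
  lam_η : ∀ l0 l, ∑ i, lam l0 i (η i l) = if l = l0 then 1 else 0

variable {k : Type} [Field k] {Var : Type} {w : Var → ℕ} {col : Var → Fin 8} {I3 I2 L H : Type}
  [Fintype I3] [Fintype I2] [Fintype L] [Fintype H] [DecidableEq I3] [DecidableEq I2]
  [DecidableEq L] [DecidableEq H]

theorem Pre.prune (P : Pre k w col I3 I2 L H) :
    ∃ (I1 : Type) (_ : Fintype I1) (_ : DecidableEq I1), Fintype.card I1 ≤ Fintype.card L ∧
      ∃ (Q : Pre k w col I3 I2 I1 H) (ψ : I1 → I2 → MvPolynomial Var k →ₗ[k] k),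
        ∀ i0 i, ∑ j, ψ i0 j (Q.q i j) = if i = i0 then 1 else 0 := by
  classical
  obtain ⟨I1, a, ha, hspan, hli⟩ :=
    exists_linearIndependent' k (fun l => (P.q l : I2 → MvPolynomial Var k))
  let _ : Fintype I1 := Fintype.ofInjective a ha
  have h1 : ∀ l, ∃ c : I1 → k, ∑ i, c i • (P.q (a i) : I2 → MvPolynomial Var k) = P.q l := by
    intro l
    refine (Submodule.mem_span_range_iff_exists_fun k).1 ?_
    have : (P.q l : I2 → MvPolynomial Var k) ∈ Submodule.span k
      (Set.range fun l => (P.q l : I2 → MvPolynomial Var k)) := Submodule.subset_span ⟨l, rfl⟩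
    rw [← hspan] at this
    exact this
  choose c hc using h1
  have hc' : ∀ l j, ∑ i, c l i • P.q (a i) j = P.q l j := fun l j => by
    simpa [Finset.sum_apply] using congrFun (hc l) j
  have h2 : ∀ i i', c (a i) i' = if i' = i then 1 else 0 := by
    intro i
    refine Fintype.linearIndependent_iffₛ.1 hli _ _ ?_
    simp only [Function.comp_apply, hc, ite_smul, one_smul, zero_smul, Finset.sum_ite_eq',
      Finset.mem_univ, if_true]
  let Cm : Matrix L I1 (MvPolynomial Var k) := Matrix.of fun l i => C (c l i)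
  have h3 : Cm * P.q.submatrix a id = P.q := by
    ext l j : 2
    simp only [Matrix.mul_apply, Cm, Matrix.of_apply, Matrix.submatrix_apply, id, C_mul', hc']
  have h4 : Cm.submatrix a id = 1 := by
    ext i i' : 2
    simp only [Cm, Matrix.submatrix_apply, Matrix.of_apply, id, h2, Matrix.one_apply]
    by_cases h : i = i'
    · simp [h]
    · simp [h, Ne.symm h]
  have sub : ∀ {K K' : Type} [Fintype K] (m : Matrix L K (MvPolynomial Var k))
      (n : Matrix K K' (MvPolynomial Var k)), m.submatrix a id * n = (m * n).submatrix a id :=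
    fun m n => rfl
  obtain ⟨g, hg⟩ := LinearMap.exists_leftInverse_of_injective
    (Finsupp.linearCombination k ((fun l => (P.q l : I2 → MvPolynomial Var k)) ∘ a))
    (LinearMap.ker_eq_bot.2 hli)
  refine ⟨I1, inferInstance, inferInstance, Fintype.card_le_of_injective a ha,
    { p := P.p, q := P.q.submatrix a id, η := P.η * Cm, wt := P.wt, dg := P.dg, wt_ne := P.wt_ne
      wt_dg := P.wt_dg, hp := P.hp, hq := fun i j => P.hq _ _, hη := ?_, qp := ?_, ηq := ?_
      x := P.x, bh := ?_, x_ne := P.x_ne, x_hom := P.x_hom, x_supp := P.x_supp, ps := P.ps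
      ps_p := P.ps_p, ps_q := fun j l i j' => P.ps_q _ _ _ _
      χ := fun j0 i => ∑ l, c l i • P.χ j0 l, χ_q := ?_
      lam := fun i0 => P.lam (a i0), lam_η := ?_ },
    fun i0 j => (Finsupp.lapply i0).comp 
      (g.comp (LinearMap.single k (fun _ => MvPolynomial Var k) j)), ?_⟩
  · intro i l
    rw [Matrix.mul_apply]
    refine IsWeightedHomogeneous.sum _ _ _ fun l' _ => ?_
    rw [mul_comm]; exact (P.hη i l').C_mul _
  · rw [sub, P.qp]; rfl
  · rw [Matrix.mul_assoc, h3, P.ηq]
  · intro ρ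
    obtain ⟨s3, s2, s1, k3, k2, k1⟩ := P.bh ρ
    refine ⟨s3, s2 * Cm, s1.submatrix a id, k3, by rw [Matrix.mul_assoc, h3, k2], ?_⟩
    have k4 : (P.q * (s2 * Cm) + s1 * (P.η * Cm)).submatrix a id = P.x ρ • 1 := by
      rw [← Matrix.mul_assoc, ← Matrix.mul_assoc, ← Matrix.add_mul, k1, Matrix.smul_mul,
        Matrix.one_mul, ← h4]
      rfl
    rw [sub, sub, ← k4]
    rfl
  · intro j0 j
    simp only [LinearMap.sum_apply, LinearMap.smul_apply, Matrix.submatrix_apply, id]
    rw [Finset.sum_comm, ← P.χ_q]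
    refine Finset.sum_congr rfl fun l _ => ?_
    rw [← hc' l j, map_sum]
    simp only [map_smul]
  · intro i0 i
    simp only [Matrix.mul_apply, Cm, Matrix.of_apply, map_sum, mul_comm _ (C _), C_mul', map_smul]
    rw [Finset.sum_comm]
    simp only [← Finset.mul_sum, P.lam_η, smul_eq_mul, mul_ite, mul_one, mul_zero,
      Finset.sum_ite_eq', Finset.mem_univ, if_true, h2]
  · intro i0 i
    have h5 := LinearMap.congr_fun hg (Finsupp.single i 1)
    simp only [LinearMap.comp_apply, Finsupp.linearCombination_single, one_smul,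
      Function.comp_apply, LinearMap.id_apply] at h5
    simp only [LinearMap.comp_apply, ← map_sum, Matrix.submatrix_apply, id]
    have h6 : ∑ j, LinearMap.single k (fun _ => MvPolynomial Var k) j (P.q (a i) j) =
        P.q (a i) := by
      funext j; simp [Finset.sum_apply, Pi.single_apply]
    rw [h6, h5, Finsupp.lapply_apply, Finsupp.single_apply]

theorem BH.generic {S I0 : Type} [CommRing S] [Fintype I0] [DecidableEq I0] {p : Matrix I2 I3 S}
    {q : Matrix L I2 S} {η : Matrix H L S} {x : S} (h : BH p q η x) (τ : Matrix I0 H S)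
    (e : H → I0) : BH p q (τ * η) ((τ.submatrix e id).det * x) := by
  obtain ⟨s3, s2, s1, k3, k2, k1⟩ := h
  have h1 : (1 : Matrix I0 I0 S).submatrix e id * τ = τ.submatrix e id := by
    change ((1 : Matrix I0 I0 S) * τ).submatrix e id = _
    rw [Matrix.one_mul]
  refine ⟨(τ.submatrix e id).det • s3, (τ.submatrix e id).det • s2,
    s1 * (τ.submatrix e id).adjugate * (1 : Matrix I0 I0 S).submatrix e id, ?_, ?_, ?_⟩
  · rw [Matrix.smul_mul, k3, smul_smul]
  · rw [Matrix.smul_mul, Matrix.mul_smul, ← smul_add, k2, smul_smul]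
  · rw [Matrix.mul_assoc, ← Matrix.mul_assoc _ τ, h1, Matrix.mul_assoc, ← Matrix.mul_assoc _ _ η,
      Matrix.adjugate_mul, Matrix.smul_mul, Matrix.one_mul, Matrix.mul_smul, Matrix.mul_smul,
      ← smul_add, k1, smul_smul]

theorem homog_rename {Var' : Type} (f : Var → Var') (w' : Var' → ℕ) {g : MvPolynomial Var k}
    {n : ℕ} (h : IsWeightedHomogeneous (w' ∘ f) g n) : IsWeightedHomogeneous w' (rename f g) n := by
  intro d hd
  obtain ⟨u, rfl, hu⟩ := coeff_rename_ne_zero f g d hd
  rw [← h hu]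
  exact Finsupp.linearCombination_mapDomain ℕ f u

theorem supported_rename {Var' : Type} (f : Var → Var') {s : Set Var} {t : Set Var'}
    (hst : ∀ v ∈ s, f v ∈ t) {g : MvPolynomial Var k} (h : g ∈ supported k s) :
    rename f g ∈ supported k t := by
  induction h using Algebra.adjoin_induction with
  | mem g hg =>
    obtain ⟨v, hv, rfl⟩ := hg
    rw [rename_X]; exact X_mem_supported.2 (hst v hv)
  | algebraMap a => rw [AlgHom.commutes]; exact Subalgebra.algebraMap_mem _ a
  | add a b _ _ ha hb => rw [map_add]; exact add_mem ha hb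
  | mul a b _ _ ha hb => rw [map_mul]; exact mul_mem ha hb

theorem pderiv_inr_rename {W : Type} (y : W) (g : MvPolynomial Var k) :
    pderiv (Sum.inr y) (rename (Sum.inl : Var → Var ⊕ W) g) = 0 := by
  induction g using MvPolynomial.induction_on with
  | C a => simp
  | add p q hp hq => rw [map_add, map_add, hp, hq, add_zero]
  | mul_X p v hp => simp [hp]

theorem Pre.goal [CharP k 2] [Fintype Var] (hw : ∀ v, w v ≠ 0) (P : Pre k w col I3 I2 L H)
    (ψ : L → I2 → MvPolynomial Var k →ₗ[k] k)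
    (hψ : ∀ i0 i, ∑ j, ψ i0 j (P.q i j) = if i = i0 then 1 else 0) {I0 : Type} [Fintype I0]
    [DecidableEq I0] (hc : 8 * Fintype.card H ≤ Fintype.card I0) (hW : Works k I3 I2 L I0) :
    Goal := by
  classical
  obtain ⟨emb⟩ : Nonempty (Fin 8 × H ↪ I0) :=
    Function.Embedding.nonempty_of_card_le (by simpa using hc)
  let w2 : Var ⊕ I0 × H → ℕ := Sum.elim w fun y => P.wt y.2
  let col2 : Var ⊕ I0 × H → Fin 8 :=
    Sum.elim col fun y => Function.extend emb Prod.fst (fun _ => 0) y.1
  let ι : MvPolynomial Var k →ₐ[k] MvPolynomial (Var ⊕ I0 × H) k := rename Sum.inl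
  let κ : MvPolynomial (Var ⊕ I0 × H) k →ₐ[k] MvPolynomial Var k := aeval (Sum.elim X 0)
  have hκ : ∀ g, κ (ι g) = g := by
    intro g
    simp only [κ, ι, aeval_rename, Sum.elim_comp_inl, aeval_X_left_apply]
  have hι : Function.Injective ι := Function.LeftInverse.injective hκ
  let τ : Matrix I0 H (MvPolynomial (Var ⊕ I0 × H) k) := Matrix.of fun x i => X (Sum.inr (x, i))
  have hom : ∀ {g n}, IsWeightedHomogeneous w g n → IsWeightedHomogeneous w2 (ι g) n :=
    fun h => homog_rename Sum.inl w2 h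
  have hr : ∀ x i, (τ * P.η.map ι.toRingHom) x i = ∑ h, X (Sum.inr (x, h)) * ι (P.η h i) :=
    fun x i => rfl
  have hκr : ∀ x i, κ ((τ * P.η.map ι.toRingHom) x i) = 0 := by
    intro x i
    rw [hr]
    simp [κ]
  let y : Fin 8 → MvPolynomial (Var ⊕ I0 × H) k :=
    fun ρ => (τ.submatrix (fun i => emb (ρ, i)) id).det * ι (P.x ρ)
  have y_ne : ∀ ρ, y ρ ≠ 0 := by
    intro ρ
    refine mul_ne_zero (fun h => ?_) ((map_ne_zero_iff ι hι).2 (P.x_ne ρ))
    let ev : MvPolynomial (Var ⊕ I0 × H) k →+* k :=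
      eval (Sum.elim 0 fun z => if z.1 = emb (ρ, z.2) then 1 else 0)
    have h1 := congrArg ev h
    have h2 : ev.mapMatrix (τ.submatrix (fun i => emb (ρ, i)) id) = 1 := by
      ext i j
      simp [ev, τ, Matrix.one_apply]
    rw [RingHom.map_det, h2] at h1
    simp at h1
  have y_supp : ∀ ρ, y ρ ∈ supported k {v | col2 v = ρ} := by
    intro ρ
    refine mul_mem ?_ (supported_rename Sum.inl (fun v hv => hv) (P.x_supp ρ))
    rw [Matrix.det_apply']
    refine sum_mem fun σ _ => mul_mem (intCast_mem _ _) (prod_mem fun i _ => ?_)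
    exact X_mem_supported.2 (emb.injective.extend_apply Prod.fst (fun _ => 0) (ρ, σ i))
  refine veronese w2 hW ?_ (P.p.map ι.toRingHom) (P.q.map ι.toRingHom) (τ * P.η.map ι.toRingHom)
    ?_ ?_ (fun j l => hom (P.hp j l)) (fun j l => hom (P.hq j l)) ?_
    { ps := fun j l => (P.ps j l).comp κ.toLinearMap
      rs := fun x i => ∑ h, (P.lam i h).comp
        (κ.toLinearMap.comp (pderiv (Sum.inr (x, h))).toLinearMap)
      ψ := fun i j => (ψ i j).comp κ.toLinearMap
      χ := fun j i => (P.χ j i).comp κ.toLinearMap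
      ps_p := ?_, ps_q := ?_, ps_r := ?_, rs_r := ?_, rs_p := ?_, rs_q := ?_, ψ_q := ?_
      ψ_r := ?_, χ_q := ?_ } y (fun ρ => ((P.bh ρ).map ι.toRingHom).generic τ _) ?_
    (regF_of_colour col2 _ (fun ρ => mul_ne_zero (pow_ne_zero _ (y_ne ρ)) (pow_ne_zero _ (y_ne ρ)))
      fun ρ => mul_mem (pow_mem (y_supp ρ) _) (pow_mem (y_supp ρ) _))
  · rintro (v | v)
    · exact hw v
    · exact P.wt_ne _
  · rw [← Matrix.map_mul, P.qp]; ext a b : 2; simp
  · rw [Matrix.mul_assoc, ← Matrix.map_mul, P.ηq]; ext a b : 2; simp [Matrix.mul_apply]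
  · intro x i
    rw [hr]
    refine IsWeightedHomogeneous.sum _ _ _ fun h _ => ?_
    rw [← P.wt_dg h]
    exact (isWeightedHomogeneous_X k w2 (Sum.inr (x, h))).mul (hom (P.hη h i))
  · intro j l j' l'
    exact (congrArg (P.ps j l) (hκ _)).trans (P.ps_p j l j' l')
  · intro j l i j'
    exact (congrArg (P.ps j l) (hκ _)).trans (P.ps_q j l i j')
  · intro j l x i
    exact (congrArg (P.ps j l) (hκr x i)).trans (map_zero _)
  · intro x i x' i'
    have h1 : ∀ h, κ (pderiv (Sum.inr (x, h)) ((τ * P.η.map ι.toRingHom) x' i')) =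
        if x' = x then P.η h i' else 0 := by
      intro h
      rw [hr, map_sum]
      simp only [pderiv_mul, ι, pderiv_inr_rename, mul_zero, add_zero, pderiv_X, Pi.single_apply,
        Sum.inr.injEq, Prod.mk.injEq]
      by_cases hx : x' = x
      · simpa [hx] using hκ _
      · simp [hx]
    simp only [LinearMap.sum_apply, LinearMap.comp_apply, AlgHom.toLinearMap_apply,
      Derivation.coeFn_coe, h1]
    by_cases hx : x' = x
    · simp [hx, P.lam_η]
    · simp [hx]
  · intro x i j l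
    simp [LinearMap.sum_apply, ι, pderiv_inr_rename]
  · intro x i i' j
    simp [LinearMap.sum_apply, ι, pderiv_inr_rename]
  · intro i0 i
    rw [← hψ]
    exact Finset.sum_congr rfl fun j _ => congrArg (ψ i0 j) (hκ _)
  · intro i0 j x i
    exact (congrArg (ψ i0 j) (hκr x i)).trans (map_zero _)
  · intro j0 j
    rw [← P.χ_q]
    exact Finset.sum_congr rfl fun i _ => congrArg (P.χ j0 i) (hκ _)
  · intro ρ
    obtain ⟨n, hn⟩ := P.x_hom ρ
    refine ⟨∑ i, P.wt i + n, IsWeightedHomogeneous.mul ?_ (hom hn)⟩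
    rw [Matrix.det_apply']
    refine IsWeightedHomogeneous.sum _ _ _ fun σ _ => ?_
    rw [← map_intCast (C : k →+* MvPolynomial (Var ⊕ I0 × H) k)]
    exact (IsWeightedHomogeneous.prod _ _ P.wt fun i _ =>
      isWeightedHomogeneous_X k w2 (Sum.inr (emb (ρ, σ i), i))).C_mul _

theorem Pre.goal' [CharP k 2] [Fintype Var] (hw : ∀ v, w v ≠ 0) {Jt : Type} [Fintype Jt]
    [DecidableEq Jt] (P : Pre k w col Bool (Jt × Bool) L H)
    (hc : 2 * Fintype.card L < Fintype.card Jt ^ 2) : Goal := by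
  obtain ⟨I1, _, _, h1, Q, ψ, hψ⟩ := P.prune
  obtain ⟨I0, _, _, h0, hW⟩ := exists_works k (Jt := Jt) (I1 := I1) (by omega)
    (8 * Fintype.card H)
  exact Q.goal hw ψ hψ h0 hW

end Pool.Agent.Lib.MP_fa2e84_al
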