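import Pool.Agent.Lib.MP_fa2e84_al.Chase

/-! The tensor square of a complex in characteristic two, cokernels and reflexivity. -/

set_option linter.unusedSectionVars false

namespace Pool.Agent.Lib.MP_fa2e84_al

open Kronecker TensorProduct

variable {A : Type} [CommRing A] {J : Type} [Fintype J] [DecidableEq J]

/-- Total degree. -/
def deg2 (deg : J → ℕ) : J × J → ℕ := fun a => deg a.1 + deg a.2

/-- Differential of the tensor square (characteristic two). -/
def sq (D : Matrix J J A) : Matrix (J × J) (J × J) A :=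
  D ⊗ₖ (1 : Matrix J J A) + (1 : Matrix J J A) ⊗ₖ D

omit [Fintype J] in
theorem sq_apply (D : Matrix J J A) (a b : J × J) :
    sq D a b = (if a.2 = b.2 then D a.1 b.1 else 0) + (if a.1 = b.1 then D a.2 b.2 else 0) := by
  simp [sq, Matrix.kroneckerMap_apply, Matrix.one_apply]

omit [Fintype J] in
theorem Hg.sq {deg : J → ℕ} {D : Matrix J J A} (hD : Hg deg D) : Hg (deg2 deg) (sq D) := by
  rintro ⟨a, a'⟩ ⟨b, b'⟩ h
  rw [sq_apply] at h
  simp only [deg2]
  by_cases h1 : a' = b' ∧ D a b ≠ 0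
  · obtain ⟨rfl, h2⟩ := h1
    have := hD a b h2; omega
  · by_cases h3 : a = b ∧ D a' b' ≠ 0
    · obtain ⟨rfl, h2⟩ := h3
      have := hD a' b' h2; omega
    · exfalso; apply h
      push Not at h1 h3
      by_cases h4 : a' = b' <;> by_cases h5 : a = b <;> simp_all

theorem madd_self {K : Type} (h2 : (2 : A) = 0) (m : Matrix K K A) : m + m = 0 := by
  ext a b
  simp only [Matrix.add_apply, Matrix.zero_apply]
  rw [← two_mul, h2, zero_mul]

theorem sq_sq (h2 : (2 : A) = 0) {D : Matrix J J A} (hDD : D * D = 0) : sq D * sq D = 0 := by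
  simp only [sq, Matrix.add_mul, Matrix.mul_add, ← Matrix.mul_kronecker_mul, hDD, Matrix.mul_one,
    Matrix.one_mul, Matrix.zero_kronecker, Matrix.kronecker_zero, zero_add, add_zero]
  exact madd_self h2 _

theorem Htp.sq (h2 : (2 : A) = 0) {deg : J → ℕ} {D : Matrix J J A} {x : A}
    (h : Htp deg D x) : Htp (deg2 deg) (sq D) (x * x) := by
  obtain ⟨s, e, hs, h1, h3, he⟩ := h
  refine ⟨x • (s ⊗ₖ (1 : Matrix J J A)) + e ⊗ₖ s, e ⊗ₖ e, ?_, ?_, ?_, ?_⟩
  · have k1 : (D * s) ⊗ₖ (1 : Matrix J J A) + (s * D) ⊗ₖ (1 : Matrix J J A) =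
        x • (1 : Matrix (J × J) (J × J) A) + e ⊗ₖ (1 : Matrix J J A) := by
      rw [← Matrix.add_kronecker, hs, Matrix.add_kronecker, Matrix.smul_kronecker,
        Matrix.one_kronecker_one]
    have k2 : e ⊗ₖ (D * s) + e ⊗ₖ (s * D) = x • (e ⊗ₖ (1 : Matrix J J A)) + e ⊗ₖ e := by
      rw [← Matrix.kronecker_add, hs, Matrix.kronecker_add, Matrix.kronecker_smul]
    have k3 := madd_self h2 (x • (s ⊗ₖ D))
    have k4 := madd_self h2 (x • (e ⊗ₖ (1 : Matrix J J A)))
    simp only [Pool.Agent.Lib.MP_fa2e84_al.sq, Matrix.add_mul, Matrix.mul_add, Matrix.mul_smul,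
      Matrix.smul_mul,
      ← Matrix.mul_kronecker_mul, h1, h3, Matrix.mul_one,
      Matrix.one_mul, Matrix.zero_kronecker, zero_add, smul_add]
    rw [mul_smul]
    have k5 := congrArg (fun m => x • m) k1
    simp only [smul_add] at k5
    linear_combination (norm := abel) k5 + k2 + k3 + k4
  · simp [Pool.Agent.Lib.MP_fa2e84_al.sq, Matrix.mul_add, ← Matrix.mul_kronecker_mul, h1]
  · simp [Pool.Agent.Lib.MP_fa2e84_al.sq, Matrix.add_mul, ← Matrix.mul_kronecker_mul, h3]
  · rintro ⟨a, a'⟩ ⟨b, b'⟩ hab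
    simp only [Matrix.kroneckerMap_apply] at hab
    simp [deg2, he a b (left_ne_zero_of_mul hab), he a' b' (right_ne_zero_of_mul hab)]

section maps

variable {R : Type} [CommRing R] [Algebra A R]

omit [DecidableEq J] in
theorem act_algebraMap (D : Matrix J J A) (v : J → R) :
    act (D.map (algebraMap A R)) v = act D v := by
  funext a; simp [act, Algebra.smul_def]

omit [DecidableEq J] in
theorem bd_algebraMap {deg : J → ℕ} {D : Matrix J J A} {n : ℕ} {v : J → R} :
    Bd deg (D.map (algebraMap A R)) n v ↔ Bd deg D n v := by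
  simp only [Bd, act_algebraMap]

omit [DecidableEq J] in
theorem ex_algebraMap {deg : J → ℕ} {D : Matrix J J A} {n : ℕ} :
    Ex deg (D.map (algebraMap A R)) n R ↔ Ex deg D n R := by
  simp only [Ex, bd_algebraMap, act_algebraMap]

omit [DecidableEq J] [Fintype J] in
theorem Hg.map {deg : J → ℕ} {D : Matrix J J A} (h : Hg deg D) (f : A →+* R) :
    Hg deg (D.map f) := by
  intro a b hab
  refine h a b fun h0 => hab ?_
  simp [h0]

theorem Htp.map {deg : J → ℕ} {D : Matrix J J A} {x : A} (h : Htp deg D x) (f : A →+* R) :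
    Htp deg (D.map f) (f x) := by
  obtain ⟨s, e, hs, h1, h3, he⟩ := h
  refine ⟨s.map f, e.map f, ?_, ?_, ?_, fun a b hab => he a b fun h0 => hab ?_⟩
  · rw [← Matrix.map_mul, ← Matrix.map_mul, ← Matrix.map_add _ (map_add f), hs]
    ext a b
    by_cases hab : a = b <;> simp [hab]
  · rw [← Matrix.map_mul, h1]; ext a b; simp
  · rw [← Matrix.map_mul, h3]; ext a b; simp
  · simp [h0]

omit [Fintype J] in
theorem sq_map (D : Matrix J J A) (f : A →+* R) : sq (D.map f) = (sq D).map f := by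
  ext a b
  simp only [sq_apply, Matrix.map_apply, map_add]
  congr 1 <;> split_ifs <;> simp

end maps

section refl

variable {R : Type} [CommRing R] {N : Type} [AddCommGroup N] [Module R N]

omit [DecidableEq J] in
theorem refl_abs (π : (J → R) →ₗ[R] N) {y1 y2 : R} (e1 e2 : N →ₗ[R] (J → R))
    (h1 : ∀ n, π (e1 n) = y1 • n) (h2 : ∀ n, π (e2 n) = y2 • n)
    (hreg : ∀ r : R, y1 * r = 0 → r = 0) (r1 : ∀ n : N, y1 • n = 0 → n = 0)
    (r2 : ∀ n n' : N, y2 • n = y1 • n' → ∃ m, n = y1 • m) : Module.IsReflexive R N := by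
  classical
  have inj : Function.Injective (Module.Dual.eval R N) := by
    rw [injective_iff_map_eq_zero]
    intro n hn
    apply r1
    rw [← h1]
    have : e1 n = 0 := funext fun j => by
      simpa using LinearMap.congr_fun hn ((LinearMap.proj j).comp e1)
    rw [this, map_zero]
  have key : ∀ (y : R) (e : N →ₗ[R] (J → R)), (∀ n, π (e n) = y • n) →
      ∀ w : Module.Dual R (Module.Dual R N), ∃ n, Module.Dual.eval R N n = y • w := by
    intro y e he w
    refine ⟨π fun j => w ((LinearMap.proj j).comp e), ?_⟩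
    ext f
    have hf : y • f = ∑ j, (f (π (Pi.single j 1))) • ((LinearMap.proj j).comp e) := by
      ext n
      have : e n = ∑ j, e n j • (Pi.single j 1 : J → R) := by
        funext i; simp [Finset.sum_apply, Pi.single_apply]
      simp only [LinearMap.smul_apply, LinearMap.coe_sum, Finset.sum_apply, LinearMap.comp_apply,
        LinearMap.proj_apply, smul_eq_mul]
      rw [← smul_eq_mul, ← map_smul, ← he, this]
      simp only [map_sum, map_smul, smul_eq_mul]
      refine Finset.sum_congr rfl fun j _ => ?_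
      rw [← this, mul_comm]
    have hv : (fun j => w ((LinearMap.proj j).comp e)) =
        ∑ j, w ((LinearMap.proj j).comp e) • (Pi.single j 1 : J → R) := by
      funext i; simp [Finset.sum_apply, Pi.single_apply]
    rw [Module.Dual.eval_apply, hv, LinearMap.smul_apply, ← map_smul, hf]
    simp only [map_sum, map_smul, smul_eq_mul]
    exact Finset.sum_congr rfl fun j _ => mul_comm _ _
  refine ⟨inj, fun w => ?_⟩
  obtain ⟨n1, hn1⟩ := key y1 e1 h1 w
  obtain ⟨n2, hn2⟩ := key y2 e2 h2 w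
  obtain ⟨m, hm⟩ := r2 n1 n2 (inj (by rw [map_smul, map_smul, hn1, hn2, smul_comm]))
  refine ⟨m, ?_⟩
  ext f
  rw [← sub_eq_zero]
  apply hreg
  have := LinearMap.congr_fun hn1 f
  rw [hm, map_smul] at this
  simp only [LinearMap.smul_apply, smul_eq_mul] at this
  rw [mul_sub, this, sub_self]

theorem r2_of_refl [Module.IsReflexive R N] {y1 y2 : R} (hreg : ∀ r : R, y1 * r = 0 → r = 0)
    (r2 : ∀ r r' : R, y2 * r = y1 * r' → ∃ m, r = y1 * m) (n n' : N) (h : y2 • n = y1 • n') :
    ∃ m, n = y1 • m := by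
  have h1 : ∀ f : Module.Dual R N, ∃ c, f n = y1 * c := fun f =>
    r2 (f n) (f n') (by rw [← smul_eq_mul, ← map_smul, h, map_smul, smul_eq_mul])
  choose c hc using h1
  let w : Module.Dual R (Module.Dual R N) :=
    { toFun := c
      map_add' := fun f g => by
        rw [← sub_eq_zero]; apply hreg
        rw [mul_sub, mul_add, ← hc, ← hc, ← hc]; simp
      map_smul' := fun r f => by
        rw [← sub_eq_zero]; apply hreg
        simp only [RingHom.id_apply, smul_eq_mul]
        rw [mul_sub, mul_left_comm, ← hc, ← hc]; simp }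
  obtain ⟨m, hm⟩ := (Module.bijective_dual_eval R N).2 w
  refine ⟨m, (Module.bijective_dual_eval R N).1 ?_⟩
  ext f
  rw [map_smul, hm]
  simp [w, hc]

end refl

section cok

variable {R : Type} [CommRing R]

omit [Fintype J] [DecidableEq J] in
theorem pj_add (deg : J → ℕ) (n : ℕ) (v w : J → R) :
    pj deg n (v + w) = pj deg n v + pj deg n w := by
  funext a; by_cases h : deg a = n <;> simp [pj, h]

omit [Fintype J] [DecidableEq J] in
theorem pj_smul (deg : J → ℕ) (n : ℕ) (c : R) (v : J → R) :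
    pj deg n (c • v) = c • pj deg n v := by
  funext a; by_cases h : deg a = n <;> simp [pj, h]

omit [Fintype J] [DecidableEq J] in
theorem pj_zero (deg : J → ℕ) (n : ℕ) : pj deg n (0 : J → R) = 0 := by
  funext a; simp [pj]

/-- Vectors whose degree zero part is a boundary. -/
def Wk (deg : J → ℕ) (D : Matrix J J R) : Submodule R (J → R) where
  carrier := {v | Bd deg D 0 (pj deg 0 v)}
  add_mem' := fun {v w} hv hw => by
    simp only [Set.mem_ofPred_eq, pj_add]; exact Bd.add hv hw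
  zero_mem' := by simp only [Set.mem_ofPred_eq, pj_zero]; exact bd_zero 0
  smul_mem' := fun c v hv => by
    simp only [Set.mem_ofPred_eq, pj_smul]; exact Bd.smul hv c

/-- The homology in degree zero. -/
abbrev Cok (deg : J → ℕ) (D : Matrix J J R) : Type := (J → R) ⧸ Wk deg D

omit [DecidableEq J] in
theorem mem_Wk {deg : J → ℕ} {D : Matrix J J R} {v : J → R} :
    v ∈ Wk deg D ↔ Bd deg D 0 (pj deg 0 v) := Iff.rfl

omit [DecidableEq J] in
theorem mem_Wk_of_dg {deg : J → ℕ} {D : Matrix J J R} {v : J → R} (hv : Dg deg 0 v) :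
    v ∈ Wk deg D ↔ Bd deg D 0 v := by rw [mem_Wk, pj_eq hv]

omit [DecidableEq J] in
theorem mk_pj (deg : J → ℕ) (D : Matrix J J R) (v : J → R) :
    (Wk deg D).mkQ (pj deg 0 v) = (Wk deg D).mkQ v := by
  rw [Submodule.mkQ_apply, Submodule.mkQ_apply, Submodule.Quotient.eq, mem_Wk]
  have : pj deg 0 (pj deg 0 v - v) = 0 := by
    funext a; by_cases h : deg a = 0 <;> simp [pj, h]
  rw [this]; exact bd_zero 0

omit [DecidableEq J] in
theorem exists_rep (deg : J → ℕ) (D : Matrix J J R) (n : Cok deg D) :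
    ∃ v, Dg deg 0 v ∧ (Wk deg D).mkQ v = n := by
  obtain ⟨v, rfl⟩ := (Wk deg D).mkQ_surjective n
  exact ⟨pj deg 0 v, dg_pj _ _, mk_pj _ _ _⟩

omit [DecidableEq J] in
theorem act_mem_Wk {deg : J → ℕ} {D : Matrix J J R} (hD : Hg deg D) (v : J → R) :
    act D v ∈ Wk deg D := by
  rw [mem_Wk, ← act_pj hD]; exact ⟨_, dg_pj _ _, rfl⟩

/-- The action as a linear map. -/
def actL (D : Matrix J J R) : (J → R) →ₗ[R] (J → R) where
  toFun := act D
  map_add' := act_add D
  map_smul' := act_smul D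

theorem Htp.factor {deg : J → ℕ} {D : Matrix J J R} (hD : Hg deg D) {x : R} (h : Htp deg D x) :
    ∃ e : Cok deg D →ₗ[R] (J → R), ∀ n, (Wk deg D).mkQ (e n) = x • n := by
  obtain ⟨s, e, hs, h1, -, he⟩ := h
  have hp : ∀ v : J → R, act e (pj deg 0 v) = act e v := by
    intro v; funext a
    refine Finset.sum_congr rfl fun b _ => ?_
    by_cases hb : e a b = 0
    · simp [hb]
    · simp [pj, he a b hb]
  refine ⟨-(Wk deg D).liftQ (actL e) ?_, fun n => ?_⟩
  · intro v hv
    obtain ⟨w, -, hw⟩ := mem_Wk.1 hv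
    change act e v = 0
    rw [← hp, ← hw, ← act_mul, h1, act_mzero]
  · obtain ⟨v, hv, rfl⟩ := exists_rep deg D n
    have h2 := congrArg (fun m => act m v) hs
    simp only [act_madd, act_mul, act_dg_zero hD hv, act_zero, add_zero, act_scalar] at h2
    have h3 : (Wk deg D).mkQ (act D (act s v)) = 0 := by
      rw [Submodule.mkQ_apply, Submodule.Quotient.mk_eq_zero]; exact act_mem_Wk hD _
    rw [h2, map_add, map_smul] at h3
    rw [LinearMap.neg_apply, map_neg, Submodule.mkQ_apply, Submodule.mkQ_apply,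
      Submodule.liftQ_apply]
    rw [Submodule.mkQ_apply, Submodule.mkQ_apply] at h3
    exact (eq_neg_of_add_eq_zero_left h3).symm

theorem cok_refl {deg : J → ℕ} {D : Matrix J J R} (hD : Hg deg D) {y1 y2 : R}
    (h1 : Htp deg D y1) (h2 : Htp deg D y2) (hreg : ∀ r : R, y1 * r = 0 → r = 0)
    (r1 : ∀ v : J → R, Dg deg 0 v → Bd deg D 0 (y1 • v) → Bd deg D 0 v)
    (r2 : ∀ v v' : J → R, Dg deg 0 v → Dg deg 0 v' → Bd deg D 0 (y2 • v - y1 • v') →
      ∃ u : J → R, Dg deg 0 u ∧ Bd deg D 0 (v - y1 • u)) :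
    Module.IsReflexive R (Cok deg D) := by
  obtain ⟨e1, he1⟩ := h1.factor hD
  obtain ⟨e2, he2⟩ := h2.factor hD
  refine refl_abs (Wk deg D).mkQ e1 e2 he1 he2 hreg (fun n hn => ?_) (fun n n' hn => ?_)
  · obtain ⟨v, hv, rfl⟩ := exists_rep deg D n
    rw [← map_smul, Submodule.mkQ_apply, Submodule.Quotient.mk_eq_zero,
      mem_Wk_of_dg (hv.smul _)] at hn
    rw [Submodule.mkQ_apply, Submodule.Quotient.mk_eq_zero, mem_Wk_of_dg hv]
    exact r1 v hv hn
  · obtain ⟨v, hv, rfl⟩ := exists_rep deg D n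
    obtain ⟨v', hv', rfl⟩ := exists_rep deg D n'
    rw [← map_smul, ← map_smul, Submodule.mkQ_apply, Submodule.mkQ_apply, Submodule.Quotient.eq,
      mem_Wk_of_dg ((hv.smul _).sub (hv'.smul _))] at hn
    obtain ⟨u, hu, hb⟩ := r2 v v' hv hv' hn
    refine ⟨(Wk deg D).mkQ u, ?_⟩
    rw [← map_smul, Submodule.mkQ_apply, Submodule.mkQ_apply, Submodule.Quotient.eq,
      mem_Wk_of_dg (hv.sub (hu.smul _))]
    exact hb

omit [DecidableEq J] in
theorem r2_of_cok_refl {deg : J → ℕ} {D : Matrix J J R} (hr : Module.IsReflexive R (Cok deg D))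
    {y1 y2 : R} (hreg : ∀ r : R, y1 * r = 0 → r = 0)
    (r2 : ∀ r r' : R, y2 * r = y1 * r' → ∃ m, r = y1 * m) (v v' : J → R) (hv : Dg deg 0 v)
    (hv' : Dg deg 0 v') (h : Bd deg D 0 (y2 • v - y1 • v')) :
    ∃ u : J → R, Dg deg 0 u ∧ Bd deg D 0 (v - y1 • u) := by
  obtain ⟨m, hm⟩ := r2_of_refl hreg r2 ((Wk deg D).mkQ v) ((Wk deg D).mkQ v') (by
    rw [← map_smul, ← map_smul, Submodule.mkQ_apply, Submodule.mkQ_apply, Submodule.Quotient.eq,
      mem_Wk_of_dg ((hv.smul _).sub (hv'.smul _))]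
    exact h)
  obtain ⟨u, hu, rfl⟩ := exists_rep deg D m
  refine ⟨u, hu, ?_⟩
  rwa [← map_smul, Submodule.mkQ_apply, Submodule.mkQ_apply, Submodule.Quotient.eq,
    mem_Wk_of_dg (hv.sub (hu.smul _))] at hm

end cok

end Pool.Agent.Lib.MP_fa2e84_al
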