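import Pool.Agent.Lib.MP_fa2e84_al.ModE
import Pool.Agent.Lib.MP_fa2e84_al.Tensor

/-! The connecting map of the tensor square of a complex of length three. -/

set_option linter.unusedSectionVars false

namespace Pool.Agent.Lib.MP_fa2e84_al

open Sum

variable {A k V U : Type} [CommRing A] [Field k] [AddCommGroup V] [Module k V] [Fintype U]

section general

variable {J : Type} [Fintype J] [DecidableEq J]

/-- Contraction of two consecutive differentials. -/
def Al (T : EData A k V U) (D : Matrix J J A) (μ : U) (a c : J) : k :=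
  ∑ b, T.phi μ (T.der (D a b)) (T.der (D b c))

/-- Symmetrised form. -/
def Ga (T : EData A k V U) (μ : U) (x y : A) : k :=
  T.phi μ (T.der x) (T.der y) + T.phi μ (T.der y) (T.der x)

theorem Ga_comm (T : EData A k V U) (μ : U) (x y : A) : Ga T μ x y = Ga T μ y x := add_comm _ _

@[simp] theorem Ga_zero_left (T : EData A k V U) (μ : U) (y : A) : Ga T μ 0 y = 0 := by simp [Ga]

@[simp] theorem Ga_zero_right (T : EData A k V U) (μ : U) (y : A) : Ga T μ y 0 = 0 := by
  simp [Ga]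

theorem Al_sq (T : EData A k V U) (D : Matrix J J A) (μ : U) (a c : J × J) :
    Al T (sq D) μ a c = (if a.2 = c.2 then Al T D μ a.1 c.1 else 0) +
      (if a.1 = c.1 then Al T D μ a.2 c.2 else 0) + Ga T μ (D a.1 c.1) (D a.2 c.2) := by
  obtain ⟨a1, a2⟩ := a
  obtain ⟨c1, c2⟩ := c
  have e : ∀ (P Q : Prop) [Decidable P] [Decidable Q] (x y : A),
      T.phi μ (T.der (if P then x else 0)) (T.der (if Q then y else 0)) =
        if P then (if Q then T.phi μ (T.der x) (T.der y) else 0) else 0 := by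
    intro P Q _ _ x y
    split_ifs <;> simp
  simp only [Al, Ga, sq_apply, map_add, LinearMap.add_apply, Finset.sum_add_distrib,
    Fintype.sum_prod_type, e]
  have e1 : (∑ b1, ∑ b2, if a2 = b2 then (if b2 = c2 then
      T.phi μ (T.der (D a1 b1)) (T.der (D b1 c1)) else 0) else 0) =
      if a2 = c2 then ∑ b, T.phi μ (T.der (D a1 b)) (T.der (D b c1)) else 0 := by
    simp only [Finset.sum_ite_eq, Finset.mem_univ, if_true]
    split_ifs <;> simp
  have e2 : (∑ b1, ∑ b2, if a1 = b1 then (if b1 = c1 then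
      T.phi μ (T.der (D a2 b2)) (T.der (D b2 c2)) else 0) else 0) =
      if a1 = c1 then ∑ b, T.phi μ (T.der (D a2 b)) (T.der (D b c2)) else 0 := by
    rw [Finset.sum_comm]
    simp only [Finset.sum_ite_eq, Finset.mem_univ, if_true]
    split_ifs <;> simp
  have e3 : (∑ b1, ∑ b2, if a1 = b1 then (if b2 = c2 then
      T.phi μ (T.der (D a2 b2)) (T.der (D b1 c1)) else 0) else 0) =
      T.phi μ (T.der (D a2 c2)) (T.der (D a1 c1)) := by
    rw [Finset.sum_comm]
    simp
  have e4 : (∑ b1, ∑ b2, if a2 = b2 then (if b1 = c1 then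
      T.phi μ (T.der (D a1 b1)) (T.der (D b2 c2)) else 0) else 0) =
      T.phi μ (T.der (D a1 c1)) (T.der (D a2 c2)) := by
    simp
  rw [e1, e2, e3, e4]
  ring

theorem psi_eq (T : EData A k V U) (D : Matrix J J A) (w : U → J → k) (a : J) :
    Psi T D w a = ∑ μ, ∑ c, Al T D μ a c * w μ c := by
  refine Finset.sum_congr rfl fun μ _ => ?_
  rw [Finset.sum_comm]
  simp only [Al, Finset.sum_mul]

theorem psi_sq (T : EData A k V U) (D : Matrix J J A) (w : U → J × J → k) (a a' : J) :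
    Psi T (sq D) w (a, a') = ∑ μ, (∑ c, Al T D μ a c * w μ (c, a') +
      ∑ c, Al T D μ a' c * w μ (a, c) + ∑ c, ∑ c', Ga T μ (D a c) (D a' c') * w μ (c, c')) := by
  rw [psi_eq]
  refine Finset.sum_congr rfl fun μ _ => ?_
  simp only [Al_sq, add_mul, Finset.sum_add_distrib, Fintype.sum_prod_type, ite_mul, zero_mul,
    Finset.sum_ite_eq, Finset.mem_univ, if_true]
  congr 2
  rw [Finset.sum_comm]
  simp only [Finset.sum_ite_eq, Finset.mem_univ, if_true]

theorem psi_swap (T : EData A k V U) (D : Matrix J J A) (w : U → J × J → k) (a : J × J) :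
    Psi T (sq D) (fun μ c => w μ c.swap) a = Psi T (sq D) w a.swap := by
  obtain ⟨a, a'⟩ := a
  rw [Prod.swap_prod_mk, psi_sq, psi_sq]
  refine Finset.sum_congr rfl fun μ _ => ?_
  simp only [Prod.swap_prod_mk]
  rw [add_comm (∑ c, Al T D μ a c * w μ (a', c)), Finset.sum_comm]
  simp only [Ga_comm T μ (D a _)]

theorem psi_dg (T : EData A k V U) {deg : J → ℕ} {D : Matrix J J A} (hD : Hg deg D) {n : ℕ}
    {w : U → J → k} (hw : ∀ μ, Dg deg (n + 2) (w μ)) : Dg deg n (Psi T D w) := by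
  intro a ha
  refine Finset.sum_eq_zero fun μ _ => Finset.sum_eq_zero fun b _ =>
    Finset.sum_eq_zero fun c _ => ?_
  by_cases h1 : D a b = 0
  · simp [h1]
  by_cases h2 : D b c = 0
  · simp [h2]
  rw [hw μ c (by have := hD a b h1; have := hD b c h2; omega), mul_zero]

/-- The image of the connecting map in degree `n`. -/
def Img (T : EData A k V U) (deg : J → ℕ) (D : Matrix J J A) (n : ℕ) : Submodule k (J → k) where
  carrier := {l | ∃ w : U → J → k, (∀ μ, Dg deg (n + 2) (w μ)) ∧ Psi T D w = l}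
  add_mem' := by
    rintro _ _ ⟨w, hw, rfl⟩ ⟨w', hw', rfl⟩
    refine ⟨w + w', fun μ => (hw μ).add (hw' μ), ?_⟩
    funext a; simp [Psi, mul_add, Finset.sum_add_distrib]
  zero_mem' := ⟨0, fun _ => dg_zero _, by funext a; simp [Psi]⟩
  smul_mem' := by
    rintro c _ ⟨w, hw, rfl⟩
    refine ⟨c • w, fun μ => (hw μ).smul c, ?_⟩
    funext a; simp [Psi, Finset.mul_sum, mul_left_comm]

theorem mem_of_single (S : Submodule k (J → k)) (l : J → k)
    (h : ∀ a, l a ≠ 0 → Pi.single a (1 : k) ∈ S) : l ∈ S := by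
  have : l = ∑ a, l a • (Pi.single a 1 : J → k) := by
    funext i; simp [Finset.sum_apply, Pi.single_apply]
  rw [this]
  refine S.sum_mem fun a _ => ?_
  by_cases ha : l a = 0
  · simp [ha]
  · exact S.smul_mem _ (h a ha)

theorem dg_swap {deg : J → ℕ} {n : ℕ} {w : J × J → k} (hw : Dg (deg2 deg) n w) :
    Dg (deg2 deg) n fun c => w c.swap := fun a ha =>
  hw _ (by simpa [deg2, add_comm] using ha)

theorem single_swap_mem {T : EData A k V U} {deg : J → ℕ} {D : Matrix J J A} {n : ℕ} {a a' : J}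
    (h : Pi.single (a, a') (1 : k) ∈ Img T (deg2 deg) (sq D) n) :
    Pi.single (a', a) (1 : k) ∈ Img T (deg2 deg) (sq D) n := by
  obtain ⟨w, hw, hl⟩ := h
  refine ⟨fun μ c => w μ c.swap, fun μ => dg_swap (hw μ), ?_⟩
  funext ⟨c, c'⟩
  rw [psi_swap, hl]
  simp [Pi.single_apply, and_comm]

theorem single_mem_of {T : EData A k V U} {deg : J → ℕ} {D : Matrix J J A} (hD : Hg deg D)
    {n : ℕ} {a : J} (w : U → J → k) (hw : ∀ μ, Dg deg (n + 2) (w μ)) (h1 : Psi T D w a = 1)
    (h : ∀ c, deg c = n → c ≠ a → Psi T D w c ≠ 0 → Pi.single c (1 : k) ∈ Img T deg D n) :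
    Pi.single a (1 : k) ∈ Img T deg D n := by
  have h2 : Psi T D w ∈ Img T deg D n := ⟨w, hw, rfl⟩
  have h3 : Psi T D w - Pi.single a 1 ∈ Img T deg D n := by
    refine mem_of_single _ _ fun c hc => ?_
    have hca : c ≠ a := by rintro rfl; simp [h1] at hc
    have h4 : Psi T D w c ≠ 0 := by simpa [hca] using hc
    exact h c (by by_contra h5; exact h4 (psi_dg T hD hw c h5)) hca h4
  simpa using (Img T deg D n).sub_mem h2 h3

end general

variable {I3 I2 I1 I0 : Type}

/-- Degrees on the total index type. -/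
def degI : I3 ⊕ I2 ⊕ I1 ⊕ I0 → ℕ
  | inl _ => 3
  | inr (inl _) => 2
  | inr (inr (inl _)) => 1
  | inr (inr (inr _)) => 0

/-- The total matrix of a complex of length three. -/
def tot {B : Type} [Zero B] (p : Matrix I2 I3 B) (q : Matrix I1 I2 B) (r : Matrix I0 I1 B) :
    Matrix (I3 ⊕ I2 ⊕ I1 ⊕ I0) (I3 ⊕ I2 ⊕ I1 ⊕ I0) B :=
  Matrix.of fun a b => match a, b with
    | inr (inl j), inl l => p j l
    | inr (inr (inl i)), inr (inl j) => q i j
    | inr (inr (inr x)), inr (inr (inl i)) => r x i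
    | _, _ => 0

theorem hg_tot (p : Matrix I2 I3 A) (q : Matrix I1 I2 A) (r : Matrix I0 I1 A) :
    Hg degI (tot p q r) := by
  rintro (a | a | a | a) (b | b | b | b) h <;> first | rfl | exact absurd rfl h

variable [Fintype I3] [Fintype I2] [Fintype I1] [Fintype I0] [DecidableEq I3] [DecidableEq I2]
  [DecidableEq I1] [DecidableEq I0]

/-- Contraction of `q` with `p`. -/
def al (T : EData A k V U) (p : Matrix I2 I3 A) (q : Matrix I1 I2 A) (μ : U) (i : I1) (l : I3) :
    k := ∑ j, T.phi μ (T.der (q i j)) (T.der (p j l))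

variable (T : EData A k V U) (p : Matrix I2 I3 A) (q : Matrix I1 I2 A) (r : Matrix I0 I1 A)
  (w : U → (I3 ⊕ I2 ⊕ I1 ⊕ I0) × (I3 ⊕ I2 ⊕ I1 ⊕ I0) → k)

theorem psi31 (l : I3) (i : I1) : Psi T (sq (tot p q r)) w (inl l, inr (inr (inl i))) =
    ∑ μ, ∑ l', al T p q μ i l' * w μ (inl l, inl l') := by
  simp [psi_sq, Al, al, tot]

theorem psi13 (l : I3) (i : I1) : Psi T (sq (tot p q r)) w (inr (inr (inl i)), inl l) =
    ∑ μ, ∑ l', al T p q μ i l' * w μ (inl l', inl l) := by
  simp [psi_sq, Al, al, tot]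

theorem psi22 (j j' : I2) : Psi T (sq (tot p q r)) w (inr (inl j), inr (inl j')) =
    ∑ μ, ∑ l, ∑ l', Ga T μ (p j l) (p j' l') * w μ (inl l, inl l') := by
  simp [psi_sq, Al, tot]

theorem psi30 (l : I3) (x : I0) : Psi T (sq (tot p q r)) w (inl l, inr (inr (inr x))) =
    ∑ μ, ∑ j, al T q r μ x j * w μ (inl l, inr (inl j)) := by
  simp [psi_sq, Al, al, tot]

theorem psi03 (l : I3) (x : I0) : Psi T (sq (tot p q r)) w (inr (inr (inr x)), inl l) =
    ∑ μ, ∑ j, al T q r μ x j * w μ (inr (inl j), inl l) := by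
  simp [psi_sq, Al, al, tot]

theorem psi21 (j : I2) (i : I1) : Psi T (sq (tot p q r)) w (inr (inl j), inr (inr (inl i))) =
    ∑ μ, (∑ l, al T p q μ i l * w μ (inr (inl j), inl l) +
      ∑ l, ∑ j', Ga T μ (p j l) (q i j') * w μ (inl l, inr (inl j'))) := by
  simp [psi_sq, Al, al, tot]

theorem psi12 (j : I2) (i : I1) : Psi T (sq (tot p q r)) w (inr (inr (inl i)), inr (inl j)) =
    ∑ μ, (∑ l, al T p q μ i l * w μ (inl l, inr (inl j)) +
      ∑ j', ∑ l, Ga T μ (q i j') (p j l) * w μ (inr (inl j'), inl l)) := by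
  simp [psi_sq, Al, al, tot]

theorem psi20 (j : I2) (x : I0) : Psi T (sq (tot p q r)) w (inr (inl j), inr (inr (inr x))) =
    ∑ μ, (∑ j', al T q r μ x j' * w μ (inr (inl j), inr (inl j')) +
      ∑ l, ∑ i, Ga T μ (p j l) (r x i) * w μ (inl l, inr (inr (inl i)))) := by
  simp [psi_sq, Al, al, tot]

theorem psi02 (j : I2) (x : I0) : Psi T (sq (tot p q r)) w (inr (inr (inr x)), inr (inl j)) =
    ∑ μ, (∑ j', al T q r μ x j' * w μ (inr (inl j'), inr (inl j)) +
      ∑ i, ∑ l, Ga T μ (r x i) (p j l) * w μ (inr (inr (inl i)), inl l)) := by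
  simp [psi_sq, Al, al, tot]

end Pool.Agent.Lib.MP_fa2e84_al
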