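import Pool.Agent.Lib.MP_fa2e84_al.LinAlg

/-! Construction of the bilinear forms from dual functionals. -/

set_option linter.unusedSectionVars false
set_option synthInstance.maxSize 2048

namespace Pool.Agent.Lib.MP_fa2e84_al

open Sum

variable {k V : Type} [Field k] [AddCommGroup V] [Module k V]

/-- Functionals detecting the entries of the three matrices. -/
structure Duals (k : Type) {V : Type} [Field k] [AddCommGroup V] [Module k V] {I3 I2 I1 I0 : Type}
    [Fintype I2] [Fintype I1] [DecidableEq I3] [DecidableEq I2] [DecidableEq I1] [DecidableEq I0]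
    (p : I2 → I3 → V) (q : I1 → I2 → V) (r : I0 → I1 → V) where
  ps : I2 → I3 → V →ₗ[k] k
  rs : I0 → I1 → V →ₗ[k] k
  ψ : I1 → I2 → V →ₗ[k] k
  χ : I2 → I1 → V →ₗ[k] k
  ps_p : ∀ j l j' l', ps j l (p j' l') = if j' = j ∧ l' = l then 1 else 0
  ps_q : ∀ j l i j', ps j l (q i j') = 0
  ps_r : ∀ j l x i, ps j l (r x i) = 0
  rs_r : ∀ x i x' i', rs x i (r x' i') = if x' = x ∧ i' = i then 1 else 0
  rs_p : ∀ x i j l, rs x i (p j l) = 0
  rs_q : ∀ x i i' j, rs x i (q i' j) = 0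
  ψ_q : ∀ i0 i, ∑ j, ψ i0 j (q i j) = if i = i0 then 1 else 0
  ψ_r : ∀ i0 j x i, ψ i0 j (r x i) = 0
  χ_q : ∀ j0 j, ∑ i, χ j0 i (q i j) = if j = j0 then 1 else 0

/-- Product of two functionals. -/
def bil (f g : V →ₗ[k] k) : V →ₗ[k] V →ₗ[k] k := (LinearMap.mul k k).compl₁₂ f g

@[simp] theorem bil_apply (f g : V →ₗ[k] k) (v v' : V) : bil f g v v' = f v * g v' := rfl

/-- The indices of the forms that are not attached to the kernel. -/
abbrev U1T (I1 Jt : Type) (M : ℕ) : Type := (I1 × Bool) ⊕ ((Jt × Bool) × (Jt × Bool)) ⊕ Fin M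

/-- The index set of the last free module. -/
abbrev I0T {Jt : Type} (I1 : Type) (M : ℕ) (j0 : Jt × Bool) : Type :=
  ((Jt × Bool) × U1T I1 Jt M) ⊕ ((I1 × Jt) × {x : (Jt × Bool) × (Jt × Bool) // x ≠ (j0, j0)})

variable {Jt I1 : Type} [Fintype Jt] [Fintype I1] [DecidableEq Jt] [DecidableEq I1] {M : ℕ}
  {j0 : Jt × Bool}

/-- The prescribed contraction of `r` with `q`. -/
def beta (k : Type) [Field k] (μ : UU (U1T I1 Jt M) I1 Jt) : I0T I1 M j0 → Jt × Bool → k
  | inl y, j => if μ = inl y.2 ∧ j = y.1 then 1 else 0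
  | inr y, j => (if μ = inr (y.1, y.2.1.2) ∧ j = y.2.1.1 then 1 else 0) +
      (if μ = inr (y.1, j0) ∧ j = j0 ∧ y.2.1.1 = y.2.1.2 then 1 else 0)

variable {p : Jt × Bool → Bool → V} {q : I1 → Jt × Bool → V} {r : I0T I1 M j0 → I1 → V}

/-- Symmetric part producing `beta`. -/
def phiB (d : Duals k p q r) (μ : UU (U1T I1 Jt M) I1 Jt) : V →ₗ[k] V →ₗ[k] k :=
  ∑ x, ∑ i, (bil (d.rs x i) (∑ j, beta k μ x j • d.χ j i) +
    bil (∑ j, beta k μ x j • d.χ j i) (d.rs x i))

/-- Part pairing `p` with `r`. -/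
def phiP (d : Duals k p q r) (θ : Bool × I1 × UU (U1T I1 Jt M) I1 Jt → Jt × Jt × U1T I1 Jt M)
    (μ : UU (U1T I1 Jt M) I1 Jt) : V →ₗ[k] V →ₗ[k] k :=
  ∑ l, ∑ i, bil (d.ps ((θ (l, i, μ)).1, false) l)
    (d.rs (inl (((θ (l, i, μ)).2.1, true), (θ (l, i, μ)).2.2)) i)

/-- Remaining part. -/
def phiX (d : Duals k p q r) : UU (U1T I1 Jt M) I1 Jt → V →ₗ[k] V →ₗ[k] k
  | inl (inl y) => ∑ j, (bil (d.ψ y.1 j) (d.ps j y.2) + bil (d.ps j y.2) (d.ψ y.1 j))
  | inl (inr (inl y)) => bil (d.ps y.1 false) (d.ps y.2 true)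
  | inl (inr (inr _)) => 0
  | inr z => ∑ l, bil (d.ps (z.1.2, l) l) (d.ψ z.1.1 z.2)

variable (d : Duals k p q r) (θ : Bool × I1 × UU (U1T I1 Jt M) I1 Jt → Jt × Jt × U1T I1 Jt M)

theorem phiB_qp (μ i j j' l) : phiB d μ (q i j) (p j' l) = 0 := by
  simp [phiB, LinearMap.sum_apply, d.rs_q, d.rs_p]

theorem phiB_symm (μ v v') : phiB d μ v v' = phiB d μ v' v := by
  simp only [phiB, LinearMap.sum_apply, LinearMap.add_apply, bil_apply]
  refine Finset.sum_congr rfl fun _ _ => Finset.sum_congr rfl fun _ _ => by ring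

theorem phiB_rq (μ x j) : ∑ i, phiB d μ (r x i) (q i j) = beta k μ x j := by
  simp only [phiB, LinearMap.sum_apply, LinearMap.add_apply, bil_apply, d.rs_q, d.rs_r, mul_zero,
    add_zero, ite_and, ite_mul, one_mul, zero_mul, Finset.sum_ite_irrel, Finset.sum_ite_eq,
    Finset.mem_univ, if_true, Finset.sum_const_zero, LinearMap.smul_apply, smul_eq_mul]
  rw [Finset.sum_comm]
  simp [← Finset.mul_sum, d.χ_q]

theorem phiP_q (μ i j v) : phiP d θ μ (q i j) v = 0 := by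
  simp [phiP, LinearMap.sum_apply, d.ps_q]

theorem phiP_r (μ x i v) : phiP d θ μ (r x i) v = 0 := by
  simp [phiP, LinearMap.sum_apply, d.ps_r]

theorem phiP_p' (μ j l v) : phiP d θ μ v (p j l) = 0 := by
  simp [phiP, LinearMap.sum_apply, d.rs_p]

theorem phiP_q' (μ i j v) : phiP d θ μ v (q i j) = 0 := by
  simp [phiP, LinearMap.sum_apply, d.rs_q]

theorem phiP_pr (μ j l x i) : phiP d θ μ (p j l) (r x i) =
    if j = ((θ (l, i, μ)).1, false) ∧ x = inl (((θ (l, i, μ)).2.1, true), (θ (l, i, μ)).2.2)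
      then 1 else 0 := by
  simp only [phiP, LinearMap.sum_apply, bil_apply, d.ps_p, d.rs_r]
  rw [Finset.sum_eq_single l, Finset.sum_eq_single i]
  · simp only [and_true, ite_and, mul_ite, mul_one, mul_zero]
    split_ifs <;> rfl
  · intro i' _ h; simp [Ne.symm h]
  · simp
  · intro l' _ h; simp [Ne.symm h]
  · simp

theorem phiX_rq (μ x i i' j) : phiX d μ (r x i) (q i' j) = 0 := by
  rcases μ with (y | y | y) | z <;> simp [phiX, LinearMap.sum_apply, d.ps_q, d.ps_r]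

theorem phiX_pr [CharP k 2] (μ j l x i) :
    phiX d μ (p j l) (r x i) + phiX d μ (r x i) (p j l) = 0 := by
  rcases μ with (y | y | y) | z <;> simp [phiX, LinearMap.sum_apply, d.ψ_r, d.ps_r]

theorem beta_ker [CharP k 2] (w : UU (U1T I1 Jt M) I1 Jt → Jt × Bool → k)
    (hw : ∀ x : I0T I1 M j0, ∑ μ, ∑ j, beta k μ x j * w μ j = 0) :
    ∃ c : I1 × Jt → k, (∀ μ j, w (inl μ) j = 0) ∧
      ∀ ζ j' j, w (inr (ζ, j')) j = if j = j' then c ζ else 0 := by
  refine ⟨fun ζ => w (inr (ζ, j0)) j0, fun μ j => ?_, fun ζ j' j => ?_⟩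
  · simpa [beta, ite_and] using hw (inl (j, μ))
  · by_cases h : (j, j') = (j0, j0)
    · obtain ⟨rfl, rfl⟩ := Prod.mk.inj h
      simp
    · have h1 := hw (inr (ζ, ⟨(j, j'), h⟩))
      simp only [beta, add_mul, Finset.sum_add_distrib, ite_and, ite_mul, one_mul, zero_mul,
        Finset.sum_ite_irrel, Finset.sum_ite_eq', Finset.mem_univ, if_true,
        Finset.sum_const_zero] at h1
      exact (CharTwo.add_eq_zero).1 h1

theorem beta_zeta [CharP k 2] (ζ : I1 × Jt) (x : I0T I1 M j0) :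
    ∑ j, beta k (inr (ζ, j)) x j = 0 := by
  rcases x with y | ⟨ζ', ⟨j1, j1'⟩, h⟩
  · simp [beta]
  · by_cases h1 : ζ = ζ'
    · subst h1
      by_cases h2 : j1 = j1'
      · subst h2
        simp [beta, Finset.sum_add_distrib, CharTwo.add_self_eq_zero]
      · simp only [beta, h2, and_false, if_false, add_zero]
        refine Finset.sum_eq_zero fun j _ => if_neg ?_
        rintro ⟨h3, rfl⟩
        exact h2 (by simpa using h3)
    · simp [beta, h1]

theorem beta_surj (x0 : I0T I1 M j0) : ∃ (μ : UU (U1T I1 Jt M) I1 Jt) (j : Jt × Bool),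
    ∀ x, beta k μ x j = if x = x0 then 1 else 0 := by
  rcases x0 with ⟨j1, μ1⟩ | ⟨ζ, ⟨j1, j1'⟩, h⟩
  · refine ⟨inl μ1, j1, ?_⟩
    rintro (⟨j, μ⟩ | y)
    · simp [beta, and_comm, eq_comm]
    · simp [beta]
  · refine ⟨inr (ζ, j1'), j1, ?_⟩
    rintro (y | ⟨ζ', ⟨j, j'⟩, h'⟩)
    · simp [beta]
    · have h2 : ¬ ((ζ = ζ' ∧ j1' = j0) ∧ j1 = j0 ∧ j = j') := by
        rintro ⟨⟨-, rfl⟩, rfl, -⟩; exact h rfl
      simp only [beta, inr.injEq, Prod.mk.injEq, h2, if_false, add_zero, Subtype.mk.injEq]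
      refine if_congr ?_ rfl rfl
      constructor
      · rintro ⟨⟨rfl, rfl⟩, rfl⟩; simp
      · rintro ⟨rfl, rfl, rfl⟩; simp

theorem good_of_duals [CharP k 2] {A : Type} [CommRing A] (T : EData A k V (UU (U1T I1 Jt M) I1 Jt))
    (p : Matrix (Jt × Bool) Bool A) (q : Matrix I1 (Jt × Bool) A) (r : Matrix (I0T I1 M j0) I1 A)
    (d : Duals k (fun j l => T.der (p j l)) (fun i j => T.der (q i j)) (fun x i => T.der (r x i)))
    (θ : Bool × I1 × UU (U1T I1 Jt M) I1 Jt → Jt × Jt × U1T I1 Jt M) (hθ : Function.Injective θ)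
    (hT : ∀ μ, T.phi μ = phiB d μ + phiP d θ μ + phiX d μ) : Good T p q r inl θ := by
  have hal : ∀ μ i l, al T p q μ i l = ∑ j, phiX d μ (T.der (q i j)) (T.der (p j l)) := by
    intro μ i l
    simp only [al, hT, LinearMap.add_apply, phiB_qp d, phiP_q d, zero_add]
  have hbe : ∀ μ x j, al T q r μ x j = beta k μ x j := by
    intro μ x j
    simp only [al, hT, LinearMap.add_apply, phiP_r d, phiX_rq d, add_zero, phiB_rq d]
  have hga : ∀ μ x y, Ga T μ x y = (phiP d θ μ (T.der x) (T.der y) + phiP d θ μ (T.der y) (T.der x))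
      + (phiX d μ (T.der x) (T.der y) + phiX d μ (T.der y) (T.der x)) := by
    intro μ x y
    simp only [Ga, hT, LinearMap.add_apply, phiB_symm d μ (T.der y)]
    linear_combination CharTwo.add_self_eq_zero (phiB d μ (T.der x) (T.der y))
  have a1 := d.ps_p
  have a2 := d.ps_q
  have a3 := d.ψ_q
  refine ⟨fun i0 l0 => ⟨inl (inl (i0, l0)), fun i l => ?_⟩,
    fun j1 j1' => ⟨inl (inr (inl (j1, j1'))), fun i l => ?_, fun j j' => ?_⟩, ?_, ?_, ?_, ?_, ?_,
    ?_, ?_, inl_injective, hθ⟩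
  · by_cases hl : l = l0
    · simp [hal, phiX, LinearMap.sum_apply, a1, a2, hl, a3]
    · simp [hal, phiX, LinearMap.sum_apply, a1, a2, hl]
  · simp [hal, phiX, a2]
  · simp [hga, phiP_p' d, phiX, a1, ite_and]
    split_ifs <;> rfl
  · simpa only [hbe] using beta_surj
  · simpa only [hbe] using beta_ker
  · simpa only [hbe] using beta_zeta
  · intro j1 μ1 μ j
    rw [hbe]; rfl
  · intro z i l
    simp [hal, phiX, a2]
  · intro ζ j l i
    simp only [hga, phiP_p' d, phiP_q' d, phiX, LinearMap.sum_apply, bil_apply, a1, a2, zero_mul,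
      Finset.sum_const_zero, add_zero, zero_add]
    by_cases hj : j = (ζ.2, l)
    · subst hj
      cases l <;> simp [a3]
    · cases l <;> simp [hj]
  · intro μ j l x i
    rw [hga, phiX_pr d, phiP_r d, phiP_pr d, add_zero, add_zero]

end Pool.Agent.Lib.MP_fa2e84_al
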