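import Pool.Agent.Lib.MP_fa2e84_al.Ops
import Pool.Agent.Lib.MP_fa2e84_al.Prune

/-! The explicit polynomial matrices. -/

set_option linter.unusedSectionVars false
set_option maxHeartbeats 400000
set_option synthInstance.maxSize 2048

namespace Pool.Agent.Lib.MP_fa2e84_al

open Sum MvPolynomial

/-- The variables. -/
abbrev VT (Mt : Type) : Type := Fin 8 ⊕ Fin 8 ⊕ ((Fin 8 × Mt) × Bool × Bool)

/-- Their weights. -/
def wV {Mt : Type} : VT Mt → ℕ
  | inl _ => 2
  | inr _ => 1

/-- Their colours. -/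
def cV {Mt : Type} : VT Mt → Fin 8
  | inl σ => σ
  | inr (inl σ) => σ
  | inr (inr z) => z.1.1

/-- The universal parameters. -/
noncomputable def parV (k : Type) [Field k] {Mt : Type} (m0 : Mt) :
    Par (MvPolynomial (VT Mt) k) (Fin 8) (Fin 8 × Mt) where
  y σ := X (inl σ)
  t σ := X (inr (inl σ))
  a κ β l := X (inr (inr (κ, β, l)))
  piv π := (π, m0)

variable {k : Type} [Field k] {Mt : Type} (m0 : Mt)

theorem hmul {Var : Type} {w : Var → ℕ} {f g : MvPolynomial Var k} {m n c : ℕ}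
    (hf : IsWeightedHomogeneous w f m) (hg : IsWeightedHomogeneous w g n) (h : m + n = c) :
    IsWeightedHomogeneous w (f * g) c := h ▸ hf.mul hg

theorem hsingle {Var J : Type} [DecidableEq J] (w : Var → ℕ) (j i : J) :
    IsWeightedHomogeneous w ((Pi.single j 1 : J → MvPolynomial Var k) i) 0 := by
  rw [Pi.single_apply]
  split_ifs
  · exact isWeightedHomogeneous_one k w
  · exact isWeightedHomogeneous_zero k w 0

theorem hy (σ) : IsWeightedHomogeneous wV ((parV k m0).y σ) 2 := isWeightedHomogeneous_X k wV _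

theorem ht (σ) : IsWeightedHomogeneous wV ((parV k m0).t σ) 1 := isWeightedHomogeneous_X k wV _

theorem ha (κ β l) : IsWeightedHomogeneous wV ((parV k m0).a κ β l) 1 :=
  isWeightedHomogeneous_X k wV _

theorem hdl (π) : IsWeightedHomogeneous wV ((parV k m0).dl π) 2 :=
  (hmul (ha m0 _ _ _) (ha m0 _ _ _) rfl).sub (hmul (ha m0 _ _ _) (ha m0 _ _ _) rfl)

theorem hadj (π) {u0 u1 : MvPolynomial (VT Mt) k} (h0 : IsWeightedHomogeneous wV u0 0)
    (h1 : IsWeightedHomogeneous wV u1 0) (l) :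
    IsWeightedHomogeneous wV ((parV k m0).adj π u0 u1 l) 1 := by
  cases l
  · exact (hmul (ha m0 _ _ _) h0 rfl).sub (hmul (ha m0 _ _ _) h1 rfl)
  · exact (hmul (ha m0 _ _ _) h1 rfl).sub (hmul (ha m0 _ _ _) h0 rfl)

theorem hE (o) {v : (Fin 8 × Fin 8 × Mt) × Bool → MvPolynomial (VT Mt) k}
    (hv : ∀ j, IsWeightedHomogeneous wV (v j) 0) (j) :
    IsWeightedHomogeneous wV ((parV k m0).E o v j) 2 := by
  obtain ⟨b, π⟩ := o
  cases b
  · exact (hmul (hy m0 _) (hv _) rfl).sub (hmul (hy m0 _) (hv _) rfl)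
  · exact (hmul (hdl m0 _) (hv _) rfl).sub ((hmul (ha m0 _ _ _) (hadj m0 _ (hv _) (hv _) _) rfl).add
      (hmul (ha m0 _ _ _) (hadj m0 _ (hv _) (hv _) _) rfl))

theorem hCm (o o') {v : (Fin 8 × Fin 8 × Mt) × Bool → MvPolynomial (VT Mt) k}
    (hv : ∀ j, IsWeightedHomogeneous wV (v j) 0) (j) :
    IsWeightedHomogeneous wV ((parV k m0).Cm o o' v j) 2 := by
  obtain ⟨b, π⟩ := o
  obtain ⟨b', π'⟩ := o'
  cases b <;> cases b'
  · exact hmul (hy m0 _) (hv _) rfl
  · exact hE m0 (false, π) hv j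
  · exact hE m0 (true, π) hv j
  · exact hmul (hdl m0 _) (hv _) rfl

/-- Coefficient of a variable. -/
noncomputable def d1 {Var : Type} (v : Var) : MvPolynomial Var k →ₗ[k] k :=
  (lcoeff k 0).comp (pderiv v).toLinearMap

/-- Coefficient of a product of two distinct variables. -/
noncomputable def d2 {Var : Type} (v v' : Var) : MvPolynomial Var k →ₗ[k] k :=
  (d1 v).comp (pderiv v').toLinearMap

theorem d1_apply {Var : Type} (v : Var) (f : MvPolynomial Var k) :
    d1 v f = constantCoeff (pderiv v f) := rfl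

theorem d2_apply {Var : Type} (v v' : Var) (f : MvPolynomial Var k) :
    d2 v v' f = constantCoeff (pderiv v (pderiv v' f)) := rfl

theorem succ_ne : ∀ σ : Fin 8, σ + 1 ≠ σ := by decide

variable [Fintype Mt] [DecidableEq Mt]

theorem p_entry (j l) : LinearMap.toMatrix' (parV k m0).pL j l =
    X (inl j.1.1) * X (inr (inr (j.1.2, j.2, l))) := by
  cases l <;> simp [Par.pL_apply, parV]

/-- The explicit data. -/
noncomputable def preV (k : Type) [Field k] (m0 : Mt) : Pre k (wV (Mt := Mt)) cV Bool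
    ((Fin 8 × Fin 8 × Mt) × Bool) (LT (Fin 8) (Fin 8 × Mt)) (HT (Fin 8) (Fin 8 × Mt)) where
  p := LinearMap.toMatrix' (parV k m0).pL
  q := LinearMap.toMatrix' (parV k m0).qL
  η := LinearMap.toMatrix' (parV k m0).eL
  wt := Sum.elim (fun _ => 2) fun _ => 1
  dg := Sum.elim (fun _ => 1) fun _ => 2
  wt_ne := by rintro (i | i) <;> simp
  wt_dg := by rintro (i | i) <;> simp
  hp j l := by rw [p_entry]; exact hmul (hy m0 _) (ha m0 _ _ _) rfl
  hq i j := hmul (ht m0 _) (hE m0 _ (hsingle wV j) _) rfl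
  hη := by
    rintro (z | z) l
    · exact (hmul (ht m0 _) (hsingle wV l _) rfl).sub (hmul (ht m0 _) (hsingle wV l _) rfl)
    · exact (hCm m0 _ _ (fun _ => hsingle wV l _) _).sub (hE m0 _ (fun _ => hsingle wV l _) _)
  qp := by
    rw [← LinearMap.toMatrix'_comp, ← map_zero LinearMap.toMatrix']
    exact congrArg _ (LinearMap.ext (parV k m0).qp)
  ηq := by
    rw [← LinearMap.toMatrix'_comp, ← map_zero LinearMap.toMatrix']
    exact congrArg _ (LinearMap.ext (parV k m0).eq)
  x π := (parV k m0).t π * (parV k m0).y π * (parV k m0).dl π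
  bh π := bh_of_lin _ _ _ _ _ _ _ ((parV k m0).h3 π) ((parV k m0).h2 π) ((parV k m0).h1 π)
  x_ne π := by
    refine mul_ne_zero (mul_ne_zero (X_ne_zero _) (X_ne_zero _)) fun h => ?_
    have := congrArg (eval (Sum.elim 0 (Sum.elim 0 fun z => if z.2.1 = z.2.2 then 1 else 0))) h
    simp [Par.dl, parV] at this
  x_hom π := ⟨5, hmul (hmul (ht m0 _) (hy m0 _) rfl) (hdl m0 _) rfl⟩
  x_supp π := by
    refine mul_mem (mul_mem ?_ ?_) (sub_mem (mul_mem ?_ ?_) (mul_mem ?_ ?_)) <;>
      exact X_mem_supported.2 rfl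
  ps j l := d2 (inl j.1.1) (inr (inr (j.1.2, j.2, l)))
  ps_p := by
    rintro ⟨⟨σ, κ⟩, β⟩ l ⟨⟨σ', κ'⟩, β'⟩ l'
    rw [p_entry, d2_apply]
    by_cases h1 : κ' = κ ∧ β' = β ∧ l' = l
    · obtain ⟨rfl, rfl, rfl⟩ := h1
      by_cases h2 : σ' = σ <;> simp [h2]
    · have h3 : ¬ ((((σ', κ'), β') : (Fin 8 × Fin 8 × Mt) × Bool) = ((σ, κ), β) ∧ l' = l) := by
        simp only [Prod.mk.injEq]; tauto
      rw [if_neg h3]
      simp [h1]
  ps_q j l i j' := by
    rw [LinearMap.toMatrix'_apply, Par.qL_apply, d2_apply]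
    simp [parV]
  χ j0 i := if i = (0, (false, j0.1.1 + 1), j0) then d2 (inr (inl 0)) (inl (j0.1.1 + 1)) else 0
  χ_q j0 j := by
    rw [Finset.sum_eq_single (0, (false, j0.1.1 + 1), j0)]
    · rw [if_pos rfl, LinearMap.toMatrix'_apply, Par.qL_apply, d2_apply]
      have := succ_ne j0.1.1
      by_cases h : j = j0
      · simp [Par.E, parV, h, Pi.single_apply]
        split_ifs <;> simp [this.symm]
      · simp [Par.E, parV, h, Ne.symm h, Pi.single_apply]
        split_ifs <;> simp [this.symm]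
    · intro i _ hi; simp [hi]
    · simp
  lam l0 h := if h = inl (l0.1, l0.1 + 1, l0.2) then d1 (inr (inl (l0.1 + 1))) else 0
  lam_η l0 l := by
    rw [Finset.sum_eq_single (inl (l0.1, l0.1 + 1, l0.2))]
    · rw [if_pos rfl, LinearMap.toMatrix'_apply, Par.eL_inl, d1_apply]
      have := succ_ne l0.1
      by_cases h : l = l0
      · simp [parV, h, Pi.single_apply]
        split_ifs <;> simp [this.symm]
      · simp [parV, h, Ne.symm h, Pi.single_apply]
        split_ifs <;> simp [this.symm]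
    · intro i _ hi; simp [hi]
    · simp

theorem goal_of_card (h : 8 < Fintype.card Mt) : Goal := by
  obtain ⟨m0⟩ : Nonempty Mt := Fintype.card_pos_iff.1 (by omega)
  refine (preV (ZMod 2) m0).goal' ?_ ?_
  · rintro (v | v) <;> simp [wV]
  · simp only [Fintype.card_prod, Fintype.card_fin, Fintype.card_bool]
    nlinarith

theorem goal : Goal := goal_of_card (Mt := Fin 9) (by simp)

end Pool.Agent.Lib.MP_fa2e84_al
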