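import Pool.Agent.Lib.MP_fa2e84_al.Descent

/-! Passage from a weighted polynomial ring to the localised third Veronese subring. -/

set_option linter.unusedSectionVars false
set_option maxHeartbeats 400000

namespace Pool.Agent.Lib.MP_fa2e84_al

open RingTheory.Sequence MvPolynomial

theorem exists_loc_der {B k V : Type} [CommRing B] [Field k] [AddCommGroup V] [Module k V]
    [Module kᵐᵒᵖ V] [IsCentralScalar k V] (res : B →+* k) (der : B →+ V)
    (leib : ∀ a b, der (a * b) = res a • der b + res b • der a) (A : Type) [CommRing A]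
    [Algebra B A] (P : Submonoid B) (hP : ∀ y ∈ P, res y ≠ 0) [IsLocalization P A] :
    ∃ (res' : A →+* k) (der' : A →+ V), (∀ a b, der' (a * b) = res' a • der' b + res' b • der' a) ∧
      (∀ b, res' (algebraMap B A b) = res b) ∧ ∀ b, der' (algebraMap B A b) = der b := by
  have h1 : der 1 = 0 := by
    have := leib 1 1
    simp only [mul_one, map_one, one_smul] at this
    simpa using this
  let g : B →+* TrivSqZeroExt k V :=
    { toFun := fun b => (res b, der b)
      map_one' := TrivSqZeroExt.ext (map_one res) h1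
      map_mul' := fun a b => TrivSqZeroExt.ext (map_mul res a b) (by
        rw [TrivSqZeroExt.snd_mul, op_smul_eq_smul]; exact leib a b)
      map_zero' := TrivSqZeroExt.ext (map_zero res) (map_zero der)
      map_add' := fun a b => TrivSqZeroExt.ext (map_add res a b) (map_add der a b) }
  have hg : ∀ y : P, IsUnit (g y) := fun y =>
    TrivSqZeroExt.isUnit_iff_isUnit_fst.2 (isUnit_iff_ne_zero.2 (hP y.1 y.2))
  let G : A →+* TrivSqZeroExt k V := IsLocalization.lift hg
  refine ⟨(TrivSqZeroExt.fstHom k k V).toRingHom.comp G,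
    (TrivSqZeroExt.sndHom k V).toAddMonoidHom.comp G.toAddMonoidHom, fun a b => ?_, fun b => ?_,
    fun b => ?_⟩
  · change (G (a * b)).snd = (G a).fst • (G b).snd + (G b).fst • (G a).snd
    rw [map_mul, TrivSqZeroExt.snd_mul, op_smul_eq_smul]
  · change (G (algebraMap B A b)).fst = _
    rw [IsLocalization.lift_eq]; rfl
  · change (G (algebraMap B A b)).snd = _
    rw [IsLocalization.lift_eq]; rfl

variable {k Var : Type} [Field k] [Fintype Var] (w : Var → ℕ)

/-- The weights modulo three. -/
def w3 : Var → ZMod 3 := fun v => (w v : ZMod 3)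

theorem weight_w3 (d : Var →₀ ℕ) :
    Finsupp.weight (w3 w) d = ((Finsupp.weight w d : ℕ) : ZMod 3) := by
  simp [Finsupp.weight_eq_sum, w3]

theorem homog_w3 {f : MvPolynomial Var k} {n : ℕ} (h : IsWeightedHomogeneous w f n) :
    IsWeightedHomogeneous (w3 w) f (n : ZMod 3) := fun d hd => by rw [weight_w3, h hd]

/-- The third Veronese subring. -/
def Ver (k : Type) [Field k] (w : Var → ℕ) : Subalgebra k (MvPolynomial Var k) where
  carrier := {f | IsWeightedHomogeneous (w3 w) f 0}
  mul_mem' := fun ha hb => by simpa using IsWeightedHomogeneous.mul ha hb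
  add_mem' := IsWeightedHomogeneous.add
  algebraMap_mem' := fun c => isWeightedHomogeneous_C _ c

theorem mem_Ver_of {f : MvPolynomial Var k} {n : ℕ} (h : IsWeightedHomogeneous w f n)
    (hn : 3 ∣ n) : f ∈ Ver k w := by
  have := homog_w3 w h
  rwa [(ZMod.natCast_eq_zero_iff n 3).2 hn] at this

theorem pow_mem_Ver {f : MvPolynomial Var k} {n : ℕ} (h : IsWeightedHomogeneous w f n) :
    f ^ 3 ∈ Ver k w := mem_Ver_of w (h.pow 3) ⟨n, rfl⟩

theorem noetherian_Ver : IsNoetherianRing (Ver k w) := by
  have hint : Algebra.IsIntegral (Ver k w) (MvPolynomial Var k) := by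
    refine ⟨fun f => ?_⟩
    induction f using MvPolynomial.induction_on with
    | C a => exact isIntegral_algebraMap (x := (⟨C a, (Ver k w).algebraMap_mem a⟩ : Ver k w))
    | add p q hp hq => exact hp.add hq
    | mul_X p v hp =>
      refine hp.mul (IsIntegral.of_pow (n := 3) (by norm_num) ?_)
      exact isIntegral_algebraMap
        (x := (⟨X v ^ 3, pow_mem_Ver w (isWeightedHomogeneous_X k w v)⟩ : Ver k w))
  have hft : Algebra.FiniteType (Ver k w) (MvPolynomial Var k) :=
    Algebra.FiniteType.of_restrictScalars_finiteType k _ _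
  have hfin : Module.Finite (Ver k w) (MvPolynomial Var k) := Algebra.IsIntegral.finite
  have : Algebra.FiniteType k (Ver k w) :=
    ⟨fg_of_fg_of_fg k (Ver k w) (MvPolynomial Var k) Algebra.FiniteType.out hfin.fg_top
      Subtype.val_injective⟩
  exact Algebra.FiniteType.isNoetherianRing k _

/-- The projection onto the Veronese subring. -/
noncomputable def piV : MvPolynomial Var k →+ Ver k w :=
  (weightedHomogeneousComponent (w3 w) 0).toAddMonoidHom.codRestrict (Ver k w) fun f =>
    weightedHomogeneousComponent_isWeightedHomogeneous 0 f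

theorem piV_val (f : MvPolynomial Var k) :
    (piV w f).1 = weightedHomogeneousComponent (w3 w) 0 f := rfl

theorem piV_mul (b : Ver k w) (f : MvPolynomial Var k) : piV w (b.1 * f) = b * piV w f := by
  classical
  apply Subtype.ext
  rw [MulMemClass.coe_mul, piV_val, piV_val]
  ext m
  simp only [coeff_weightedHomogeneousComponent, coeff_mul]
  have key : ∀ x ∈ Finset.HasAntidiagonal.antidiagonal m, coeff x.1 b.1 ≠ 0 →
      Finsupp.weight (w3 w) x.2 = Finsupp.weight (w3 w) m := by
    intro x hx h
    rw [← Finset.HasAntidiagonal.mem_antidiagonal.1 hx, map_add, b.2 h, zero_add]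
  split_ifs with hm
  · refine Finset.sum_congr rfl fun x hx => ?_
    by_cases h : coeff x.1 b.1 = 0
    · simp [h]
    · rw [if_pos ((key x hx h).trans hm)]
  · refine (Finset.sum_eq_zero fun x hx => ?_).symm
    by_cases h : coeff x.1 b.1 = 0
    · simp [h]
    · rw [if_neg (by rw [key x hx h]; exact hm), mul_zero]

theorem piV_one : piV w (1 : MvPolynomial Var k) = 1 :=
  Subtype.ext (isWeightedHomogeneous_one k (w3 w)).weightedHomogeneousComponent_same

theorem weight_eq_zero (hw : ∀ v, w v ≠ 0) {d : Var →₀ ℕ} (h : Finsupp.weight w d = 0) :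
    d = 0 := by
  rw [Finsupp.weight_eq_sum, Finset.sum_eq_zero_iff] at h
  ext v
  simpa [hw v] using h v (Finset.mem_univ v)

theorem leib_Ver (hw : ∀ v, w v ≠ 0) (a b : Ver k w) :
    weightedHomogeneousComponent w 3 (a.1 * b.1) =
      constantCoeff a.1 • weightedHomogeneousComponent w 3 b.1 +
        constantCoeff b.1 • weightedHomogeneousComponent w 3 a.1 := by
  classical
  ext m
  simp only [coeff_weightedHomogeneousComponent, coeff_add, coeff_smul, smul_eq_mul]
  split_ifs with hm
  · have hm0 : m ≠ 0 := by rintro rfl; simp at hm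
    rw [coeff_mul, Finset.sum_eq_add (0, m) (m, 0) (by simp [hm0])]
    · simp [constantCoeff_eq, mul_comm]
    · rintro ⟨x, y⟩ hx ⟨h1, h2⟩
      have hxy : x + y = m := Finset.HasAntidiagonal.mem_antidiagonal.1 hx
      by_contra h
      have h3 := a.2 (left_ne_zero_of_mul h)
      rw [weight_w3, ZMod.natCast_eq_zero_iff] at h3
      change 3 ∣ Finsupp.weight w x at h3
      have h4 : Finsupp.weight w x + Finsupp.weight w y = 3 := by rw [← map_add, hxy, hm]
      by_cases h5 : Finsupp.weight w x = 0
      · have := weight_eq_zero w hw h5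
        subst this
        exact h1 (by simpa using hxy)
      · have := weight_eq_zero w hw (d := y) (by omega)
        subst this
        exact h2 (by simpa using hxy)
    · simp
    · simp
  · simp

section final

variable {I3 I2 I1 I0 : Type} [Fintype I3] [Fintype I2] [Fintype I1] [Fintype I0] [DecidableEq I3]
  [DecidableEq I2] [DecidableEq I1] [DecidableEq I0]

theorem goal_of_ring (hW : Works k I3 I2 I1 I0) {B V : Type} [CommRing B] [IsNoetherianRing B]
    [AddCommGroup V] [Module k V] [Module kᵐᵒᵖ V] [IsCentralScalar k V]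
    (h2 : (2 : B) = 0) (res : B →+* k) (hs : Function.Surjective res) (der : B →+ V)
    (leib : ∀ a b, der (a * b) = res a • der b + res b • der a)
    (p : Matrix I2 I3 B) (q : Matrix I1 I2 B) (r : Matrix I0 I1 B)
    (hqp : q * p = 0) (hrq : r * q = 0) (hp : ∀ j l, res (p j l) = 0) (hq : ∀ i j, res (q i j) = 0)
    (hr : ∀ x i, res (r x i) = 0)
    (d : Duals k (fun j l => der (p j l)) (fun i j => der (q i j)) (fun x i => der (r x i)))
    (x : Fin 8 → B) (hx : ∀ ρ, BH p q r (x ρ))
    (hreg : IsWeaklyRegular B (List.ofFn fun ρ => x ρ * x ρ)) : Goal := by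
  have : (RingHom.ker res).IsPrime := RingHom.ker_isPrime res
  let A := Localization.AtPrime (RingHom.ker res)
  have : IsNoetherianRing A :=
    IsLocalization.isNoetherianRing (RingHom.ker res).primeCompl A inferInstance
  obtain ⟨res', der', leib', hres, hder⟩ := exists_loc_der res der leib A
    (RingHom.ker res).primeCompl fun y hy => hy
  refine hW A V ?_ res' ?_ der' leib' (p.map (algebraMap B A))
    (q.map (algebraMap B A)) (r.map (algebraMap B A)) ?_ ?_ ?_ ?_ ?_
    (by simpa only [Matrix.map_apply, hder] using d)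
    (fun ρ => algebraMap B A (x ρ)) (fun ρ => (hx ρ).map _) ?_
  · rw [← map_ofNat (algebraMap B A) 2, h2, map_zero]
  · intro c
    obtain ⟨b, rfl⟩ := hs c
    exact ⟨algebraMap B A b, hres b⟩
  · rw [← Matrix.map_mul, hqp]; ext a b; simp
  · rw [← Matrix.map_mul, hrq]; ext a b; simp
  · exact fun j l => (hres _).trans (hp j l)
  · exact fun j l => (hres _).trans (hq j l)
  · exact fun j l => (hres _).trans (hr j l)
  · have := hreg.of_isLocalization A (RingHom.ker res).primeCompl
    rw [List.map_ofFn] at this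
    simpa only [Function.comp_def, map_mul] using this

theorem goal_of_summand (hW : Works k I3 I2 I1 I0) {B S : Type} [CommRing B] [IsNoetherianRing B]
    [CommRing S] [Module k S] [Module kᵐᵒᵖ S] [IsCentralScalar k S] (ι : B →+* S)
    (hι : Function.Injective ι) (π : S →+ B) (hπ : ∀ b f, π (ι b * f) = b * π f) (h1 : π 1 = 1)
    (h2 : (2 : B) = 0) (res : B →+* k) (hs : Function.Surjective res) (der : B →+ S)
    (leib : ∀ a b, der (a * b) = res a • der b + res b • der a)
    (p : Matrix I2 I3 S) (q : Matrix I1 I2 S) (r : Matrix I0 I1 S)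
    (hqp : q * p = 0) (hrq : r * q = 0)
    (hp : ∀ j l, ∃ b, ι b = p j l ∧ res b = 0 ∧ der b = p j l)
    (hq : ∀ j l, ∃ b, ι b = q j l ∧ res b = 0 ∧ der b = q j l)
    (hr : ∀ j l, ∃ b, ι b = r j l ∧ res b = 0 ∧ der b = r j l)
    (d : Duals k p q r) (x : Fin 8 → S) (hx : ∀ ρ, BH p q r (x ρ)) (hxB : ∀ ρ, ∃ b, ι b = x ρ)
    (hreg : RegF fun ρ => x ρ * x ρ) : Goal := by
  choose p0 hp1 hp2 hp3 using hp
  choose q0 hq1 hq2 hq3 using hq
  choose r0 hr1 hr2 hr3 using hr
  choose x0 hx0 using hxB
  have ep : (Matrix.of p0).map ι = p := by ext a b; exact hp1 a b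
  have eq : (Matrix.of q0).map ι = q := by ext a b; exact hq1 a b
  have er : (Matrix.of r0).map ι = r := by ext a b; exact hr1 a b
  have inj : ∀ {I J : Type} (m : Matrix I J B), m.map ι = 0 → m = 0 := fun m hm => by
    ext a b
    exact hι ((congrFun (congrFun hm a) b).trans (map_zero ι).symm)
  refine goal_of_ring hW h2 res hs der leib (Matrix.of p0) (Matrix.of q0) (Matrix.of r0)
    (inj _ (by rw [Matrix.map_mul, ep, eq, hqp])) (inj _ (by rw [Matrix.map_mul, eq, er, hrq]))
    hp2 hq2 hr2 (by simpa only [Matrix.of_apply, hp3, hq3, hr3] using d) x0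
    (fun ρ => BH.descend ι π hπ h1 (by rw [ep, eq, er, hx0]; exact hx ρ))
    (RegF.descend ι π hπ h1 (by simpa only [map_mul, hx0] using hreg)).isWeaklyRegular

theorem veronese [CharP k 2] (hW : Works k I3 I2 I1 I0) (hw : ∀ v, w v ≠ 0)
    (p : Matrix I2 I3 (MvPolynomial Var k)) (q : Matrix I1 I2 (MvPolynomial Var k))
    (r : Matrix I0 I1 (MvPolynomial Var k))
    (hqp : q * p = 0) (hrq : r * q = 0) (hp : ∀ j l, IsWeightedHomogeneous w (p j l) 3)
    (hq : ∀ i j, IsWeightedHomogeneous w (q i j) 3) (hr : ∀ x i, IsWeightedHomogeneous w (r x i) 3)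
    (d : Duals k p q r) (x : Fin 8 → MvPolynomial Var k) (hx : ∀ ρ, BH p q r (x ρ))
    (hxh : ∀ ρ, ∃ n, IsWeightedHomogeneous w (x ρ) n)
    (hreg : RegF fun ρ => x ρ ^ 3 * x ρ ^ 3) : Goal := by
  let ι : Ver k w →+* MvPolynomial Var k := (Ver k w).val.toRingHom
  let res : Ver k w →+* k := constantCoeff.comp ι
  let der : Ver k w →+ MvPolynomial Var k :=
    (weightedHomogeneousComponent w 3).toAddMonoidHom.comp ι.toAddMonoidHom
  have c0 : ∀ f : MvPolynomial Var k, IsWeightedHomogeneous w f 3 →
      ∃ b, ι b = f ∧ res b = 0 ∧ der b = f := fun f hf =>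
    ⟨⟨f, mem_Ver_of w hf dvd_rfl⟩, rfl, hf.coeff_eq_zero 0 (by simp),
      hf.weightedHomogeneousComponent_same⟩
  have := noetherian_Ver (k := k) w
  refine goal_of_summand hW ι Subtype.val_injective (piV w) (piV_mul w) (piV_one w) ?_ res ?_ der
    (leib_Ver w hw) p q r hqp hrq (fun j l => c0 _ (hp j l)) (fun j l => c0 _ (hq j l))
    (fun j l => c0 _ (hr j l)) d (fun ρ => x ρ ^ 3) (fun ρ => ?_) (fun ρ => ?_) hreg
  · rw [← map_ofNat (algebraMap k (Ver k w)) 2, CharTwo.two_eq_zero, map_zero]
  · intro c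
    exact ⟨algebraMap k (Ver k w) c, constantCoeff_C _ c⟩
  · have := (hx ρ).mul (x ρ ^ 2)
    rwa [← pow_succ] at this
  · obtain ⟨n, hn⟩ := hxh ρ
    exact ⟨⟨_, pow_mem_Ver w hn⟩, rfl⟩

end final

end Pool.Agent.Lib.MP_fa2e84_al
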